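import Pool.Agent.TH128.KC.Main

set_option autoImplicit false
set_option linter.unusedSectionVars false

/-!
# Type `A` with one component: the explicit list
-/

namespace Pool.Agent.TH128.KC

open Finset Pool.Agent.KottwitzG

section comb

/-- the floors -/
def fl (n a k : ℕ) : ℕ := k * a / (n + 1)

theorem fl_le (n a k : ℕ) : fl n a k * (n + 1) ≤ k * a := Nat.div_mul_le_self _ _

theorem lt_fl (n a k : ℕ) : k * a < (fl n a k + 1) * (n + 1) := by
  have h1 := Nat.div_add_mod (k * a) (n + 1)
  have h2 := Nat.mod_lt (k * a) (show 0 < n + 1 by omega)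
  have h3 : (fl n a k + 1) * (n + 1) = (n + 1) * (k * a / (n + 1)) + (n + 1) := by
    unfold fl
    ring
  rw [h3]
  omega

theorem fl_eq {n a k p : ℕ} (h1 : p * (n + 1) ≤ k * a) (h2 : k * a < (p + 1) * (n + 1)) :
    fl n a k = p := by
  have h3 := fl_le n a k
  have h4 := lt_fl n a k
  have h5 : fl n a k < p + 1 := by
    by_contra h
    push Not at h
    have := Nat.mul_le_mul_right (n + 1) h
    omega
  have h6 : p < fl n a k + 1 := by
    by_contra h
    push Not at h
    have := Nat.mul_le_mul_right (n + 1) h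
    omega
  omega

theorem le_fl {n a k p : ℕ} (h1 : p * (n + 1) ≤ k * a) : p ≤ fl n a k := by
  have h4 := lt_fl n a k
  by_contra h
  push Not at h
  have h5 : fl n a k + 1 ≤ p := h
  have := Nat.mul_le_mul_right (n + 1) h5
  omega

theorem fl_lt {n a k p : ℕ} (h1 : k * a < p * (n + 1)) : fl n a k < p := by
  have h4 := fl_le n a k
  by_contra h
  push Not at h
  have := Nat.mul_le_mul_right (n + 1) h
  omega

theorem no_mid {n a j : ℕ} (h3 : 3 ≤ a) (ha : a + 1 ≤ n) (hj : 1 ≤ j) (hjn : j ≤ n)
    (hs : ∀ k ≤ n + 1, fl n a k = fl n (a - 1) k + if j < k then 1 else 0) : False := by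
  obtain ⟨c, rfl⟩ : ∃ c, a = c + 1 := ⟨a - 1, by omega⟩
  rw [Nat.add_sub_cancel] at hs
  -- `c = a - 1 ≥ 2`
  have hlt : j + 1 ≤ n := by
    by_contra h
    obtain rfl : j = n := by omega
    have h1 := hs j (by omega)
    rw [if_neg (lt_irrefl _), Nat.add_zero] at h1
    have e1 : fl j (c + 1) j = c := fl_eq (by nlinarith) (by nlinarith)
    have e2 : fl j c j = c - 1 := by
      obtain ⟨c', rfl⟩ : ∃ c', c = c' + 1 := ⟨c - 1, by omega⟩
      rw [Nat.add_sub_cancel]
      exact fl_eq (by nlinarith) (by nlinarith)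
    omega
  obtain ⟨t, ht⟩ : ∃ t, t = j + 1 := ⟨_, rfl⟩
  obtain ⟨p, hp⟩ : ∃ p, p = fl n (c + 1) t := ⟨_, rfl⟩
  obtain ⟨p2, hp2⟩ : ∃ p2, p2 = fl n (c + 1) (t + 1) := ⟨_, rfl⟩
  have s1 := hs t (by omega)
  have s2 := hs (t + 1) (by omega)
  rw [if_pos (by omega), ← hp] at s1
  rw [if_pos (by omega), ← hp2] at s2
  have f1 : p * (n + 1) ≤ t * (c + 1) := by rw [hp]; exact fl_le _ _ _
  have f1' : t * (c + 1) < (p + 1) * (n + 1) := by rw [hp]; exact lt_fl _ _ _
  have f2 : t * c < p * (n + 1) := by rw [s1]; exact lt_fl _ _ _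
  have f3 : p2 * (n + 1) ≤ (t + 1) * (c + 1) := by rw [hp2]; exact fl_le _ _ _
  have f4 : (t + 1) * c < p2 * (n + 1) := by rw [s2]; exact lt_fl _ _ _
  have hpt : p < t := by
    by_contra h
    push Not at h
    have h1 := Nat.mul_le_mul_right (n + 1) h
    have h2 : t * (c + 1) < t * (n + 1) := Nat.mul_lt_mul_of_pos_left (by omega) (by omega)
    omega
  have hp2le : p2 ≤ p + 1 := by
    by_contra h
    push Not at h
    have h1 : (p + 2) * (n + 1) ≤ p2 * (n + 1) := Nat.mul_le_mul_right _ (by omega)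
    nlinarith
  have hp2ge : p ≤ p2 := by
    rw [hp2]
    exact le_fl (by nlinarith)
  have hk : ∀ k ≤ n + 1, fl n c k < fl n (c + 1) k → t ≤ k := by
    intro k hk h
    have h1 := hs k hk
    by_contra h2
    rw [if_neg (by omega)] at h1
    omega
  have hcase : p2 = p ∨ p2 = p + 1 := by omega
  rcases hcase with h | h
  · rw [h] at f3 f4
    have hp1 : 1 ≤ p := by omega
    rcases Nat.lt_or_ge 1 p with hp3 | hp3
    · -- `p ≥ 2`
      have hb1 : 1 ≤ t / p := (Nat.one_le_div_iff (by omega)).2 hpt.le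
      have hb2 : t / p * p ≤ t := Nat.div_mul_le_self _ _
      have hb3 : t < (t / p + 1) * p := by
        have h1 := Nat.div_add_mod t p
        have h2 := Nat.mod_lt t (show 0 < p by omega)
        have h3 : (t / p + 1) * p = p * (t / p) + p := by ring
        rw [h3]
        omega
      obtain ⟨b, hb⟩ : ∃ b, b = t / p := ⟨_, rfl⟩
      rw [← hb] at hb1 hb2 hb3
      have hbt : b ≤ t := by
        calc b ≤ b * p := Nat.le_mul_of_pos_right _ (by omega)
          _ ≤ t := hb2
      obtain ⟨k, hkk⟩ : ∃ k, t = k + b := ⟨t - b, by omega⟩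
      obtain ⟨p', rfl⟩ : ∃ p', p = p' + 1 := ⟨p - 1, by omega⟩
      have g1 : p' * (n + 1) ≤ k * (c + 1) := by
        have h1 : p' * t ≤ (p' + 1) * k := by
          rw [hkk] at hb2 ⊢
          nlinarith
        have h2 : (p' + 1) * (p' * (n + 1)) ≤ (p' + 1) * (k * (c + 1)) := by
          calc (p' + 1) * (p' * (n + 1)) = p' * ((p' + 1) * (n + 1)) := by ring
            _ ≤ p' * (t * (c + 1)) := Nat.mul_le_mul_left _ f1
            _ = (p' * t) * (c + 1) := by ring
            _ ≤ ((p' + 1) * k) * (c + 1) := Nat.mul_le_mul_right _ h1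
            _ = (p' + 1) * (k * (c + 1)) := by ring
        exact Nat.le_of_mul_le_mul_left h2 (Nat.succ_pos _)
      have g2 : k * c < p' * (n + 1) := by
        have h1 : (p' + 1) * k ≤ p' * (t + 1) := by
          rw [hkk] at hb3 ⊢
          nlinarith
        have h2 : (p' + 1) * (k * c) < (p' + 1) * (p' * (n + 1)) := by
          calc (p' + 1) * (k * c) = ((p' + 1) * k) * c := by ring
            _ ≤ (p' * (t + 1)) * c := Nat.mul_le_mul_right _ h1
            _ = p' * ((t + 1) * c) := by ring
            _ < p' * ((p' + 1) * (n + 1)) := Nat.mul_lt_mul_of_pos_left f4 (by omega)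
            _ = (p' + 1) * (p' * (n + 1)) := by ring
        exact Nat.lt_of_mul_lt_mul_left h2
      have g3 := hk k (by omega) ((fl_lt g2).trans_le (le_fl g1))
      omega
    · -- `p = 1`
      obtain rfl : p = 1 := by omega
      have hex : ∃ k, n + 1 ≤ k * c := ⟨n + 1, Nat.le_mul_of_pos_right _ (by omega)⟩
      classical
      obtain ⟨k, hk0⟩ : ∃ k, k = Nat.find hex := ⟨_, rfl⟩
      have k1 : n + 1 ≤ k * c := by rw [hk0]; exact Nat.find_spec hex
      have k2 : k ≤ n + 1 := by
        rw [hk0]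
        exact Nat.find_min' hex (Nat.le_mul_of_pos_right _ (by omega))
      have k3 : t + 2 ≤ k := by
        by_contra h5
        push Not at h5
        have : k * c ≤ (t + 1) * c := Nat.mul_le_mul_right _ (by omega)
        omega
      have k4 : (k - 1) * c < n + 1 := by
        have := Nat.find_min hex (m := k - 1) (by rw [← hk0]; omega)
        omega
      have k5 := hs k k2
      rw [if_pos (by omega)] at k5
      have k6 : 1 ≤ fl n c k := le_fl (by omega)
      have k7 : 2 * (n + 1) ≤ k * (c + 1) := by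
        have h1 := fl_le n (c + 1) k
        have h2 : 2 * (n + 1) ≤ fl n (c + 1) k * (n + 1) := Nat.mul_le_mul_right _ (by omega)
        omega
      obtain ⟨k', rfl⟩ : ∃ k', k = k' + 4 := ⟨k - 4, by omega⟩
      obtain ⟨c', rfl⟩ : ∃ c', c = c' + 2 := ⟨c - 2, by omega⟩
      have k8 : (k' + 4 - 1) = k' + 3 := by omega
      rw [k8] at k4
      nlinarith
  · rw [h] at f3 f4
    -- `B = n + 1 - a ≥ 2`
    obtain ⟨B, hB⟩ : ∃ B, n + 1 = c + 1 + B := ⟨n - c, by omega⟩
    have hB2 : 2 ≤ B := by omega
    obtain ⟨q, hq⟩ : ∃ q, t = p + q := ⟨t - p, by omega⟩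
    have e1 : (t + 1) * B ≤ q * (n + 1) := by
      have h1 : (t + 1) * (n + 1) = (t + 1) * (c + 1) + (t + 1) * B := by rw [hB]; ring
      have h2 : (t + 1) * (n + 1) = (p + 1) * (n + 1) + q * (n + 1) := by rw [hq]; ring
      omega
    have e2 : q * (n + 1) < t * (B + 1) := by
      have h1 : t * (n + 1) = t * c + t * (B + 1) := by rw [hB]; ring
      have h2 : t * (n + 1) = p * (n + 1) + q * (n + 1) := by
        rw [← Nat.add_mul, ← hq]
      omega
    have hq1 : 1 ≤ q := by omega
    rcases Nat.lt_or_ge 1 q with hq3 | hq3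
    · have hqt : q ≤ t := by omega
      have hb1 : 1 ≤ t / q := (Nat.one_le_div_iff (by omega)).2 hqt
      have hb2 : t / q * q ≤ t := Nat.div_mul_le_self _ _
      have hb3 : t < (t / q + 1) * q := by
        have h1 := Nat.div_add_mod t q
        have h2 := Nat.mod_lt t (show 0 < q by omega)
        have h3 : (t / q + 1) * q = q * (t / q) + q := by ring
        rw [h3]
        omega
      obtain ⟨b, hb⟩ : ∃ b, b = t / q := ⟨_, rfl⟩
      rw [← hb] at hb1 hb2 hb3
      have hbt : b ≤ t := by
        calc b ≤ b * q := Nat.le_mul_of_pos_right _ (by omega)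
          _ ≤ t := hb2
      obtain ⟨k, hkk⟩ : ∃ k, t = k + b := ⟨t - b, by omega⟩
      obtain ⟨q', rfl⟩ : ∃ q', q = q' + 1 := ⟨q - 1, by omega⟩
      have g1 : q' * (n + 1) < k * (B + 1) := by
        have h1 : q' * t ≤ (q' + 1) * k := by
          rw [hkk] at hb2 ⊢
          nlinarith
        have h2 : (q' + 1) * (q' * (n + 1)) < (q' + 1) * (k * (B + 1)) := by
          calc (q' + 1) * (q' * (n + 1)) = q' * ((q' + 1) * (n + 1)) := by ring
            _ < q' * (t * (B + 1)) := Nat.mul_lt_mul_of_pos_left e2 (by omega)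
            _ = (q' * t) * (B + 1) := by ring
            _ ≤ ((q' + 1) * k) * (B + 1) := Nat.mul_le_mul_right _ h1
            _ = (q' + 1) * (k * (B + 1)) := by ring
        exact Nat.lt_of_mul_lt_mul_left h2
      have g2 : k * B ≤ q' * (n + 1) := by
        have h1 : (q' + 1) * k ≤ q' * (t + 1) := by
          rw [hkk] at hb3 ⊢
          nlinarith
        have h2 : (q' + 1) * (k * B) ≤ (q' + 1) * (q' * (n + 1)) := by
          calc (q' + 1) * (k * B) = ((q' + 1) * k) * B := by ring
            _ ≤ (q' * (t + 1)) * B := Nat.mul_le_mul_right _ h1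
            _ = q' * ((t + 1) * B) := by ring
            _ ≤ q' * ((q' + 1) * (n + 1)) := Nat.mul_le_mul_left _ e1
            _ = (q' + 1) * (q' * (n + 1)) := by ring
        exact Nat.le_of_mul_le_mul_left h2 (Nat.succ_pos _)
      have g4 : q' ≤ k := by
        by_contra h5
        push Not at h5
        have h6 : k * (B + 1) ≤ k * (n + 1) := Nat.mul_le_mul_left _ (by omega)
        have h7 : k * (n + 1) ≤ q' * (n + 1) := Nat.mul_le_mul_right _ h5.le
        omega
      obtain ⟨r, hr⟩ : ∃ r, k = q' + r := ⟨k - q', by omega⟩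
      have g5 : r * (n + 1) ≤ k * (c + 1) := by
        have h1 : k * (n + 1) = k * (c + 1) + k * B := by rw [hB]; ring
        have h2 : k * (n + 1) = q' * (n + 1) + r * (n + 1) := by
          rw [← Nat.add_mul, ← hr]
        omega
      have g6 : k * c < r * (n + 1) := by
        have h1 : k * (n + 1) = k * c + k * (B + 1) := by rw [hB]; ring
        have h2 : k * (n + 1) = q' * (n + 1) + r * (n + 1) := by
          rw [← Nat.add_mul, ← hr]
        omega
      have g3 := hk k (by omega) ((fl_lt g6).trans_le (le_fl g5))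
      omega
    · obtain rfl : q = 1 := by omega
      have hex : ∃ k, n + 1 < k * B := ⟨n + 1, by nlinarith⟩
      classical
      obtain ⟨k, hk0⟩ : ∃ k, k = Nat.find hex := ⟨_, rfl⟩
      have k1 : n + 1 < k * B := by rw [hk0]; exact Nat.find_spec hex
      have k2 : k ≤ n + 1 := by
        rw [hk0]
        exact Nat.find_min' hex (by nlinarith)
      have k3 : t + 2 ≤ k := by
        by_contra h5
        push Not at h5
        have : k * B ≤ (t + 1) * B := Nat.mul_le_mul_right _ (by omega)
        omega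
      have k4 : (k - 1) * B ≤ n + 1 := by
        have := Nat.find_min hex (m := k - 1) (by rw [← hk0]; omega)
        omega
      have k5 := hs k k2
      rw [if_pos (by omega)] at k5
      obtain ⟨r, hr⟩ : ∃ r, r = fl n (c + 1) k := ⟨_, rfl⟩
      rw [← hr] at k5
      have r1 : r * (n + 1) ≤ k * (c + 1) := by rw [hr]; exact fl_le _ _ _
      have r2 : k * c < r * (n + 1) := by rw [k5]; exact lt_fl _ _ _
      have r3 : r ≤ k := by
        by_contra h5
        push Not at h5
        have h6 : k * (c + 1) ≤ k * (n + 1) := Nat.mul_le_mul_left _ (by omega)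
        have h7 : (k + 1) * (n + 1) ≤ r * (n + 1) := Nat.mul_le_mul_right _ h5
        nlinarith
      obtain ⟨q, hq⟩ : ∃ q, k = r + q := ⟨k - r, by omega⟩
      have h1 : k * (n + 1) = k * (c + 1) + k * B := by rw [hB]; ring
      have h2 : k * (n + 1) = r * (n + 1) + q * (n + 1) := by rw [← Nat.add_mul, ← hq]
      have h3 : k * (n + 1) = k * c + k * (B + 1) := by rw [hB]; ring
      have h4 : k * B ≤ q * (n + 1) := by omega
      have h5 : q * (n + 1) < k * (B + 1) := by omega
      have h6 : 2 ≤ q := by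
        by_contra h7
        push Not at h7
        have : q * (n + 1) ≤ 1 * (n + 1) := Nat.mul_le_mul_right _ (by omega)
        omega
      have h7 : 2 * (n + 1) ≤ q * (n + 1) := Nat.mul_le_mul_right _ h6
      clear hs hk hk0 hex
      obtain ⟨k', rfl⟩ : ∃ k', k = k' + 4 := ⟨k - 4, by omega⟩
      obtain ⟨B', rfl⟩ : ∃ B', B = B' + 2 := ⟨B - 2, by omega⟩
      have k8 : (k' + 4 - 1) = k' + 3 := by omega
      rw [k8] at k4
      nlinarith

end comb

end Pool.Agent.TH128.KC
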