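import Pool.Agent.TH128.KC.Abs

set_option autoImplicit false
set_option linter.unusedSectionVars false

/-!
# Type `A` with one component: the explicit list, continued
-/

namespace Pool.Agent.TH128.KC

open Finset Pool.Agent.KottwitzG

section comb

theorem fl_one {n k : ℕ} (hk : k ≤ n + 1) : fl n 1 k = if k = n + 1 then 1 else 0 := by
  split_ifs with h
  · subst h
    exact fl_eq (by omega) (by omega)
  · exact fl_eq (by omega) (by omega)

theorem fl_zero (n k : ℕ) : fl n 0 k = 0 := by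
  unfold fl
  simp

theorem fl_two {n k : ℕ} (hn : 1 ≤ n) (hk : k ≤ n + 1) :
    fl n 2 k = if k = n + 1 then 2 else if n + 1 ≤ 2 * k then 1 else 0 := by
  split_ifs with h h2
  · subst h
    exact fl_eq (by omega) (by omega)
  · exact fl_eq (by omega) (by omega)
  · exact fl_eq (by omega) (by omega)

theorem fl_n {n k : ℕ} (hk : k ≤ n + 1) : fl n n k = k - 1 := by
  rcases Nat.eq_zero_or_pos k with rfl | hk0
  · unfold fl
    simp
  · obtain ⟨r, rfl⟩ : ∃ r, k = r + 1 := ⟨k - 1, by omega⟩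
    rw [Nat.add_sub_cancel]
    exact fl_eq (by nlinarith) (by nlinarith)

theorem fl_n1 {n k : ℕ} (hn : 1 ≤ n) (hk : k ≤ n + 1) :
    fl n (n - 1) k = if 2 * k ≤ n + 1 then k - 1 else k - 2 := by
  obtain ⟨m, rfl⟩ : ∃ m, n = m + 1 := ⟨n - 1, by omega⟩
  rw [Nat.add_sub_cancel]
  split_ifs with h
  · rcases Nat.eq_zero_or_pos k with rfl | hk0
    · unfold fl
      simp
    · obtain ⟨r, rfl⟩ : ∃ r, k = r + 1 := ⟨k - 1, by omega⟩
      rw [Nat.add_sub_cancel]
      exact fl_eq (by nlinarith) (by nlinarith)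
  · rcases Nat.lt_or_ge k 2 with h2 | h2
    · obtain rfl : k = 1 := by omega
      obtain rfl : m = 0 := by omega
      rfl
    · obtain ⟨r, rfl⟩ : ∃ r, k = r + 2 := ⟨k - 2, by omega⟩
      rw [Nat.add_sub_cancel]
      exact fl_eq (by nlinarith) (by nlinarith)

/-- the difference of the floors -/
def sd (n a a' k : ℕ) : ℤ := (fl n a k : ℤ) - (fl n a' k : ℤ)

theorem fl_top (n a : ℕ) : fl n a (n + 1) = a :=
  fl_eq (by rw [Nat.mul_comm]) (by nlinarith)

theorem fl_small {n a : ℕ} (ha : a ≤ n) : fl n a 1 = 0 := fl_eq (by omega) (by omega)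

theorem sd_formula {n a a' j j' : ℕ} (ha : a ≤ n) (ha' : a' ≤ n) (hj : 1 ≤ j) (hj' : 1 ≤ j')
    (h : ∀ k, 1 ≤ k → k ≤ n → sd n a a' (k + 1) - 2 * sd n a a' k + sd n a a' (k - 1) =
      (if k = j then 1 else 0) - (if k = j' then 1 else 0)) :
    ∀ k ≤ n + 1, sd n a a' k = ((k - j : ℕ) : ℤ) - ((k - j' : ℕ) : ℤ) := by
  have key : ∀ k ≤ n, sd n a a' k = ((k - j : ℕ) : ℤ) - ((k - j' : ℕ) : ℤ) ∧
      sd n a a' (k + 1) = ((k + 1 - j : ℕ) : ℤ) - ((k + 1 - j' : ℕ) : ℤ) := by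
    intro k
    induction k with
    | zero =>
      intro _
      refine ⟨?_, ?_⟩
      · unfold sd fl
        simp
      · unfold sd
        rw [Nat.zero_add, fl_small ha, fl_small ha']
        omega
    | succ k ih =>
      intro hk
      obtain ⟨h1, h2⟩ := ih (by omega)
      refine ⟨h2, ?_⟩
      have h3 := h (k + 1) (by omega) hk
      rw [Nat.add_sub_cancel] at h3
      split_ifs at h3 <;> omega
  intro k hk
  rcases Nat.lt_or_ge k (n + 1) with h1 | h1
  · exact (key k (by omega)).1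
  · obtain rfl : k = n + 1 := by omega
    exact (key n le_rfl).2

theorem long_case {n a a' j j' : ℕ} (ha : a ≤ n) (hj : 1 ≤ j) (hjj : j + 2 ≤ j')
    (hj' : j' ≤ n + 1)
    (hs : ∀ k ≤ n + 1, sd n a a' k = ((k - j : ℕ) : ℤ) - ((k - j' : ℕ) : ℤ)) :
    (a = n ∧ j = 1 ∧ a' = 1 ∧ j' = n) ∨ (a = n ∧ j = 1 ∧ a' = 0 ∧ j' = n + 1) := by
  have htop := hs (n + 1) le_rfl
  unfold sd at htop
  rw [fl_top, fl_top] at htop
  have hsum : a = a' + (j' - j) := by omega
  have h1 := hs j (by omega)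
  have h2 := hs (j + 2) (by omega)
  unfold sd at h1 h2
  have e1 := fl_le n a (j + 2)
  have e2 := lt_fl n a j
  have e3 := lt_fl n a' (j + 2)
  have e4 := fl_le n a' j
  have b1 : fl n a (j + 2) ≤ fl n a j + 2 := by
    have h3 : fl n a (j + 2) < fl n a j + 3 := fl_lt (by nlinarith)
    omega
  have b2 : fl n a' j ≤ fl n a' (j + 2) := le_fl (by nlinarith)
  have c1 : fl n a (j + 2) = fl n a j + 2 := by omega
  have c2 : fl n a' (j + 2) = fl n a' j := by omega
  rw [c1] at e1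
  rw [c2] at e3
  have d1 : n + 1 < 2 * a := by nlinarith
  have d2 : 2 * a' < n + 1 := by nlinarith
  have f1 : fl n a 2 = 1 := fl_eq (by omega) (by omega)
  have f2 : fl n a' 2 = 0 := fl_eq (by omega) (by omega)
  have h3 := hs 2 (by omega)
  unfold sd at h3
  rw [f1, f2] at h3
  obtain rfl : j = 1 := by omega
  have hn2 : 2 ≤ n := by omega
  obtain ⟨m, rfl⟩ : ∃ m, n = m + 1 := ⟨n - 1, by omega⟩
  obtain ⟨x, rfl⟩ : ∃ x, a = x + 2 := ⟨a - 2, by omega⟩
  have g1 : fl (m + 1) (x + 2) (m + 1) = x + 1 := fl_eq (by nlinarith) (by nlinarith)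
  have g2 : fl (m + 1) (x + 2) m = x := fl_eq (by nlinarith) (by nlinarith)
  have h4 := hs (m + 1) (by omega)
  have h5 := hs m (by omega)
  unfold sd at h4 h5
  rw [g1] at h4
  rw [g2] at h5
  rcases Nat.eq_zero_or_pos a' with h0 | h0
  · subst h0
    rw [fl_zero] at h4 h5
    right
    refine ⟨?_, rfl, rfl, ?_⟩ <;> omega
  · obtain ⟨y, rfl⟩ : ∃ y, a' = y + 1 := ⟨a' - 1, by omega⟩
    have g3 : fl (m + 1) (y + 1) (m + 1) = y := fl_eq (by nlinarith) (by nlinarith)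
    have g4 : fl (m + 1) (y + 1) m = y := fl_eq (by nlinarith) (by nlinarith)
    rw [g3] at h4
    rw [g4] at h5
    left
    refine ⟨?_, rfl, ?_, ?_⟩ <;> omega

theorem short_case {n a j : ℕ} (hn : 1 ≤ n) (ha : a ≤ n) (ha1 : 1 ≤ a) (hj : 1 ≤ j)
    (hj' : j ≤ n)
    (hs : ∀ k ≤ n + 1, sd n a (a - 1) k = ((k - j : ℕ) : ℤ) - ((k - (j + 1) : ℕ) : ℤ)) :
    (a = 1 ∧ j = n) ∨ (a = 2 ∧ j + 1 = (n + 2) / 2) ∨ (a = n ∧ j = (n + 1) / 2) := by
  rcases Nat.lt_or_ge a 3 with h3 | h3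
  · have h12 : a = 1 ∨ a = 2 := by omega
    rcases h12 with rfl | rfl
    · left
      refine ⟨rfl, ?_⟩
      have h1 := hs (j + 1) (by omega)
      unfold sd at h1
      rw [fl_one (by omega), show 1 - 1 = 0 from rfl, fl_zero] at h1
      split_ifs at h1 <;> omega
    · right
      left
      refine ⟨rfl, ?_⟩
      have h1 := hs (j + 1) (by omega)
      have h2 := hs j (by omega)
      unfold sd at h1 h2
      rw [show 2 - 1 = 1 from rfl, fl_one (by omega), fl_two hn (by omega)] at h1 h2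
      split_ifs at h1 h2 <;> omega
  · rcases Nat.lt_or_ge a n with h4 | h4
    · exfalso
      refine no_mid h3 (by omega) hj hj' fun k hk => ?_
      have h1 := hs k hk
      unfold sd at h1
      split_ifs <;> omega
    · obtain rfl : a = n := by omega
      right
      right
      refine ⟨rfl, ?_⟩
      have h1 := hs (j + 1) (by omega)
      have h2 := hs j (by omega)
      unfold sd at h1 h2
      rw [fl_n (by omega), fl_n1 hn (by omega)] at h1 h2
      split_ifs at h1 h2 <;> omega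

/-- the five pairs -/
def IsPair (n a j a' j' : ℕ) : Prop :=
  (a = 1 ∧ j = n ∧ a' = 0 ∧ j' = n + 1) ∨ (a = n ∧ j = 1 ∧ a' = 0 ∧ j' = n + 1) ∨
    (a = n ∧ j = 1 ∧ a' = 1 ∧ j' = n) ∨
    (a = 2 ∧ j = (n + 2) / 2 - 1 ∧ a' = 1 ∧ j' = (n + 2) / 2) ∨
    (a = n ∧ j = (n + 1) / 2 ∧ a' = n - 1 ∧ j' = (n + 1) / 2 + 1)

theorem pair_of {n a a' j j' : ℕ} (hn : 1 ≤ n) (ha : a ≤ n) (hj : 1 ≤ j) (hjj : j < j')
    (hj' : j' ≤ n + 1)
    (hs : ∀ k ≤ n + 1, sd n a a' k = ((k - j : ℕ) : ℤ) - ((k - j' : ℕ) : ℤ)) :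
    IsPair n a j a' j' := by
  have htop := hs (n + 1) le_rfl
  unfold sd at htop
  rw [fl_top, fl_top] at htop
  rcases Nat.lt_or_ge (j + 1) j' with h | h
  · rcases long_case ha hj h hj' hs with ⟨h1, h2, h3, h4⟩ | ⟨h1, h2, h3, h4⟩
    · exact Or.inr (Or.inr (Or.inl ⟨h1, h2, h3, h4⟩))
    · exact Or.inr (Or.inl ⟨h1, h2, h3, h4⟩)
  · obtain rfl : j' = j + 1 := by omega
    obtain rfl : a' = a - 1 := by omega
    rcases short_case hn ha (by omega) hj (by omega) hs with ⟨h1, h2⟩ | ⟨h1, h2⟩ | ⟨h1, h2⟩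
    · left
      refine ⟨h1, h2, ?_, ?_⟩ <;> omega
    · right; right; right; left
      refine ⟨h1, ?_, ?_, ?_⟩ <;> omega
    · right; right; right; right
      refine ⟨h1, h2, ?_, ?_⟩ <;> omega

theorem of_pair {n a a' j j' : ℕ} (hn : 1 ≤ n) (ha : a ≤ n) (h : IsPair n a j a' j') (k : ℕ)
    (h1 : 1 ≤ k) (h2 : k ≤ n) :
    sd n a a' (k + 1) - 2 * sd n a a' k + sd n a a' (k - 1) =
      (if k = j then 1 else 0) - (if k = j' then 1 else 0) := by
  unfold sd
  rcases h with ⟨rfl, rfl, rfl, rfl⟩ | ⟨rfl, rfl, rfl, rfl⟩ | ⟨rfl, rfl, rfl, rfl⟩ |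
    ⟨rfl, rfl, rfl, rfl⟩ | ⟨rfl, rfl, rfl, rfl⟩
  · rw [fl_one (by omega), fl_one (by omega), fl_one (by omega), fl_zero, fl_zero, fl_zero]
    split_ifs <;> omega
  · rw [fl_n (by omega), fl_n (by omega), fl_n (by omega), fl_zero, fl_zero, fl_zero]
    split_ifs <;> omega
  · rw [fl_n (by omega), fl_n (by omega), fl_n (by omega), fl_one (by omega), fl_one (by omega),
      fl_one (by omega)]
    split_ifs <;> omega
  · rw [fl_two hn (by omega), fl_two hn (by omega), fl_two hn (by omega), fl_one (by omega),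
      fl_one (by omega), fl_one (by omega)]
    split_ifs <;> omega
  · rw [fl_n (by omega), fl_n (by omega), fl_n (by omega), fl_n1 hn (by omega),
      fl_n1 hn (by omega), fl_n1 hn (by omega)]
    split_ifs <;> omega

end comb

end Pool.Agent.TH128.KC
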