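import Pool.Agent.TH128.KC.Abs2

set_option autoImplicit false
set_option linter.unusedSectionVars false

/-!
# Type `A` with one component: the explicit list, from the root datum
-/

namespace Pool.Agent.TH128.KC

open Finset Pool.Agent.KottwitzG

/-- The five pairs of solutions of type `A_n` with one component (`F = ℚ_p`): the inner form `a`
with the fundamental coweight number `j`, and the inner form `a'` with the fundamental coweight
number `j'`; the number `n + 1` stands for the trivial cocharacter. -/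
def Listed (n : ℕ) (f f' N N' : ℕ → ℚ) : Prop :=
  ∃ a j a' j' : ℕ, IsPair n a j a' j' ∧ a ≤ n ∧ ∀ k ∈ Icc 1 n,
    f k = Int.fract ((k * a : ℚ) / (n + 1)) ∧ f' k = Int.fract ((k * a' : ℚ) / (n + 1)) ∧
      N k = unit j k ∧ N' k = unit j' k

section comb

variable {n : ℕ} {f f' N N' : ℕ → ℚ}

theorem cond_symm (h : (Ty.A n).Cond f f' N N') : (Ty.A n).Cond f' f N' N := by
  obtain ⟨a, a', ha, ha', h⟩ := h
  refine ⟨a', a, ha', ha, fun k hk => ⟨(h k hk).2.1, (h k hk).1, ?_⟩⟩
  have h1 := (h k hk).2.2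
  linarith

theorem cond_of_listed (hn : 1 ≤ n) (h : Listed n f f' N N') : (Ty.A n).Cond f f' N N' := by
  obtain ⟨a, j, a', j', hp, ha, h⟩ := h
  have ha' : a' ≤ n := by
    unfold IsPair at hp
    omega
  refine ⟨a, a', ha, ha', fun k hk => ⟨(h k hk).1, (h k hk).2.1, ?_⟩⟩
  have hk' := mem_Icc.1 hk
  have h1 := of_pair hn ha hp k hk'.1 hk'.2
  rw [(h k hk).2.2.1, (h k hk).2.2.2]
  unfold unit
  unfold sd fl at h1
  have h2 : (((if k = j then 1 else 0 : ℤ) : ℚ) - ((if k = j' then 1 else 0 : ℤ) : ℚ)) =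
      (if k = j then 1 else 0) - (if k = j' then 1 else 0) := by
    split_ifs <;> norm_num
  rw [← h2, ← Int.cast_sub, ← h1]
  generalize (k + 1) * a / (n + 1) = x1
  generalize k * a / (n + 1) = x2
  generalize (k - 1) * a / (n + 1) = x3
  generalize (k + 1) * a' / (n + 1) = x4
  generalize k * a' / (n + 1) = x5
  generalize (k - 1) * a' / (n + 1) = x6
  push_cast
  ring

theorem cond_A_single (hn : 1 ≤ n) (hf : Adm (.A n) f) (hf' : Adm (.A n) f')
    (hN : ∃ j ∈ Icc 1 (n + 1), ∀ k ∈ Icc 1 n, N k = unit j k)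
    (hN' : ∃ j ∈ Icc 1 (n + 1), ∀ k ∈ Icc 1 n, N' k = unit j k) :
    (Ty.A n).Cond f f' N N' ↔ (∀ k ∈ Icc 1 n, f k = f' k ∧ N k = N' k) ∨
      Listed n f f' N N' ∨ Listed n f' f N' N := by
  constructor
  · rintro ⟨a, a', ha, ha', h⟩
    obtain ⟨j, hj, h1⟩ := hN
    obtain ⟨j', hj', h1'⟩ := hN'
    rw [mem_Icc] at hj hj'
    have h2 : ∀ k, 1 ≤ k → k ≤ n → sd n a a' (k + 1) - 2 * sd n a a' k + sd n a a' (k - 1) =
        (if k = j then 1 else 0) - (if k = j' then 1 else 0) := by
      intro k hk1 hk2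
      have hk := mem_Icc.2 ⟨hk1, hk2⟩
      have h3 := (h k hk).2.2
      rw [h1 k hk, h1' k hk] at h3
      unfold unit at h3
      unfold sd fl
      have h4 : (((if k = j then 1 else 0 : ℤ) : ℚ) - ((if k = j' then 1 else 0 : ℤ) : ℚ)) =
          (if k = j then 1 else 0) - (if k = j' then 1 else 0) := by
        split_ifs <;> norm_num
      rw [← h4] at h3
      have h5 : ((((((k + 1) * a / (n + 1) : ℕ) : ℤ) - (((k + 1) * a' / (n + 1) : ℕ) : ℤ)) -
          2 * (((k * a / (n + 1) : ℕ) : ℤ) - ((k * a' / (n + 1) : ℕ) : ℤ)) +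
          ((((k - 1) * a / (n + 1) : ℕ) : ℤ) - (((k - 1) * a' / (n + 1) : ℕ) : ℤ)) : ℤ) : ℚ) =
          (((if k = j then 1 else 0) - (if k = j' then 1 else 0) : ℤ) : ℚ) := by
        rw [Int.cast_sub (if k = j then 1 else 0), h3]
        generalize (k + 1) * a / (n + 1) = x1
        generalize k * a / (n + 1) = x2
        generalize (k - 1) * a / (n + 1) = x3
        generalize (k + 1) * a' / (n + 1) = x4
        generalize k * a' / (n + 1) = x5
        generalize (k - 1) * a' / (n + 1) = x6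
        push_cast
        ring
      exact_mod_cast h5
    have hs := sd_formula ha ha' hj.1 hj'.1 h2
    rcases lt_trichotomy j j' with hlt | heq | hgt
    · right; left
      exact ⟨a, j, a', j', pair_of hn ha hj.1 hlt hj'.2 hs, ha, fun k hk =>
        ⟨(h k hk).1, (h k hk).2.1, h1 k hk, h1' k hk⟩⟩
    · left
      subst heq
      have htop := hs (n + 1) le_rfl
      unfold sd at htop
      rw [fl_top, fl_top] at htop
      obtain rfl : a = a' := by omega
      intro k hk
      exact ⟨by rw [(h k hk).1, (h k hk).2.1], by rw [h1 k hk, h1' k hk]⟩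
    · right; right
      have hs' : ∀ k ≤ n + 1, sd n a' a k = ((k - j' : ℕ) : ℤ) - ((k - j : ℕ) : ℤ) := by
        intro k hk
        have h3 := hs k hk
        unfold sd at h3 ⊢
        omega
      exact ⟨a', j', a, j, pair_of hn ha' hj'.1 hgt hj.2 hs', ha', fun k hk =>
        ⟨(h k hk).2.1, (h k hk).1, h1' k hk, h1 k hk⟩⟩
  · rintro (h | h | h)
    · exact (cond_A hn hf hf').1 (eqs_of_triv h)
    · exact cond_of_listed hn h
    · exact cond_symm (cond_of_listed hn h)

end comb

section datum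

variable {Γ V D : Type} [Group Γ] [Fintype Γ] [AddCommGroup V] [Module ℚ V]
  [DistribMulAction Γ V] [Fintype D] [DecidableEq D] [MulAction Γ D]

variable {R : Datum Γ V D} {n : ℕ} {I : Type} [Fintype I] {φ : ℕ → I → D}

theorem cnt_single (h : IsFactor R (.A n) φ) [Subsingleton I] (mu : V) {k : ℕ}
    (hk : k ∈ Icc 1 n) (i : I) : cnt R mu (φ k i) = R.root (φ k i) mu := by
  have h1 : orb Γ (φ k i) = {φ k i} := by
    ext d
    rw [h.orbit k hk i d, mem_singleton]
    constructor
    · rintro ⟨l, -, j, hs, rfl⟩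
      obtain rfl : k = l := hs
      rw [Subsingleton.elim j i]
    · rintro rfl
      exact ⟨k, hk, i, rfl, rfl⟩
  unfold cnt
  rw [h1, sum_singleton]

theorem chain_root (h : IsFactor R (.A n) φ) (i : I) {k : ℕ} (hk : 1 ≤ k) (m : ℕ) :
    k + m ≤ n → IsRoot R (∑ r ∈ Icc k (k + m), R.root (φ r i)) := by
  induction m with
  | zero =>
    intro _
    rw [Nat.add_zero, Icc_self, sum_singleton]
    exact IsRoot.simple _
  | succ m ih =>
    intro hm
    have h1 := ih (by omega)
    have h2 : ∑ r ∈ Icc k (k + (m + 1)), R.root (φ r i) =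
        ∑ r ∈ Icc k (k + m), R.root (φ r i) + R.root (φ (k + (m + 1)) i) := by
      rw [← Nat.add_assoc, Finset.sum_Icc_succ_top (by omega)]
    rw [h2]
    refine h1.add ?_
    rw [LinearMap.sum_apply, Finset.sum_eq_single (k + m)]
    · rw [h.cartan (k + m) (mem_Icc.2 ⟨by omega, by simp only [Ty.rank]; omega⟩) (k + (m + 1))
        (mem_Icc.2 ⟨by omega, by simp only [Ty.rank]; omega⟩) i]
      simp only [Ty.cartan, chainC]
      rw [if_neg (by omega), if_pos (by omega)]
      norm_num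
    · intro r hr hne
      have hr' := mem_Icc.1 hr
      rw [h.cartan r (mem_Icc.2 ⟨by omega, by simp only [Ty.rank]; omega⟩) (k + (m + 1))
        (mem_Icc.2 ⟨by omega, by simp only [Ty.rank]; omega⟩) i]
      simp only [Ty.cartan, chainC]
      rw [if_neg (by omega), if_neg (by omega)]
      norm_num
    · intro h3
      exact absurd (mem_Icc.2 ⟨by omega, le_rfl⟩) h3

theorem not_two (h : IsFactor R (.A n) φ) {mu : V} (hmu : IsMinuscule R mu) (i : I) {k l : ℕ}
    (hk : 1 ≤ k) (hkl : k < l) (hl : l ≤ n) (h1 : R.root (φ k i) mu = 1)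
    (h2 : R.root (φ l i) mu = 1) : False := by
  obtain ⟨m, rfl⟩ : ∃ m, l = k + m := ⟨l - k, by omega⟩
  have h3 := hmu.le_one _ (chain_root h i hk m hl)
  rw [LinearMap.sum_apply] at h3
  have h4 : R.root (φ k i) mu + R.root (φ (k + m) i) mu ≤
      ∑ r ∈ Icc k (k + m), R.root (φ r i) mu := by
    have h5 : ∑ r ∈ ({k, k + m} : Finset ℕ), R.root (φ r i) mu ≤
        ∑ r ∈ Icc k (k + m), R.root (φ r i) mu := by
      refine Finset.sum_le_sum_of_subset_of_nonneg ?_ fun r _ _ => hmu.dominant _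
      intro r hr
      rw [mem_insert, mem_singleton] at hr
      rw [mem_Icc]
      omega
    rw [Finset.sum_pair (by omega)] at h5
    exact h5
  have h6 := le_abs_self (∑ r ∈ Icc k (k + m), R.root (φ r i) mu)
  rw [h1, h2] at h4
  linarith

/-- A minuscule cocharacter is a fundamental coweight or zero on a component of type `A_n`. -/
theorem A_single (h : IsFactor R (.A n) φ) [Subsingleton I] {mu : V} (hmu : IsMinuscule R mu)
    (i : I) : ∃ j ∈ Icc 1 (n + 1), ∀ k ∈ Icc 1 n, cnt R mu (φ k i) = unit j k := by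
  by_cases hex : ∃ j ∈ Icc 1 n, R.root (φ j i) mu = 1
  · obtain ⟨j, hj, h1⟩ := hex
    have hj' := mem_Icc.1 hj
    refine ⟨j, mem_Icc.2 ⟨hj'.1, by omega⟩, fun k hk => ?_⟩
    have hk' := mem_Icc.1 hk
    rw [cnt_single h mu hk i]
    unfold unit
    split_ifs with heq
    · rw [heq, h1]
    · rcases val hmu (φ k i) with h2 | h2
      · exact h2
      · exfalso
        rcases Nat.lt_or_ge k j with h3 | h3
        · exact not_two h hmu i hk'.1 h3 hj'.2 h2 h1
        · exact not_two h hmu i hj'.1 (by omega) hk'.2 h1 h2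
  · refine ⟨n + 1, mem_Icc.2 ⟨by omega, le_rfl⟩, fun k hk => ?_⟩
    have hk' := mem_Icc.1 hk
    rw [cnt_single h mu hk i]
    unfold unit
    rw [if_neg (by omega)]
    rcases val hmu (φ k i) with h2 | h2
    · exact h2
    · exact absurd ⟨k, hk, h2⟩ hex

/-- **The list for type `A_n` with one component.** -/
theorem factor_A_single (h : IsFactor R (.A n) φ) [Subsingleton I] (c c' : D → ℚ)
    (hc : ∀ a, ∃ z : ℤ, R.root a (R.comb c) = z) (hc' : ∀ a, ∃ z : ℤ, R.root a (R.comb c') = z)
    {mu mu' : V} (hmu : IsMinuscule R mu) (hmu' : IsMinuscule R mu') (i : I) :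
    (Ty.A n).Cond (fun k => frac Γ c (φ k i)) (fun k => frac Γ c' (φ k i))
      (fun k => cnt R mu (φ k i)) (fun k => cnt R mu' (φ k i)) ↔
    (∀ k ∈ Icc 1 n, frac Γ c (φ k i) = frac Γ c' (φ k i) ∧
      cnt R mu (φ k i) = cnt R mu' (φ k i)) ∨
    Listed n (fun k => frac Γ c (φ k i)) (fun k => frac Γ c' (φ k i))
      (fun k => cnt R mu (φ k i)) (fun k => cnt R mu' (φ k i)) ∨
    Listed n (fun k => frac Γ c' (φ k i)) (fun k => frac Γ c (φ k i))
      (fun k => cnt R mu' (φ k i)) (fun k => cnt R mu (φ k i)) :=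
  cond_A_single h.valid (adm_frac h c hc i) (adm_frac h c' hc' i) (A_single h hmu i)
    (A_single h hmu' i)

end datum

end Pool.Agent.TH128.KC
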