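import Pool.Agent.TH128.KC.Rows

set_option autoImplicit false
set_option linter.unusedSectionVars false

/-!
# The types B, C, D
-/

namespace Pool.Agent.TH128.KC

open Finset Pool.Agent.KottwitzG

theorem zero_of_ZZ {p : ℚ} (hp : 0 ≤ p) (hp1 : p < 1) (h : p ∈ ZZ) : p = 0 :=
  eq_of_ZZ hp hp1 le_rfl one_pos (by rwa [sub_zero])

section B

variable {m : ℕ} {f f' : ℕ → ℚ}

theorem B_vals (hf : Adm (.B (m + 2)) f) : (∀ k, 1 ≤ k → k < m + 2 → f k = 0) := by
  set F := hat (m + 2) f with hF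
  have hF0 : F 0 = 0 := hat_zero _ _
  have hFk : ∀ k, 1 ≤ k → k ≤ m + 2 → F k = f k := fun k h1 h2 => hat_of _ _ h1 h2
  have hrow := hf.row
  have hc := chain (F := F) (m := m + 1) hF0 (fun k h1 h2 => by
    have h3 := hrow k (mem_Icc.2 ⟨h1, by simp only [Ty.rank]; omega⟩)
    rw [row_B (m + 2) k (mem_Icc.2 ⟨h1, by omega⟩), if_neg (by omega), sub_zero,
      ← hFk k h1 (by omega)] at h3
    exact h3)
  have h1 := hrow (m + 1) (mem_Icc.2 ⟨by omega, by simp only [Ty.rank]; omega⟩)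
  rw [row_B (m + 2) (m + 1) (mem_Icc.2 ⟨by omega, by omega⟩), if_pos (by omega),
    ← hFk (m + 1) (by omega) (by omega), ← hFk (m + 2) (by omega) (by omega)] at h1
  have h2 := hrow (m + 2) (mem_Icc.2 ⟨by omega, by simp only [Ty.rank]; omega⟩)
  rw [row_B (m + 2) (m + 2) (mem_Icc.2 ⟨by omega, by omega⟩), if_neg (by omega), sub_zero,
    hat_big (m + 2) f (l := m + 2 + 1) (by omega), sub_zero,
    ← hFk (m + 2) (by omega) (by omega)] at h2
  have h3 := hc (m + 1) le_rfl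
  have h4 := hc m (by omega)
  have e1 : m + 1 - 1 = m := by omega
  have e2 : m + 2 - 1 = m + 1 := by omega
  rw [e1] at h1
  rw [e2] at h2
  have h5 : F 1 ∈ ZZ := by
    have e : F 1 = (2 * F (m + 1) - hat (m + 2) f (m + 1 + 1) - hat (m + 2) f m - F (m + 2)) +
        (2 * F (m + 2) - hat (m + 2) f (m + 1)) - (F (m + 1) - ((m + 1 : ℕ) : ℚ) * F 1) +
        (F m - (m : ℚ) * F 1) := by
      rw [← hF]
      push_cast
      ring
    rw [e]
    exact ZZ.add_mem (ZZ.sub_mem (ZZ.add_mem h1 h2) h3) h4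
  intro k hk1 hk2
  have h6 := hc k (by omega)
  have h7 : F k ∈ ZZ := by
    have e : F k = (F k - (k : ℚ) * F 1) + ((k : ℤ) : ℚ) * F 1 := by
      push_cast
      ring
    rw [e]
    exact ZZ.add_mem h6 (mul_mem_ZZ (int_mem_ZZ _) h5)
  rw [hFk k hk1 (by omega)] at h7
  exact zero_of_ZZ (hf.nonneg k (mem_Icc.2 ⟨hk1, by simp only [Ty.rank]; omega⟩))
    (hf.lt_one k (mem_Icc.2 ⟨hk1, by simp only [Ty.rank]; omega⟩)) h7

theorem eq_B (hf : Adm (.B (m + 2)) f) (hf' : Adm (.B (m + 2)) f')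
    (hδ : (Ty.B (m + 2)).row (m + 2) f = (Ty.B (m + 2)).row (m + 2) f') :
    ∀ k ∈ Icc 1 (m + 2), f k = f' k := by
  have h1 := B_vals hf
  have h2 := B_vals hf'
  intro k hk
  rw [mem_Icc] at hk
  by_cases hk2 : k < m + 2
  · rw [h1 k hk.1 hk2, h2 k hk.1 hk2]
  · obtain rfl : k = m + 2 := by omega
    rw [row_B (m + 2) (m + 2) (mem_Icc.2 ⟨by omega, by omega⟩),
      row_B (m + 2) (m + 2) (mem_Icc.2 ⟨by omega, by omega⟩), if_neg (by omega), if_neg (by omega),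
      hat_big (m + 2) f (l := m + 2 + 1) (by omega), hat_big (m + 2) f' (l := m + 2 + 1) (by omega),
      hat_of (m + 2) f (l := m + 2 - 1) (by omega) (by omega),
      hat_of (m + 2) f' (l := m + 2 - 1) (by omega) (by omega),
      h1 (m + 2 - 1) (by omega) (by omega), h2 (m + 2 - 1) (by omega) (by omega)] at hδ
    linarith

end B

/-- A chain of fractional parts whose first value is `0` or `1/2`, of length `m`, such that the
difference has a zero row at `j`: it is zero. -/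
theorem eq_half {F F' : ℕ → ℚ} {m : ℕ} (hF : ∀ k, k ≤ m → F k = Int.fract ((k : ℚ) * F 1))
    (hF' : ∀ k, k ≤ m → F' k = Int.fract ((k : ℚ) * F' 1)) (h1 : F 1 = 0 ∨ F 1 = 1 / 2)
    (h1' : F' 1 = 0 ∨ F' 1 = 1 / 2) (j : ℕ) (hj2 : j + 2 ≤ m)
    (hrow : 2 * F (j + 1) - F (j + 2) - F j = 2 * F' (j + 1) - F' (j + 2) - F' j) :
    ∀ k, k ≤ m → F k = F' k := by
  have key : F 1 = F' 1 := by
    have v : ∀ G : ℕ → ℚ, (∀ k, k ≤ m → G k = Int.fract ((k : ℚ) * G 1)) → (G 1 = 0 →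
        2 * G (j + 1) - G (j + 2) - G j = 0) ∧ (G 1 = 1 / 2 →
        2 * G (j + 1) - G (j + 2) - G j = 1 - 4 * Int.fract ((j : ℚ) / 2)) := by
      intro G hG
      constructor
      · intro h
        rw [hG (j + 1) (by omega), hG (j + 2) (by omega), hG j (by omega), h]
        simp
      · intro h
        have e : ∀ k, k ≤ m → G k = Int.fract ((k : ℚ) / 2) := by
          intro k hk
          rw [hG k hk, h]
          congr 1
          ring
        rw [e (j + 1) (by omega), e (j + 2) (by omega), e j (by omega),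
          show j + 2 = (j + 1) + 1 from rfl, fract_half_succ (j + 1), fract_half_succ j]
        ring
    obtain ⟨a1, a2⟩ := v F hF
    obtain ⟨b1, b2⟩ := v F' hF'
    have hne : (1 : ℚ) - 4 * Int.fract ((j : ℚ) / 2) ≠ 0 := by
      rw [fract_half]
      split_ifs <;> norm_num
    rcases h1 with h1 | h1 <;> rcases h1' with h1' | h1'
    · rw [h1, h1']
    · exfalso
      rw [a1 h1, b2 h1'] at hrow
      exact hne hrow.symm
    · exfalso
      rw [a2 h1, b1 h1'] at hrow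
      exact hne hrow
    · rw [h1, h1']
  intro k hk
  rw [hF k hk, hF' k hk, key]

section C

variable {m : ℕ} {f f' : ℕ → ℚ}

theorem C_vals (hf : Adm (.C (m + 2)) f) : (∀ k, k ≤ m + 2 → hat (m + 2) f k =
    Int.fract ((k : ℚ) * hat (m + 2) f 1)) ∧ (hat (m + 2) f 1 = 0 ∨ hat (m + 2) f 1 = 1 / 2) := by
  set F := hat (m + 2) f with hF
  have hF0 : F 0 = 0 := hat_zero _ _
  have hFk : ∀ k, 1 ≤ k → k ≤ m + 2 → F k = f k := fun k h1 h2 => hat_of _ _ h1 h2
  have hrow := hf.row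
  have hc := chain (F := F) (m := m + 2) hF0 (fun k h1 h2 => by
    have h3 := hrow k (mem_Icc.2 ⟨h1, by simp only [Ty.rank]; omega⟩)
    rw [row_C (m + 2) k (by omega) (mem_Icc.2 ⟨h1, by omega⟩), if_neg (by omega), sub_zero,
      ← hFk k h1 (by omega)] at h3
    exact h3)
  have h2 := hrow (m + 2) (mem_Icc.2 ⟨by omega, by simp only [Ty.rank]; omega⟩)
  rw [row_C (m + 2) (m + 2) (by omega) (mem_Icc.2 ⟨by omega, by omega⟩), if_pos rfl,
    hat_big (m + 2) f (l := m + 2 + 1) (by omega), sub_zero,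
    ← hFk (m + 2) (by omega) (by omega), ← hFk (m + 2 - 1) (by omega) (by omega)] at h2
  have e2 : m + 2 - 1 = m + 1 := by omega
  rw [e2] at h2
  have h3 := hc (m + 1) (by omega)
  have h4 := hc (m + 2) le_rfl
  have hnn : ∀ k, k ≤ m + 2 → 0 ≤ F k ∧ F k < 1 := by
    intro k hk
    rcases Nat.eq_zero_or_pos k with rfl | hk0
    · rw [hF0]
      norm_num
    · rw [hFk k hk0 hk]
      exact ⟨hf.nonneg k (mem_Icc.2 ⟨hk0, hk⟩), hf.lt_one k (mem_Icc.2 ⟨hk0, hk⟩)⟩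
  refine ⟨fun k hk => fract_of (hnn k hk).1 (hnn k hk).2 (hc k hk), ?_⟩
  refine half_of (hnn 1 (by omega)).1 (hnn 1 (by omega)).2 ?_
  have e : 2 * F 1 = (2 * F (m + 2) - hat (m + 2) f (m + 1) - F (m + 1)) -
      (F (m + 2) - ((m + 2 : ℕ) : ℚ) * F 1) - (F (m + 2) - ((m + 2 : ℕ) : ℚ) * F 1) +
      (F (m + 1) - ((m + 1 : ℕ) : ℚ) * F 1) + (F (m + 1) - ((m + 1 : ℕ) : ℚ) * F 1) := by
    rw [← hF]
    push_cast
    ring
  rw [e]
  exact ZZ.add_mem (ZZ.add_mem (ZZ.sub_mem (ZZ.sub_mem h2 h4) h4) h3) h3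

theorem eq_C (hf : Adm (.C (m + 2)) f) (hf' : Adm (.C (m + 2)) f')
    (hδ : (Ty.C (m + 2)).row (m + 1) f = (Ty.C (m + 2)).row (m + 1) f') :
    ∀ k ∈ Icc 1 (m + 2), f k = f' k := by
  obtain ⟨h1, h2⟩ := C_vals hf
  obtain ⟨h1', h2'⟩ := C_vals hf'
  have key := eq_half h1 h1' h2 h2' m le_rfl (by
    rw [row_C (m + 2) (m + 1) (by omega) (mem_Icc.2 ⟨by omega, by omega⟩),
      row_C (m + 2) (m + 1) (by omega) (mem_Icc.2 ⟨by omega, by omega⟩), if_neg (by omega),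
      if_neg (by omega), sub_zero, sub_zero, ← hat_of (m + 2) f (l := m + 1) (by omega) (by omega),
      ← hat_of (m + 2) f' (l := m + 1) (by omega) (by omega)] at hδ
    have e1 : m + 1 - 1 = m := by omega
    rw [e1] at hδ
    exact hδ)
  intro k hk
  rw [mem_Icc] at hk
  rw [← hat_of (m + 2) f hk.1 hk.2, ← hat_of (m + 2) f' hk.1 hk.2]
  exact key k hk.2

end C

section D

variable {m : ℕ} {f f' : ℕ → ℚ}

theorem D_vals (hf : Adm (.D (m + 4)) f) : (∀ k, k ≤ m + 2 → hat (m + 4) f k =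
    Int.fract ((k : ℚ) * hat (m + 4) f 1)) ∧ (hat (m + 4) f 1 = 0 ∨ hat (m + 4) f 1 = 1 / 2) := by
  set F := hat (m + 4) f with hF
  have hF0 : F 0 = 0 := hat_zero _ _
  have hFk : ∀ k, 1 ≤ k → k ≤ m + 4 → F k = f k := fun k h1 h2 => hat_of _ _ h1 h2
  have hrow := hf.row
  have hc := chain (F := F) (m := m + 2) hF0 (fun k h1 h2 => by
    have h3 := hrow k (mem_Icc.2 ⟨h1, by simp only [Ty.rank]; omega⟩)
    rw [row_D m k (mem_Icc.2 ⟨h1, by omega⟩), if_pos (by omega),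
      ← hFk k h1 (by omega), ← hFk (k + 1) (by omega) (by omega)] at h3
    exact h3)
  have r2 := hrow (m + 2) (mem_Icc.2 ⟨by omega, by simp only [Ty.rank]; omega⟩)
  rw [row_D m (m + 2) (mem_Icc.2 ⟨by omega, by omega⟩), if_neg (by omega), if_pos rfl] at r2
  have r3 := hrow (m + 3) (mem_Icc.2 ⟨by omega, by simp only [Ty.rank]; omega⟩)
  rw [row_D m (m + 3) (mem_Icc.2 ⟨by omega, by omega⟩), if_neg (by omega), if_neg (by omega)] at r3
  have r4 := hrow (m + 4) (mem_Icc.2 ⟨by omega, by simp only [Ty.rank]; omega⟩)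
  rw [row_D m (m + 4) (mem_Icc.2 ⟨by omega, by omega⟩), if_neg (by omega), if_neg (by omega)] at r4
  have h3 := hc (m + 1) (by omega)
  have h4 := hc (m + 2) le_rfl
  have hnn : ∀ k, k ≤ m + 2 → 0 ≤ F k ∧ F k < 1 := by
    intro k hk
    rcases Nat.eq_zero_or_pos k with rfl | hk0
    · rw [hF0]
      norm_num
    · rw [hFk k hk0 (by omega)]
      have hk' : k ∈ Icc 1 (m + 4) := mem_Icc.2 ⟨hk0, by omega⟩
      exact ⟨hf.nonneg k hk', hf.lt_one k hk'⟩
  refine ⟨fun k hk => fract_of (hnn k hk).1 (hnn k hk).2 (hc k hk), ?_⟩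
  refine half_of (hnn 1 (by omega)).1 (hnn 1 (by omega)).2 ?_
  have e : 2 * F 1 = (2 * f (m + 2) - hat (m + 4) f (m + 1) - f (m + 3) - f (m + 4)) +
      (2 * f (m + 2) - hat (m + 4) f (m + 1) - f (m + 3) - f (m + 4)) +
      (2 * f (m + 3) - f (m + 2)) + (2 * f (m + 4) - f (m + 2)) -
      (F (m + 2) - ((m + 2 : ℕ) : ℚ) * F 1) - (F (m + 2) - ((m + 2 : ℕ) : ℚ) * F 1) +
      (F (m + 1) - ((m + 1 : ℕ) : ℚ) * F 1) + (F (m + 1) - ((m + 1 : ℕ) : ℚ) * F 1) := by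
    rw [← hF, ← hFk (m + 2) (by omega) (by omega)]
    push_cast
    ring
  rw [e]
  exact ZZ.add_mem (ZZ.add_mem (ZZ.sub_mem (ZZ.sub_mem (ZZ.add_mem (ZZ.add_mem
    (ZZ.add_mem r2 r2) r3) r4) h4) h4) h3) h3

end D

end Pool.Agent.TH128.KC
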