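import Pool.Agent.KottwitzG.Zero

set_option autoImplicit false

/-!
# Kottwitz sets of minuscule cocharacters: Dynkin types and the list of solutions
-/

namespace Pool.Agent.TH128.KC

open Finset Pool.Agent.KottwitzG

section datum

variable {Γ V D : Type} [Group Γ] [Fintype Γ] [AddCommGroup V] [Module ℚ V]
  [DistribMulAction Γ V] [Fintype D] [DecidableEq D] [MulAction Γ D]

/-- The roots: they are obtained from the simple roots by simple reflections. -/
inductive IsRoot (R : Datum Γ V D) : (V →ₗ[ℚ] ℚ) → Prop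
  | simple (a : D) : IsRoot R (R.root a)
  | reflect (β : V →ₗ[ℚ] ℚ) (a : D) (h : IsRoot R β) :
      IsRoot R (β - β (R.coroot a) • R.root a)

/-- `mu` is a dominant minuscule cocharacter. -/
structure IsMinuscule (R : Datum Γ V D) (mu : V) : Prop where
  mem : mu ∈ R.Y
  dominant : ∀ a, 0 ≤ R.root a mu
  le_one : ∀ β, IsRoot R β → |β mu| ≤ 1

/-- The fractional part of `- ∑ c`, the sum over the orbit of `a`. -/
def frac (Γ : Type) {D : Type} [Group Γ] [Fintype Γ] [DecidableEq D] [MulAction Γ D]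
    (c : D → ℚ) (a : D) : ℚ := Int.fract (-∑ b ∈ orb Γ a, c b)

/-- The number of simple roots in the orbit of `a` on which the minuscule dominant `mu` does not
vanish. -/
def cnt (R : Datum Γ V D) (mu : V) (a : D) : ℚ := ∑ b ∈ orb Γ a, R.root b mu

end datum

/-- The types of connected Dynkin diagrams with a group of automorphisms, up to the choice of a
group with the same orbits. The rank is `n`. -/
inductive Ty
  | A (n : ℕ) | outerA (n : ℕ) | B (n : ℕ) | C (n : ℕ) | D (n : ℕ) | outerD (n : ℕ)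
  | triality | E6 | outerE6 | E7 | E8 | F4 | G2

/-- The restrictions on the rank. -/
def Ty.IsValid : Ty → Prop
  | .A n => 1 ≤ n
  | .outerA n => 2 ≤ n
  | .B n => 2 ≤ n
  | .C n => 2 ≤ n
  | .D n => 4 ≤ n
  | .outerD n => 4 ≤ n
  | _ => True

/-- The rank. The nodes are `1, …, rank`, numbered as in Bourbaki. -/
def Ty.rank : Ty → ℕ
  | .A n => n
  | .outerA n => n
  | .B n => n
  | .C n => n
  | .D n => n
  | .outerD n => n
  | .triality => 4
  | .E6 => 6
  | .outerE6 => 6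
  | .E7 => 7
  | .E8 => 8
  | .F4 => 4
  | .G2 => 2

/-- The Cartan integers of a chain. -/
def chainC (k l : ℕ) : ℤ := if k = l then 2 else if k + 1 = l ∨ l + 1 = k then -1 else 0

/-- The Cartan integers of type `D`. -/
def typeD (n k l : ℕ) : ℤ :=
  if (k + 1 = n ∧ l = n) ∨ (k = n ∧ l + 1 = n) then 0
  else if (k + 2 = n ∧ l = n) ∨ (k = n ∧ l + 2 = n) then -1 else chainC k l

/-- The Cartan integers of type `E`: the edges are `1-3`, `2-4`, `3-4`, `4-5`, `5-6`, `6-7`, `7-8`. -/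
def typeE (k l : ℕ) : ℤ :=
  if k = l then 2
  else if (k, l) ∈ [(1, 3), (3, 1), (2, 4), (4, 2), (3, 4), (4, 3), (4, 5), (5, 4), (5, 6), (6, 5),
    (6, 7), (7, 6), (7, 8), (8, 7)] then -1 else 0

/-- The Cartan integer `⟨α_k, α_l^∨⟩`. -/
def Ty.cartan : Ty → ℕ → ℕ → ℤ
  | .A _, k, l => chainC k l
  | .outerA _, k, l => chainC k l
  | .B n, k, l => if k + 1 = n ∧ l = n then -2 else chainC k l
  | .C n, k, l => if k = n ∧ l + 1 = n then -2 else chainC k l
  | .D n, k, l => typeD n k l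
  | .outerD n, k, l => typeD n k l
  | .triality, k, l => typeD 4 k l
  | .E6, k, l => typeE k l
  | .outerE6, k, l => typeE k l
  | .E7, k, l => typeE k l
  | .E8, k, l => typeE k l
  | .F4, k, l => if k = 2 ∧ l = 3 then -2 else chainC k l
  | .G2, k, l => if k = 2 ∧ l = 1 then -3 else chainC k l

/-- `k` and `l` are in the same orbit. -/
def Ty.Same : Ty → ℕ → ℕ → Prop
  | .outerA n, k, l => k = l ∨ k + l = n + 1
  | .outerD n, k, l => k = l ∨ (n ≤ k + 1 ∧ n ≤ l + 1)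
  | .triality, k, l => k = l ∨ (k ≠ 2 ∧ l ≠ 2)
  | .outerE6, k, l => k = l ∨ (k, l) ∈ [(1, 6), (6, 1), (3, 5), (5, 3)]
  | _, k, l => k = l

instance (T : Ty) (k l : ℕ) : Decidable (T.Same k l) := by
  cases T <;> unfold Ty.Same <;> infer_instance

section factor

variable {Γ V D : Type} [Group Γ] [Fintype Γ] [AddCommGroup V] [Module ℚ V]
  [DistribMulAction Γ V] [Fintype D] [DecidableEq D] [MulAction Γ D]

/-- A simple factor `Res_{F/ℚ_p} H` of the adjoint group: the components of its Dynkin diagram are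
indexed by `I` (the embeddings of `F`), all of them have the type `T`, the simple root with number
`k` of the component `i` is `φ k i`, and the orbits are as prescribed by `T`. -/
structure IsFactor (R : Datum Γ V D) (T : Ty) {I : Type} [Fintype I] (φ : ℕ → I → D) :
    Prop where
  valid : T.IsValid
  nonempty : Nonempty I
  inj : ∀ k ∈ Icc 1 T.rank, ∀ l ∈ Icc 1 T.rank, ∀ i j, φ k i = φ l j → k = l ∧ i = j
  cartan : ∀ k ∈ Icc 1 T.rank, ∀ l ∈ Icc 1 T.rank, ∀ i,
    R.root (φ k i) (R.coroot (φ l i)) = T.cartan k l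
  disjoint : ∀ k ∈ Icc 1 T.rank, ∀ l ∈ Icc 1 T.rank, ∀ i j, i ≠ j →
    R.root (φ k i) (R.coroot (φ l j)) = 0
  apart : ∀ k ∈ Icc 1 T.rank, ∀ i, ∀ d : D, (∀ l ∈ Icc 1 T.rank, ∀ j, d ≠ φ l j) →
    R.root (φ k i) (R.coroot d) = 0
  orbit : ∀ k ∈ Icc 1 T.rank, ∀ i, ∀ d : D, d ∈ orb Γ (φ k i) ↔
    ∃ l ∈ Icc 1 T.rank, ∃ j, T.Same k l ∧ d = φ l j

end factor

/-- The unit vector. -/
def unit (j k : ℕ) : ℚ := if k = j then 1 else 0

/-- The solutions for one factor: `f`, `f'` are the functions `frac` for the two inner forms, and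
`N`, `N'` are the numbers of components on which the two cocharacters are the fundamental coweights
with number in the orbit of `k`. -/
def Ty.Cond (T : Ty) (f f' N N' : ℕ → ℚ) : Prop :=
  match T with
  | .A n => ∃ a a' : ℕ, a ≤ n ∧ a' ≤ n ∧ ∀ k ∈ Icc 1 n,
      f k = Int.fract ((k * a : ℚ) / (n + 1)) ∧ f' k = Int.fract ((k * a' : ℚ) / (n + 1)) ∧
      N k - N' k = (((k + 1) * a / (n + 1) : ℕ) - 2 * (k * a / (n + 1) : ℕ) +
        ((k - 1) * a / (n + 1) : ℕ) : ℚ) - (((k + 1) * a' / (n + 1) : ℕ) -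
        2 * (k * a' / (n + 1) : ℕ) + ((k - 1) * a' / (n + 1) : ℕ) : ℚ)
  | .outerA n => (∀ k ∈ Icc 1 n, f k = f' k ∧ N k = N' k) ∨
      ∃ m, n + 1 = 2 * m ∧
        ((∀ k ∈ Icc 1 n, f k = unit m k / 2 ∧ f' k = 0 ∧
          N k - N' k = unit m k - unit (m - 1) k - unit (m + 1) k) ∨
        (∀ k ∈ Icc 1 n, f k = 0 ∧ f' k = unit m k / 2 ∧
          N' k - N k = unit m k - unit (m - 1) k - unit (m + 1) k))
  | .D n => (∀ k ∈ Icc 1 n, f k = f' k ∧ N k = N' k) ∨
      (n = 4 ∧ ∃ j l, j ∈ [1, 3, 4] ∧ l ∈ [1, 3, 4] ∧ j ≠ l ∧ ∀ k ∈ Icc 1 n,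
        f k = (1 - unit 2 k - unit j k) / 2 ∧ f' k = (1 - unit 2 k - unit l k) / 2 ∧
          N k - N' k = unit l k - unit j k) ∨
      (5 ≤ n ∧ ∃ j l, ((j = n ∧ l = n - 1) ∨ (j = n - 1 ∧ l = n)) ∧
        (∀ k ∈ Icc 1 (n - 2), f k = Int.fract ((k : ℚ) / 2) ∧ f' k = Int.fract ((k : ℚ) / 2) ∧
          N k = N' k) ∧
        f l = 1 / 2 + Int.fract ((n : ℚ) / 2) / 2 ∧ f j = Int.fract ((n : ℚ) / 2) / 2 ∧
        f' j = 1 / 2 + Int.fract ((n : ℚ) / 2) / 2 ∧ f' l = Int.fract ((n : ℚ) / 2) / 2 ∧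
        N l - N' l = 1 ∧ N j - N' j = -1)
  | T => ∀ k ∈ Icc 1 T.rank, f k = f' k ∧ N k = N' k

end Pool.Agent.TH128.KC
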