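import Pool.Agent.TH128.KC.Defs

set_option autoImplicit false
set_option linter.unusedSectionVars false

/-!
# The criterion in terms of Cartan integers
-/

namespace Pool.Agent.TH128.KC

open Finset Pool.Agent.KottwitzG

variable {Γ V D : Type} [Group Γ] [Fintype Γ] [AddCommGroup V] [Module ℚ V]
  [DistribMulAction Γ V] [Fintype D] [DecidableEq D] [MulAction Γ D]

theorem root_comb (R : Datum Γ V D) (u : D → ℚ) (a : D) :
    R.root a (R.comb u) = ∑ d, R.root a (R.coroot d) * u d := by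
  unfold Datum.comb
  rw [map_sum]
  exact Finset.sum_congr rfl fun b _ => by rw [map_smul, smul_eq_mul, mul_comm]

theorem root_avg_eq (R : Datum Γ V D) (v : V) (a : D) :
    R.root a (avg Γ v) = (∑ b ∈ orb Γ a, R.root b v) / ((orb Γ a).card : ℚ) := by
  have h1 := fav_eq Γ (fun b => R.root b v) a
  unfold fav at h1
  rw [h1]
  unfold avg
  rw [map_smul, map_sum, smul_eq_mul]
  congr 1
  refine Fintype.sum_equiv (Equiv.inv Γ) _ _ fun g => ?_
  have h := R.root_smul g (g⁻¹ • a) v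
  rw [smul_inv_smul] at h
  rw [h]
  rfl

theorem card_mul_avg (R : Datum Γ V D) (v : V) (a : D) :
    ((orb Γ a).card : ℚ) * R.root a (avg Γ v) = ∑ b ∈ orb Γ a, R.root b v := by
  rw [root_avg_eq]
  field_simp [(orb_card_pos Γ a).ne']

theorem orb_eq_of_mem {a b : D} (h : b ∈ orb Γ a) : orb Γ b = orb Γ a := by
  unfold orb at h
  rw [mem_image] at h
  obtain ⟨g, -, rfl⟩ := h
  exact orb_smul Γ g a

theorem frac_eq_of_mem (c : D → ℚ) {a b : D} (h : b ∈ orb Γ a) : frac Γ c b = frac Γ c a := by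
  unfold frac
  rw [orb_eq_of_mem h]

theorem cnt_eq_of_mem (R : Datum Γ V D) (mu : V) {a b : D} (h : b ∈ orb Γ a) :
    cnt R mu b = cnt R mu a := by
  unfold cnt
  rw [orb_eq_of_mem h]

/-- **The criterion in terms of Cartan integers.** -/
theorem cartan_form (R : Datum Γ V D) (c e : D → ℚ) (y mu mu' : V)
    (he : ∀ a, R.root a y = R.root a (R.comb e)) (hmu : mu ∈ R.Y) (hmu' : mu' ∈ R.Y)
    (hd : ∀ a, 0 ≤ R.root a mu) (hd' : ∀ a, 0 ≤ R.root a mu') :
    R.shift y e '' R.Kott c mu = R.Kott (fun a => c a + e a) mu' ↔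
      (QuotientAddGroup.mk mu : V ⧸ R.N) = QuotientAddGroup.mk mu' + QuotientAddGroup.mk y ∧
        ∀ a, cnt R mu a - cnt R mu' a = ((orb Γ a).card : ℚ) * ∑ d, R.root a (R.coroot d) *
          ((frac Γ c d - frac Γ (fun a => c a + e a) d) / ((orb Γ d).card : ℚ)) := by
  obtain ⟨m, hm, -⟩ := adjoint_part R mu
  obtain ⟨m', hm', -⟩ := adjoint_part R mu'
  have hm := hm
  rw [frac_form R c e m m' y mu mu' he hm hm' hmu hmu' hd hd']
  refine and_congr_right fun _ => ?_
  set u : D → ℚ := fun d => (frac Γ c d - frac Γ (fun a => c a + e a) d) /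
    ((orb Γ d).card : ℚ) with hu
  have h1 : (∀ a, ∑ b ∈ orb Γ a, m b - Int.fract (-∑ b ∈ orb Γ a, c b) =
      ∑ b ∈ orb Γ a, m' b - Int.fract (-∑ b ∈ orb Γ a, (c b + e b))) ↔
      u = fav Γ (fun a => m a - m' a) := by
    rw [funext_iff]
    refine forall_congr' fun a => ?_
    have hc := orb_card_pos Γ a
    rw [hu]
    unfold fav frac
    simp only
    rw [div_left_inj' hc.ne', Finset.sum_sub_distrib]
    constructor <;> intro h <;> linarith
  have h2 : (u = fav Γ (fun a => m a - m' a)) ↔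
      ∀ a, R.root a (R.comb u) = R.root a (R.comb (fav Γ (fun a => m a - m' a))) := by
    constructor
    · intro h a
      rw [h]
    · intro h
      obtain ⟨w, -, hw⟩ := adjoint_part R (R.comb (fav Γ (fun a => m a - m' a)))
      rw [hw u fun a => (h a).symm, hw (fav Γ (fun a => m a - m' a)) fun a => rfl]
  rw [h1, h2]
  refine forall_congr' fun a => ?_
  have hc := orb_card_pos Γ a
  have h3 : ((orb Γ a).card : ℚ) * R.root a (R.comb (fav Γ (fun a => m a - m' a))) =
      cnt R mu a - cnt R mu' a := by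
    rw [← avg_comb, card_mul_avg]
    unfold cnt
    rw [← Finset.sum_sub_distrib]
    refine Finset.sum_congr rfl fun b _ => ?_
    rw [comb_sub, map_sub, ← hm b, ← hm' b]
  rw [← h3, ← root_comb]
  constructor
  · intro h
    rw [h]
  · intro h
    exact (mul_left_cancel₀ hc.ne' h).symm

/-- the subgroup of the integers in the rational numbers -/
def ZZ : AddSubgroup ℚ := (Int.castAddHom ℚ).range

theorem mem_ZZ {q : ℚ} : q ∈ ZZ ↔ ∃ z : ℤ, q = z := by
  unfold ZZ
  rw [AddMonoidHom.mem_range]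
  constructor
  · rintro ⟨z, rfl⟩
    exact ⟨z, rfl⟩
  · rintro ⟨z, rfl⟩
    exact ⟨z, rfl⟩

theorem int_mem_ZZ (z : ℤ) : (z : ℚ) ∈ ZZ := mem_ZZ.2 ⟨z, rfl⟩

theorem mul_mem_ZZ {p q : ℚ} (hp : p ∈ ZZ) (hq : q ∈ ZZ) : p * q ∈ ZZ := by
  obtain ⟨a, rfl⟩ := mem_ZZ.1 hp
  obtain ⟨b, rfl⟩ := mem_ZZ.1 hq
  exact mem_ZZ.2 ⟨a * b, by push_cast; ring⟩

theorem root_coroot_mem_ZZ (R : Datum Γ V D) (a b : D) : R.root a (R.coroot b) ∈ ZZ :=
  mem_ZZ.2 (R.root_int a _ (R.coroot_mem b))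

/-- Integrality of the Cartan sums for integral invariant functions. -/
theorem int_sum (R : Datum Γ V D) (z : D → ℚ) (hz : ∀ d, z d ∈ ZZ)
    (hi : ∀ a, ∀ b ∈ orb Γ a, z b = z a) (a : D) :
    ((orb Γ a).card : ℚ) * ∑ d, R.root a (R.coroot d) * (z d / ((orb Γ d).card : ℚ)) ∈ ZZ := by
  classical
  -- representatives of the orbits
  let rep : D → D := fun d => (Quotient.out (Quotient.mk (MulAction.orbitRel Γ D) d))
  have hrep : ∀ d, rep d ∈ orb Γ d := by
    intro d
    have h1 : (MulAction.orbitRel Γ D) (rep d) d := Quotient.exact (Quotient.out_eq _)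
    rw [MulAction.orbitRel_apply] at h1
    obtain ⟨g, hg⟩ := h1
    unfold orb
    exact mem_image.2 ⟨g, mem_univ _, hg⟩
  have hcst : ∀ a, ∀ b ∈ orb Γ a, rep b = rep a := by
    intro a b hb
    unfold orb at hb
    rw [mem_image] at hb
    obtain ⟨g, -, rfl⟩ := hb
    have h1 : (Quotient.mk (MulAction.orbitRel Γ D) (g • a)) =
        Quotient.mk (MulAction.orbitRel Γ D) a := Quotient.sound (by
      change (MulAction.orbitRel Γ D) (g • a) a
      rw [MulAction.orbitRel_apply]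
      exact ⟨g, rfl⟩)
    change Quotient.out _ = Quotient.out _
    rw [h1]
  let w : D → ℚ := fun d => if d = rep d then z d else 0
  have hw : ∀ d, fav Γ w d = z d / ((orb Γ d).card : ℚ) := by
    intro d
    unfold fav
    congr 1
    rw [Finset.sum_eq_single (rep d)]
    · change (if rep d = rep (rep d) then z (rep d) else 0) = _
      rw [if_pos (hcst d _ (hrep d)).symm, hi d _ (hrep d)]
    · intro b hb hne
      change (if b = rep b then z b else 0) = 0
      rw [if_neg]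
      rw [hcst d b hb]
      exact hne
    · intro h
      exact absurd (hrep d) h
  have h1 : ∑ d, R.root a (R.coroot d) * (z d / ((orb Γ d).card : ℚ)) =
      R.root a (avg Γ (R.comb w)) := by
    rw [avg_comb, root_comb]
    exact Finset.sum_congr rfl fun d _ => by rw [hw]
  rw [h1, card_mul_avg]
  refine AddSubgroup.sum_mem _ fun b _ => ?_
  rw [root_comb]
  refine AddSubgroup.sum_mem _ fun d _ => mul_mem_ZZ (root_coroot_mem_ZZ R b d) ?_
  change (if d = rep d then z d else 0) ∈ ZZ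
  split_ifs
  · exact hz d
  · exact ZZ.zero_mem

/-- Integrality of the Cartan sums for the fractional parts of an inner form. -/
theorem frac_sum (R : Datum Γ V D) (c : D → ℚ) (hc : ∀ a, R.root a (R.comb c) ∈ ZZ) (a : D) :
    ((orb Γ a).card : ℚ) * ∑ d, R.root a (R.coroot d) *
      (frac Γ c d / ((orb Γ d).card : ℚ)) ∈ ZZ := by
  have h1 : ∀ d, frac Γ c d / ((orb Γ d).card : ℚ) =
      -fav Γ c d - ((⌊-∑ b ∈ orb Γ d, c b⌋ : ℤ) : ℚ) / ((orb Γ d).card : ℚ) := by
    intro d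
    unfold frac fav
    rw [Int.fract]
    ring
  have h2 := int_sum R (fun d => ((⌊-∑ b ∈ orb Γ d, c b⌋ : ℤ) : ℚ)) (fun d => int_mem_ZZ _)
    (fun a b hb => by
      rw [orb_eq_of_mem hb]) a
  have h3 : ((orb Γ a).card : ℚ) * ∑ d, R.root a (R.coroot d) * fav Γ c d ∈ ZZ := by
    rw [← root_comb, ← avg_comb, card_mul_avg]
    exact AddSubgroup.sum_mem _ fun b _ => hc b
  have h4 : ((orb Γ a).card : ℚ) * ∑ d, R.root a (R.coroot d) *
      (frac Γ c d / ((orb Γ d).card : ℚ)) =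
      -(((orb Γ a).card : ℚ) * ∑ d, R.root a (R.coroot d) * fav Γ c d) -
      ((orb Γ a).card : ℚ) * ∑ d, R.root a (R.coroot d) *
        (((⌊-∑ b ∈ orb Γ d, c b⌋ : ℤ) : ℚ) / ((orb Γ d).card : ℚ)) := by
    rw [← mul_neg, ← mul_sub, ← Finset.sum_neg_distrib, ← Finset.sum_sub_distrib]
    congr 1
    refine Finset.sum_congr rfl fun d _ => ?_
    rw [h1]
    ring
  rw [h4]
  exact ZZ.sub_mem (ZZ.neg_mem h3) h2

section factor

variable {R : Datum Γ V D} {T : Ty} {I : Type} [Fintype I] {φ : ℕ → I → D}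

/-- the number of labels in the orbit of `k` -/
def Ty.size (T : Ty) (k : ℕ) : ℕ := ((Icc 1 T.rank).filter fun l => T.Same k l).card

theorem card_orb (h : IsFactor R T φ) {k : ℕ} (hk : k ∈ Icc 1 T.rank) (i : I) :
    (orb Γ (φ k i)).card = T.size k * Fintype.card I := by
  classical
  have h1 : orb Γ (φ k i) = (((Icc 1 T.rank).filter fun l => T.Same k l) ×ˢ
      (univ : Finset I)).image fun x => φ x.1 x.2 := by
    ext d
    rw [h.orbit k hk i d, mem_image]
    constructor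
    · rintro ⟨l, hl, j, hs, rfl⟩
      exact ⟨(l, j), mem_product.2 ⟨mem_filter.2 ⟨hl, hs⟩, mem_univ _⟩, rfl⟩
    · rintro ⟨⟨l, j⟩, hx, rfl⟩
      rw [mem_product, mem_filter] at hx
      exact ⟨l, hx.1.1, j, hx.1.2, rfl⟩
  rw [h1, card_image_of_injOn, card_product, card_univ]
  · rfl
  · rintro ⟨l, j⟩ hx ⟨l', j'⟩ hx' heq
    rw [mem_coe, mem_product, mem_filter] at hx hx'
    obtain ⟨h2, h3⟩ := h.inj l hx.1.1 l' hx'.1.1 j j' heq
    rw [h2, h3]

theorem sum_factor (h : IsFactor R T φ) {k : ℕ} (hk : k ∈ Icc 1 T.rank) (i : I) (x : D → ℚ) :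
    ∑ d, R.root (φ k i) (R.coroot d) * x d = ∑ l ∈ Icc 1 T.rank, (T.cartan k l : ℚ) * x (φ l i) := by
  classical
  have h1 : ∑ l ∈ Icc 1 T.rank, (T.cartan k l : ℚ) * x (φ l i) =
      ∑ d ∈ (Icc 1 T.rank).image (fun l => φ l i), R.root (φ k i) (R.coroot d) * x d := by
    rw [sum_image]
    · exact Finset.sum_congr rfl fun l hl => by rw [h.cartan k hk l hl i]
    · intro l hl l' hl' heq
      exact (h.inj l hl l' hl' i i heq).1
  rw [h1]
  symm
  apply Finset.sum_subset (subset_univ _)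
  intro d _ hd
  by_cases hex : ∃ l ∈ Icc 1 T.rank, ∃ j, d = φ l j
  · obtain ⟨l, hl, j, rfl⟩ := hex
    have hij : i ≠ j := by
      rintro rfl
      exact hd (mem_image.2 ⟨l, hl, rfl⟩)
    rw [h.disjoint k hk l hl i j hij, zero_mul]
  · rw [h.apart k hk i d (fun l hl j heq => hex ⟨l, hl, j, heq⟩), zero_mul]

/-- the row of the folded Cartan matrix, applied to `x` -/
def Ty.row (T : Ty) (k : ℕ) (x : ℕ → ℚ) : ℚ :=
  ∑ l ∈ Icc 1 T.rank, (T.cartan k l : ℚ) * ((T.size k : ℚ) / (T.size l : ℚ)) * x l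

theorem size_pos (T : Ty) {k : ℕ} (hk : k ∈ Icc 1 T.rank) : 0 < T.size k := by
  refine Finset.card_pos.2 ⟨k, mem_filter.2 ⟨hk, ?_⟩⟩
  cases T <;> simp [Ty.Same]

theorem row_eq (h : IsFactor R T φ) {k : ℕ} (hk : k ∈ Icc 1 T.rank) (i : I) (x : D → ℚ) :
    ((orb Γ (φ k i)).card : ℚ) * ∑ d, R.root (φ k i) (R.coroot d) *
      (x d / ((orb Γ d).card : ℚ)) = T.row k (fun l => x (φ l i)) := by
  rw [sum_factor h hk i (fun d => x d / ((orb Γ d).card : ℚ)), mul_sum]
  unfold Ty.row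
  refine Finset.sum_congr rfl fun l hl => ?_
  rw [card_orb h hk i, card_orb h hl i]
  have := h.nonempty
  have h1 : (0 : ℚ) < (Fintype.card I : ℚ) := by exact_mod_cast Fintype.card_pos
  have h2 : (0 : ℚ) < (T.size l : ℚ) := by exact_mod_cast size_pos T hl
  push_cast
  field_simp

/-- **The criterion on one factor.** -/
theorem crit_factor (h : IsFactor R T φ) (c c' : D → ℚ) (mu mu' : V) {k : ℕ}
    (hk : k ∈ Icc 1 T.rank) (i : I) :
    (cnt R mu (φ k i) - cnt R mu' (φ k i) = ((orb Γ (φ k i)).card : ℚ) *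
      ∑ d, R.root (φ k i) (R.coroot d) * ((frac Γ c d - frac Γ c' d) / ((orb Γ d).card : ℚ))) ↔
    cnt R mu (φ k i) - cnt R mu' (φ k i) =
      T.row k (fun l => frac Γ c (φ l i) - frac Γ c' (φ l i)) := by
  rw [row_eq h hk i (fun d => frac Γ c d - frac Γ c' d)]

end factor

end Pool.Agent.TH128.KC
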