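import Pool.Agent.TH128.KC.TyF

set_option autoImplicit false
set_option linter.unusedSectionVars false

/-!
# The classification for one factor, from the root datum
-/

namespace Pool.Agent.TH128.KC

open Finset Pool.Agent.KottwitzG

variable {Γ V D : Type} [Group Γ] [Fintype Γ] [AddCommGroup V] [Module ℚ V]
  [DistribMulAction Γ V] [Fintype D] [DecidableEq D] [MulAction Γ D]

theorem mem_orb_same {R : Datum Γ V D} {T : Ty} {I : Type} [Fintype I] {φ : ℕ → I → D}
    (h : IsFactor R T φ) {k l : ℕ} (hk : k ∈ Icc 1 T.rank) (hl : l ∈ Icc 1 T.rank)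
    (hs : T.Same k l) (i : I) : φ l i ∈ orb Γ (φ k i) :=
  (h.orbit k hk i (φ l i)).2 ⟨l, hl, i, hs, rfl⟩

theorem adm_frac {R : Datum Γ V D} {T : Ty} {I : Type} [Fintype I] {φ : ℕ → I → D}
    (h : IsFactor R T φ) (c : D → ℚ) (hc : ∀ a, ∃ z : ℤ, R.root a (R.comb c) = z) (i : I) :
    Adm T (fun k => frac Γ c (φ k i)) where
  nonneg := fun k _ => Int.fract_nonneg _
  lt_one := fun k _ => Int.fract_lt_one _
  same := fun k hk l hl hs => (frac_eq_of_mem c (mem_orb_same h hk hl hs i)).symm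
  row := fun k hk => by
    rw [← row_eq h hk i (frac Γ c)]
    exact frac_sum R c (fun a => mem_ZZ.2 (hc a)) (φ k i)

theorem nszero_cnt {R : Datum Γ V D} {T : Ty} {I : Type} [Fintype I] {φ : ℕ → I → D}
    (h : IsFactor R T φ) {mu mu' : V} (hmu : IsMinuscule R mu) (hmu' : IsMinuscule R mu')
    (i : I) : NSZero T (fun k => cnt R mu (φ k i)) (fun k => cnt R mu' (φ k i)) :=
  fun _ hk hNS => ⟨cnt_zero h hmu hk hNS i, cnt_zero h hmu' hk hNS i⟩

/-- **The classification on one factor.** -/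
theorem factor_iff {R : Datum Γ V D} {T : Ty} {I : Type} [Fintype I] {φ : ℕ → I → D}
    (h : IsFactor R T φ) (c c' : D → ℚ) (hc : ∀ a, ∃ z : ℤ, R.root a (R.comb c) = z)
    (hc' : ∀ a, ∃ z : ℤ, R.root a (R.comb c') = z) {mu mu' : V} (hmu : IsMinuscule R mu)
    (hmu' : IsMinuscule R mu') (i : I) :
    (∀ k ∈ Icc 1 T.rank, cnt R mu (φ k i) - cnt R mu' (φ k i) = ((orb Γ (φ k i)).card : ℚ) *
      ∑ d, R.root (φ k i) (R.coroot d) * ((frac Γ c d - frac Γ c' d) / ((orb Γ d).card : ℚ))) ↔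
    T.Cond (fun k => frac Γ c (φ k i)) (fun k => frac Γ c' (φ k i))
      (fun k => cnt R mu (φ k i)) (fun k => cnt R mu' (φ k i)) := by
  rw [← cond_iff h.valid (adm_frac h c hc i) (adm_frac h c' hc' i) (nszero_cnt h hmu hmu' i)]
  unfold Eqs
  refine forall₂_congr fun k hk => ?_
  rw [crit_factor h c c' mu mu' hk i]
  rw [row_sub T k (fun l => frac Γ c (φ l i)) (fun l => frac Γ c' (φ l i))]

theorem int_add (R : Datum Γ V D) (c e : D → ℚ) (y : V) (hy : y ∈ R.Y)
    (hc : ∀ a, ∃ z : ℤ, R.root a (R.comb c) = z)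
    (he : ∀ a, R.root a y = R.root a (R.comb e)) (a : D) :
    ∃ z : ℤ, R.root a (R.comb (fun a => c a + e a)) = z := by
  obtain ⟨z, hz⟩ := hc a
  obtain ⟨w, hw⟩ := R.root_int a y hy
  refine ⟨z + w, ?_⟩
  rw [comb_add, map_add, hz, ← he a, hw]
  push_cast
  ring

/-- **The classification.** -/
theorem classification (R : Datum Γ V D) {ι : Type} (T : ι → Ty) (I : ι → Type)
    [∀ t, Fintype (I t)] (φ : ∀ t, ℕ → I t → D) (hφ : ∀ t, IsFactor R (T t) (φ t))
    (hcover : ∀ d : D, ∃ t, ∃ k ∈ Icc 1 (T t).rank, ∃ i, d = φ t k i)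
    (c e : D → ℚ) (y : V) (hy : y ∈ R.Y) (hc : ∀ a, ∃ z : ℤ, R.root a (R.comb c) = z)
    (he : ∀ a, R.root a y = R.root a (R.comb e)) (mu mu' : V) (hmu : IsMinuscule R mu)
    (hmu' : IsMinuscule R mu') :
    R.shift y e '' R.Kott c mu = R.Kott (fun a => c a + e a) mu' ↔
      (QuotientAddGroup.mk mu : V ⧸ R.N) = QuotientAddGroup.mk mu' + QuotientAddGroup.mk y ∧
      ∀ t i, (T t).Cond (fun k => frac Γ c (φ t k i))
        (fun k => frac Γ (fun a => c a + e a) (φ t k i))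
        (fun k => cnt R mu (φ t k i)) (fun k => cnt R mu' (φ t k i)) := by
  rw [cartan_form R c e y mu mu' he hmu.mem hmu'.mem hmu.dominant hmu'.dominant]
  refine and_congr_right fun _ => ?_
  constructor
  · intro h t i
    exact (factor_iff (hφ t) c _ hc (int_add R c e y hy hc he) hmu hmu' i).1
      fun k _ => h (φ t k i)
  · intro h d
    obtain ⟨t, k, hk, i, rfl⟩ := hcover d
    exact (factor_iff (hφ t) c _ hc (int_add R c e y hy hc he) hmu hmu' i).2 (h t i) k hk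

end Pool.Agent.TH128.KC
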