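import Pool.Agent.TH128.KC.Fold

set_option autoImplicit false
set_option linter.unusedSectionVars false

/-!
# Nodes that carry no minuscule coweight
-/

namespace Pool.Agent.TH128.KC

open Finset Pool.Agent.KottwitzG

variable {Γ V D : Type} [Group Γ] [Fintype Γ] [AddCommGroup V] [Module ℚ V]
  [DistribMulAction Γ V] [Fintype D] [DecidableEq D] [MulAction Γ D]

section

variable {R : Datum Γ V D} {mu : V}

theorem IsRoot.add {β : V →ₗ[ℚ] ℚ} (hβ : IsRoot R β) {a : D} (h : β (R.coroot a) = -1) :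
    IsRoot R (β + R.root a) := by
  have h1 := IsRoot.reflect β a hβ
  rw [h, neg_smul, one_smul, sub_neg_eq_add] at h1
  exact h1

theorem val (hmu : IsMinuscule R mu) (a : D) : R.root a mu = 0 ∨ R.root a mu = 1 := by
  obtain ⟨z, hz⟩ := R.root_int a mu hmu.mem
  have h1 := hmu.dominant a
  have h2 := hmu.le_one _ (IsRoot.simple a)
  rw [abs_of_nonneg h1] at h2
  rw [hz] at h1 h2 ⊢
  have h3 : (0 : ℤ) ≤ z := by exact_mod_cast h1
  have h4 : z ≤ 1 := by exact_mod_cast h2
  have h5 : z = 0 ∨ z = 1 := by omega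
  rcases h5 with h5 | h5
  · left
    rw [h5, Int.cast_zero]
  · right
    rw [h5, Int.cast_one]

theorem zero_of_two (hmu : IsMinuscule R mu) {β : V →ₗ[ℚ] ℚ} (hβ : IsRoot R β) (b : D)
    (h : 2 * R.root b mu ≤ β mu) : R.root b mu = 0 := by
  rcases val hmu b with h1 | h1
  · exact h1
  · exfalso
    have h2 := hmu.le_one β hβ
    rw [h1] at h
    have h3 := le_abs_self (β mu)
    linarith

theorem zero_of_double (hmu : IsMinuscule R mu) (a b : D) (h : R.root a (R.coroot b) ≤ -2) :
    R.root b mu = 0 := by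
  refine zero_of_two hmu (IsRoot.reflect _ b (IsRoot.simple a)) b ?_
  rw [LinearMap.sub_apply, LinearMap.smul_apply, smul_eq_mul]
  have h1 := hmu.dominant a
  have h2 := hmu.dominant b
  nlinarith

theorem zero_of_trivalent (hmu : IsMinuscule R mu) (b a₁ a₂ a₃ : D)
    (h1 : R.root b (R.coroot a₁) = -1) (h2 : R.root b (R.coroot a₂) = -1)
    (h3 : R.root b (R.coroot a₃) = -1) (h1' : R.root a₁ (R.coroot b) = -1)
    (h2' : R.root a₂ (R.coroot b) = -1) (h3' : R.root a₃ (R.coroot b) = -1)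
    (h12 : R.root a₁ (R.coroot a₂) = 0) (h13 : R.root a₁ (R.coroot a₃) = 0)
    (h23 : R.root a₂ (R.coroot a₃) = 0) : R.root b mu = 0 := by
  have r1 := (IsRoot.simple (R := R) b).add h1
  have r2 := r1.add (a := a₂) (by
    rw [LinearMap.add_apply, h2, h12]
    norm_num)
  have r3 := r2.add (a := a₃) (by
    simp only [LinearMap.add_apply, h3, h13, h23]
    norm_num)
  have r4 := r3.add (a := b) (by
    simp only [LinearMap.add_apply, h1', h2', h3', R.diag]
    norm_num)
  refine zero_of_two hmu r4 b ?_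
  simp only [LinearMap.add_apply]
  have e1 := hmu.dominant a₁
  have e2 := hmu.dominant a₂
  have e3 := hmu.dominant a₃
  linarith

theorem zero_of_five (hmu : IsMinuscule R mu) (e a b c d : D)
    (hba : R.root b (R.coroot a) = -1) (hbe : R.root b (R.coroot e) = 0)
    (hae : R.root a (R.coroot e) = -1) (hbc : R.root b (R.coroot c) = -1)
    (hac : R.root a (R.coroot c) = 0) (hec : R.root e (R.coroot c) = 0)
    (hbd : R.root b (R.coroot d) = -1) (had : R.root a (R.coroot d) = 0)
    (hed : R.root e (R.coroot d) = 0) (hcd : R.root c (R.coroot d) = 0)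
    (hab : R.root a (R.coroot b) = -1) (heb : R.root e (R.coroot b) = 0)
    (hcb : R.root c (R.coroot b) = -1) (hdb : R.root d (R.coroot b) = -1)
    (hea : R.root e (R.coroot a) = -1) (hca : R.root c (R.coroot a) = 0)
    (hda : R.root d (R.coroot a) = 0) : R.root a mu = 0 := by
  have r1 := (IsRoot.simple (R := R) b).add hba
  have r2 := r1.add (a := e) (by
    simp only [LinearMap.add_apply, hbe, hae]
    norm_num)
  have r3 := r2.add (a := c) (by
    simp only [LinearMap.add_apply, hbc, hac, hec]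
    norm_num)
  have r4 := r3.add (a := d) (by
    simp only [LinearMap.add_apply, hbd, had, hed, hcd]
    norm_num)
  have r5 := r4.add (a := b) (by
    simp only [LinearMap.add_apply, hab, heb, hcb, hdb, R.diag]
    norm_num)
  have r6 := r5.add (a := a) (by
    simp only [LinearMap.add_apply, hba, hea, hca, hda, R.diag]
    norm_num)
  refine zero_of_two hmu r6 a ?_
  simp only [LinearMap.add_apply]
  have e1 := hmu.dominant b
  have e2 := hmu.dominant e
  have e3 := hmu.dominant c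
  have e4 := hmu.dominant d
  linarith

end

/-- nodes that carry no minuscule coweight (not all of them) -/
def Ty.NS : Ty → ℕ → Prop
  | .B n, k => k = n
  | .C n, k => k + 1 = n
  | .D n, k => k + 2 = n ∨ (5 ≤ n ∧ k + 3 = n)
  | .outerD n, k => k + 2 = n
  | .E6, k => k = 3 ∨ k = 4
  | .E7, k => k = 4
  | _, _ => False

theorem same_of_NS (T : Ty) {k l : ℕ} (hk : T.NS k) (hs : T.Same k l) : k = l := by
  cases T
  all_goals simp only [Ty.NS, Ty.Same] at hk hs
  all_goals try exact hs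
  case outerD n => omega

theorem root_zero {R : Datum Γ V D} {T : Ty} {I : Type} [Fintype I] {φ : ℕ → I → D}
    (h : IsFactor R T φ) {mu : V} (hmu : IsMinuscule R mu) {k : ℕ} (hk : k ∈ Icc 1 T.rank)
    (hNS : T.NS k) (i : I) : R.root (φ k i) mu = 0 := by
  have hC := fun k hk l hl => h.cartan k hk l hl i
  have hv := h.valid
  cases T with
  | B n =>
    simp only [Ty.NS] at hNS
    simp only [Ty.IsValid] at hv
    simp only [Ty.rank, mem_Icc] at hC hk
    obtain ⟨m, rfl⟩ : ∃ m, n = m + 1 := ⟨n - 1, by omega⟩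
    refine zero_of_double hmu (φ m i) _ ?_
    rw [hC m ⟨by omega, by omega⟩ k hk]
    have : Ty.cartan (.B (m + 1)) m k = -2 := by
      simp [Ty.cartan, hNS]
    rw [this]
    norm_num
  | C n =>
    simp only [Ty.NS] at hNS
    simp only [Ty.IsValid] at hv
    simp only [Ty.rank, mem_Icc] at hC hk
    refine zero_of_double hmu (φ n i) _ ?_
    rw [hC n ⟨by omega, le_refl _⟩ k hk]
    have : Ty.cartan (.C n) n k = -2 := by
      simp [Ty.cartan, hNS]
    rw [this]
    norm_num
  | D n =>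
    simp only [Ty.NS] at hNS
    simp only [Ty.IsValid] at hv
    simp only [Ty.rank, mem_Icc] at hC hk
    simp only [Ty.cartan, typeD, chainC] at hC
    rcases hNS with hNS | ⟨h5, hNS⟩
    · obtain ⟨m, rfl⟩ : ∃ m, n = m + 4 := ⟨n - 4, by omega⟩
      obtain rfl : k = m + 2 := by omega
      refine zero_of_trivalent hmu _ (φ (m + 1) i) (φ (m + 3) i) (φ (m + 4) i)
        ?_ ?_ ?_ ?_ ?_ ?_ ?_ ?_ ?_
      all_goals
        rw [hC _ ⟨by omega, by omega⟩ _ ⟨by omega, by omega⟩]
        norm_num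
        try omega
    · obtain ⟨m, rfl⟩ : ∃ m, n = m + 5 := ⟨n - 5, by omega⟩
      obtain rfl : k = m + 2 := by omega
      refine zero_of_five hmu (φ (m + 1) i) _ (φ (m + 3) i) (φ (m + 4) i) (φ (m + 5) i)
        ?_ ?_ ?_ ?_ ?_ ?_ ?_ ?_ ?_ ?_ ?_ ?_ ?_ ?_ ?_ ?_ ?_
      all_goals
        rw [hC _ ⟨by omega, by omega⟩ _ ⟨by omega, by omega⟩]
        norm_num
        try omega
  | outerD n =>
    simp only [Ty.NS] at hNS
    simp only [Ty.IsValid] at hv
    simp only [Ty.rank, mem_Icc] at hC hk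
    simp only [Ty.cartan, typeD, chainC] at hC
    obtain ⟨m, rfl⟩ : ∃ m, n = m + 4 := ⟨n - 4, by omega⟩
    obtain rfl : k = m + 2 := by omega
    refine zero_of_trivalent hmu _ (φ (m + 1) i) (φ (m + 3) i) (φ (m + 4) i)
      ?_ ?_ ?_ ?_ ?_ ?_ ?_ ?_ ?_
    all_goals
      rw [hC _ ⟨by omega, by omega⟩ _ ⟨by omega, by omega⟩]
      norm_num
      try omega
  | E6 =>
    simp only [Ty.NS] at hNS
    simp only [Ty.rank, mem_Icc] at hC hk
    simp only [Ty.cartan, typeE] at hC
    rcases hNS with rfl | rfl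
    · refine zero_of_five hmu (φ 1 i) _ (φ 4 i) (φ 2 i) (φ 5 i)
        ?_ ?_ ?_ ?_ ?_ ?_ ?_ ?_ ?_ ?_ ?_ ?_ ?_ ?_ ?_ ?_ ?_
      all_goals
        rw [hC _ ⟨by omega, by omega⟩ _ ⟨by omega, by omega⟩]
        norm_num
    · refine zero_of_trivalent hmu _ (φ 2 i) (φ 3 i) (φ 5 i) ?_ ?_ ?_ ?_ ?_ ?_ ?_ ?_ ?_
      all_goals
        rw [hC _ ⟨by omega, by omega⟩ _ ⟨by omega, by omega⟩]
        norm_num
  | E7 =>
    simp only [Ty.NS] at hNS
    simp only [Ty.rank, mem_Icc] at hC hk
    simp only [Ty.cartan, typeE] at hC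
    subst hNS
    refine zero_of_trivalent hmu _ (φ 2 i) (φ 3 i) (φ 5 i) ?_ ?_ ?_ ?_ ?_ ?_ ?_ ?_ ?_
    all_goals
      rw [hC _ ⟨by omega, by omega⟩ _ ⟨by omega, by omega⟩]
      norm_num
  | A n => exact hNS.elim
  | outerA n => exact hNS.elim
  | triality => exact hNS.elim
  | outerE6 => exact hNS.elim
  | E8 => exact hNS.elim
  | F4 => exact hNS.elim
  | G2 => exact hNS.elim

theorem cnt_zero {R : Datum Γ V D} {T : Ty} {I : Type} [Fintype I] {φ : ℕ → I → D}
    (h : IsFactor R T φ) {mu : V} (hmu : IsMinuscule R mu) {k : ℕ} (hk : k ∈ Icc 1 T.rank)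
    (hNS : T.NS k) (i : I) : cnt R mu (φ k i) = 0 := by
  refine Finset.sum_eq_zero fun b hb => ?_
  rw [h.orbit k hk i b] at hb
  obtain ⟨l, hl, j, hs, rfl⟩ := hb
  obtain rfl := same_of_NS T hNS hs
  exact root_zero h hmu hk hNS j

end Pool.Agent.TH128.KC
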