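import Pool.Agent.TH128.KC.Mins

set_option autoImplicit false
set_option linter.unusedSectionVars false

/-!
# Rows of the folded Cartan matrices
-/

namespace Pool.Agent.TH128.KC

open Finset Pool.Agent.KottwitzG

/-- The properties of the function `frac` on one factor. -/
structure Adm (T : Ty) (f : ℕ → ℚ) : Prop where
  nonneg : ∀ k ∈ Icc 1 T.rank, 0 ≤ f k
  lt_one : ∀ k ∈ Icc 1 T.rank, f k < 1
  same : ∀ k ∈ Icc 1 T.rank, ∀ l ∈ Icc 1 T.rank, T.Same k l → f k = f l
  row : ∀ k ∈ Icc 1 T.rank, T.row k f ∈ ZZ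

theorem row_sub (T : Ty) (k : ℕ) (f f' : ℕ → ℚ) :
    T.row k (fun l => f l - f' l) = T.row k f - T.row k f' := by
  unfold Ty.row
  rw [← Finset.sum_sub_distrib]
  exact Finset.sum_congr rfl fun l _ => by ring

theorem row_congr (T : Ty) (k : ℕ) {f f' : ℕ → ℚ} (h : ∀ l ∈ Icc 1 T.rank, f l = f' l) :
    T.row k f = T.row k f' := by
  unfold Ty.row
  exact Finset.sum_congr rfl fun l hl => by rw [h l hl]

/-- extension by zero -/
def hat (n : ℕ) (x : ℕ → ℚ) (l : ℕ) : ℚ := if l ∈ Icc 1 n then x l else 0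

theorem hat_of (n : ℕ) (x : ℕ → ℚ) {l : ℕ} (h1 : 1 ≤ l) (h2 : l ≤ n) : hat n x l = x l := by
  unfold hat
  rw [if_pos (mem_Icc.2 ⟨h1, h2⟩)]

theorem hat_zero (n : ℕ) (x : ℕ → ℚ) : hat n x 0 = 0 := by
  unfold hat
  rw [if_neg]
  rw [mem_Icc]
  omega

theorem hat_big (n : ℕ) (x : ℕ → ℚ) {l : ℕ} (h : n < l) : hat n x l = 0 := by
  unfold hat
  rw [if_neg]
  rw [mem_Icc]
  omega

theorem sum_single' (n : ℕ) (x : ℕ → ℚ) (j : ℕ) :
    ∑ l ∈ Icc 1 n, (if l = j then x l else 0) = hat n x j := by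
  rw [Finset.sum_ite_eq']
  rfl

theorem chain_sum (n k : ℕ) (hk : k ∈ Icc 1 n) (x : ℕ → ℚ) :
    ∑ l ∈ Icc 1 n, (chainC k l : ℚ) * x l = 2 * x k - hat n x (k + 1) - hat n x (k - 1) := by
  rw [mem_Icc] at hk
  have h1 : ∀ l ∈ Icc 1 n, (chainC k l : ℚ) * x l = 2 * (if l = k then x l else 0) -
      (if l = k + 1 then x l else 0) - (if l = k - 1 then x l else 0) := by
    intro l hl
    rw [mem_Icc] at hl
    unfold chainC
    by_cases h1 : k = l
    · subst h1
      rw [if_pos rfl, if_pos rfl, if_neg (by omega), if_neg (by omega)]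
      push_cast
      ring
    · rw [if_neg h1, if_neg (Ne.symm h1)]
      by_cases h2 : l = k + 1
      · rw [if_pos (Or.inl h2.symm), if_pos h2, if_neg (by omega)]
        push_cast
        ring
      · by_cases h3 : l = k - 1
        · rw [if_pos (Or.inr (by omega)), if_neg h2, if_pos h3]
          push_cast
          ring
        · rw [if_neg (by omega), if_neg h2, if_neg h3]
          push_cast
          ring
  rw [Finset.sum_congr rfl h1, Finset.sum_sub_distrib, Finset.sum_sub_distrib,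
    ← Finset.mul_sum, sum_single', sum_single', sum_single', hat_of n x hk.1 hk.2]

theorem size_one (T : Ty) (hs : ∀ k l, T.Same k l ↔ k = l) {k : ℕ} (hk : k ∈ Icc 1 T.rank) :
    T.size k = 1 := by
  unfold Ty.size
  rw [Finset.card_eq_one]
  refine ⟨k, ?_⟩
  ext l
  rw [mem_filter, mem_singleton, hs]
  constructor
  · rintro ⟨-, h⟩
    exact h.symm
  · rintro rfl
    exact ⟨hk, rfl⟩

theorem row_inner (T : Ty) (hs : ∀ k l, T.Same k l ↔ k = l) {k : ℕ} (hk : k ∈ Icc 1 T.rank)
    (x : ℕ → ℚ) : T.row k x = ∑ l ∈ Icc 1 T.rank, (T.cartan k l : ℚ) * x l := by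
  unfold Ty.row
  refine Finset.sum_congr rfl fun l hl => ?_
  rw [size_one T hs hk, size_one T hs hl]
  norm_num

theorem row_A (n k : ℕ) (hk : k ∈ Icc 1 n) (x : ℕ → ℚ) :
    (Ty.A n).row k x = 2 * x k - hat n x (k + 1) - hat n x (k - 1) := by
  rw [row_inner (.A n) (fun _ _ => Iff.rfl) hk]
  exact chain_sum n k hk x

theorem row_B (n k : ℕ) (hk : k ∈ Icc 1 n) (x : ℕ → ℚ) :
    (Ty.B n).row k x = 2 * x k - hat n x (k + 1) - hat n x (k - 1) -
      (if k + 1 = n then x n else 0) := by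
  rw [row_inner (.B n) (fun _ _ => Iff.rfl) hk, ← chain_sum n k hk x]
  have hn : n ∈ Icc 1 n := by
    rw [mem_Icc] at hk ⊢
    omega
  have h1 : ∀ l ∈ Icc 1 (Ty.B n).rank, ((Ty.B n).cartan k l : ℚ) * x l =
      (chainC k l : ℚ) * x l - (if l = n then (if k + 1 = n then x l else 0) else 0) := by
    intro l hl
    simp only [Ty.cartan]
    by_cases h1 : k + 1 = n
    · by_cases h2 : l = n
      · rw [if_pos ⟨h1, h2⟩, if_pos h2, if_pos h1]
        unfold chainC
        rw [if_neg (by omega), if_pos (by omega)]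
        push_cast
        ring
      · rw [if_neg (by tauto), if_neg h2]
        ring
    · rw [if_neg (by tauto), if_neg h1]
      split_ifs <;> ring
  rw [Finset.sum_congr rfl h1, Finset.sum_sub_distrib]
  congr 1
  simp only [Ty.rank]
  rw [Finset.sum_ite_eq', if_pos hn]

theorem row_C (n k : ℕ) (hn : 2 ≤ n) (hk : k ∈ Icc 1 n) (x : ℕ → ℚ) :
    (Ty.C n).row k x = 2 * x k - hat n x (k + 1) - hat n x (k - 1) -
      (if k = n then x (n - 1) else 0) := by
  rw [row_inner (.C n) (fun _ _ => Iff.rfl) hk, ← chain_sum n k hk x]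
  have hn' : n - 1 ∈ Icc 1 n := by
    rw [mem_Icc] at hk ⊢
    omega
  have h1 : ∀ l ∈ Icc 1 (Ty.C n).rank, ((Ty.C n).cartan k l : ℚ) * x l =
      (chainC k l : ℚ) * x l - (if l = n - 1 then (if k = n then x l else 0) else 0) := by
    intro l hl
    simp only [Ty.cartan]
    by_cases h1 : k = n
    · by_cases h2 : l = n - 1
      · rw [if_pos ⟨h1, by omega⟩, if_pos h2, if_pos h1]
        unfold chainC
        rw [if_neg (by omega), if_pos (by omega)]
        push_cast
        ring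
      · rw [if_neg (by omega), if_neg h2]
        ring
    · rw [if_neg (by tauto), if_neg h1]
      split_ifs <;> ring
  rw [Finset.sum_congr rfl h1, Finset.sum_sub_distrib]
  congr 1
  simp only [Ty.rank]
  rw [Finset.sum_ite_eq', if_pos hn']

/-- the sum for type `D` with arbitrary weights -/
theorem sum_D (m k : ℕ) (hk : k ∈ Icc 1 (m + 4)) (x : ℕ → ℚ) :
    ∑ l ∈ Icc 1 (m + 4), (typeD (m + 4) k l : ℚ) * x l =
      if k < m + 2 then 2 * x k - x (k + 1) - hat (m + 4) x (k - 1)
      else if k = m + 2 then 2 * x (m + 2) - hat (m + 4) x (m + 1) - x (m + 3) - x (m + 4)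
      else 2 * x k - x (m + 2) := by
  have h1 : ∀ l ∈ Icc 1 (m + 4), (typeD (m + 4) k l : ℚ) * x l =
      (chainC k l : ℚ) * x l + (if l = m + 4 then (if k = m + 3 then x l else 0) else 0) +
      (if l = m + 3 then (if k = m + 4 then x l else 0) else 0) -
      (if l = m + 4 then (if k = m + 2 then x l else 0) else 0) -
      (if l = m + 2 then (if k = m + 4 then x l else 0) else 0) := by
    intro l hl
    rw [mem_Icc] at hl hk
    unfold typeD
    by_cases a1 : (k + 1 = m + 4 ∧ l = m + 4) ∨ (k = m + 4 ∧ l + 1 = m + 4)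
    · rw [if_pos a1]
      rcases a1 with ⟨a2, rfl⟩ | ⟨rfl, a2⟩
      · obtain rfl : k = m + 3 := by omega
        unfold chainC
        simp
      · obtain rfl : l = m + 3 := by omega
        unfold chainC
        simp
    · rw [if_neg a1]
      by_cases a3 : (k + 2 = m + 4 ∧ l = m + 4) ∨ (k = m + 4 ∧ l + 2 = m + 4)
      · rw [if_pos a3]
        rcases a3 with ⟨a2, rfl⟩ | ⟨rfl, a2⟩
        · obtain rfl : k = m + 2 := by omega
          unfold chainC
          simp
        · obtain rfl : l = m + 2 := by omega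
          unfold chainC
          simp
      · rw [if_neg a3]
        have b1 : ¬ (l = m + 4 ∧ k = m + 3) := fun h => a1 (Or.inl ⟨by omega, h.1⟩)
        have b2 : ¬ (l = m + 3 ∧ k = m + 4) := fun h => a1 (Or.inr ⟨h.2, by omega⟩)
        have b3 : ¬ (l = m + 4 ∧ k = m + 2) := fun h => a3 (Or.inl ⟨by omega, h.1⟩)
        have b4 : ¬ (l = m + 2 ∧ k = m + 4) := fun h => a3 (Or.inr ⟨h.2, by omega⟩)
        rw [← ite_and, ← ite_and, ← ite_and, ← ite_and, if_neg b1, if_neg b2, if_neg b3,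
          if_neg b4]
        ring
  rw [Finset.sum_congr rfl h1]
  simp only [Finset.sum_sub_distrib, Finset.sum_add_distrib]
  rw [chain_sum (m + 4) k hk x]
  simp only [Finset.sum_ite_eq', mem_Icc]
  rw [mem_Icc] at hk
  have e4 : 1 ≤ m + 4 ∧ m + 4 ≤ m + 4 := by omega
  have e3 : 1 ≤ m + 3 ∧ m + 3 ≤ m + 4 := by omega
  have e2 : 1 ≤ m + 2 ∧ m + 2 ≤ m + 4 := by omega
  simp only [if_pos e4, if_pos e3, if_pos e2]
  by_cases c1 : k < m + 2
  · have n2 : ¬ k = m + 2 := by omega
    have n3 : ¬ k = m + 3 := by omega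
    have n4 : ¬ k = m + 4 := by omega
    simp only [if_pos c1, if_neg n2, if_neg n3, if_neg n4]
    rw [hat_of (m + 4) x (l := k + 1) (by omega) (by omega)]
    ring
  · by_cases c2 : k = m + 2
    · subst c2
      have n3 : ¬ m + 2 = m + 3 := by omega
      have n4 : ¬ m + 2 = m + 4 := by omega
      simp only [if_neg c1, if_true, if_neg n3, if_neg n4]
      rw [hat_of (m + 4) x (l := m + 2 + 1) (by omega) (by omega)]
      have : m + 2 - 1 = m + 1 := by omega
      rw [this]
      ring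
    · by_cases c3 : k = m + 3
      · subst c3
        have n4 : ¬ m + 3 = m + 4 := by omega
        simp only [if_neg c1, if_neg c2, if_true, if_neg n4]
        rw [hat_of (m + 4) x (l := m + 3 + 1) (by omega) (by omega),
          hat_of (m + 4) x (l := m + 3 - 1) (by omega) (by omega)]
        have : m + 3 - 1 = m + 2 := by omega
        rw [this]
        ring
      · obtain rfl : k = m + 4 := by omega
        simp only [if_neg c1, if_neg c2, if_neg c3, if_true]
        rw [hat_big (m + 4) x (l := m + 4 + 1) (by omega),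
          hat_of (m + 4) x (l := m + 4 - 1) (by omega) (by omega)]
        have : m + 4 - 1 = m + 3 := by omega
        rw [this]
        ring

theorem row_D (m k : ℕ) (hk : k ∈ Icc 1 (m + 4)) (x : ℕ → ℚ) :
    (Ty.D (m + 4)).row k x =
      if k < m + 2 then 2 * x k - x (k + 1) - hat (m + 4) x (k - 1)
      else if k = m + 2 then 2 * x (m + 2) - hat (m + 4) x (m + 1) - x (m + 3) - x (m + 4)
      else 2 * x k - x (m + 2) := by
  rw [row_inner (.D (m + 4)) (fun _ _ => Iff.rfl) hk]
  exact sum_D m k hk x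

/-- Values congruent modulo the integers. -/
theorem eq_of_ZZ {p q : ℚ} (hp : 0 ≤ p) (hp1 : p < 1) (hq : 0 ≤ q) (hq1 : q < 1)
    (h : p - q ∈ ZZ) : p = q := by
  obtain ⟨z, hz⟩ := mem_ZZ.1 h
  have h1 : (z : ℚ) < 1 := by linarith
  have h2 : (-1 : ℚ) < z := by linarith
  have h3 : z < 1 := by exact_mod_cast h1
  have h4 : -1 < z := by exact_mod_cast h2
  obtain rfl : z = 0 := by omega
  rw [Int.cast_zero] at hz
  linarith

theorem fract_of {p q : ℚ} (hp : 0 ≤ p) (hp1 : p < 1) (h : p - q ∈ ZZ) : p = Int.fract q := by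
  refine eq_of_ZZ hp hp1 (Int.fract_nonneg q) (Int.fract_lt_one q) ?_
  have h1 : p - Int.fract q = (p - q) + (⌊q⌋ : ℤ) := by
    rw [Int.fract]
    ring
  rw [h1]
  exact ZZ.add_mem h (int_mem_ZZ _)

theorem half_of {p : ℚ} (hp : 0 ≤ p) (hp1 : p < 1) (h : 2 * p ∈ ZZ) : p = 0 ∨ p = 1 / 2 := by
  obtain ⟨z, hz⟩ := mem_ZZ.1 h
  have h1 : (z : ℚ) < 2 := by linarith
  have h2 : (0 : ℚ) ≤ z := by linarith
  have h3 : z < 2 := by exact_mod_cast h1
  have h4 : 0 ≤ z := by exact_mod_cast h2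
  have h5 : z = 0 ∨ z = 1 := by omega
  rcases h5 with rfl | rfl
  · left
    push_cast at hz
    linarith
  · right
    push_cast at hz
    linarith

/-- **Chains.** -/
theorem chain {F : ℕ → ℚ} {m : ℕ} (h0 : F 0 = 0)
    (hr : ∀ k, 1 ≤ k → k < m → 2 * F k - F (k + 1) - F (k - 1) ∈ ZZ) :
    ∀ k, k ≤ m → F k - k * F 1 ∈ ZZ := by
  intro k
  induction k using Nat.strong_induction_on with
  | _ k ih =>
    intro hk
    match k, ih, hk with
    | 0, _, _ =>
      rw [h0, Nat.cast_zero, zero_mul, sub_zero]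
      exact ZZ.zero_mem
    | 1, _, _ =>
      have : F 1 - ((1 : ℕ) : ℚ) * F 1 = 0 := by
        push_cast
        ring
      rw [this]
      exact ZZ.zero_mem
    | k + 2, ih, hk =>
      have h1 := ih (k + 1) (by omega) (by omega)
      have h2 := ih k (by omega) (by omega)
      have h3 := hr (k + 1) (by omega) (by omega)
      have e1 : k + 1 - 1 = k := by omega
      rw [e1] at h3
      have e2 : F (k + 2) - ((k + 2 : ℕ) : ℚ) * F 1 =
          (F (k + 1) - ((k + 1 : ℕ) : ℚ) * F 1) + (F (k + 1) - ((k + 1 : ℕ) : ℚ) * F 1) -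
          (F k - (k : ℚ) * F 1) - (2 * F (k + 1) - F (k + 1 + 1) - F k) := by
        push_cast
        ring
      rw [e2]
      exact ZZ.sub_mem (ZZ.sub_mem (ZZ.add_mem h1 h1) h2) h3

theorem fract_half (k : ℕ) : Int.fract ((k : ℚ) / 2) = if Even k then 0 else 1 / 2 := by
  split_ifs with h
  · obtain ⟨j, rfl⟩ := h
    have : (((j + j : ℕ) : ℚ)) / 2 = (j : ℤ) := by
      push_cast
      ring
    rw [this, Int.fract_intCast]
  · rw [Nat.not_even_iff_odd] at h
    obtain ⟨j, rfl⟩ := h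
    have : (((2 * j + 1 : ℕ) : ℚ)) / 2 = (j : ℤ) + 1 / 2 := by
      push_cast
      ring
    rw [this, Int.fract_intCast_add]
    rw [Int.fract_eq_self]
    norm_num

theorem fract_half_succ (k : ℕ) :
    Int.fract (((k + 1 : ℕ) : ℚ) / 2) = 1 / 2 - Int.fract ((k : ℚ) / 2) := by
  rw [fract_half, fract_half]
  by_cases h : Even k
  · rw [if_pos h, if_neg]
    · norm_num
    · rw [Nat.not_even_iff_odd]
      exact h.add_one
  · rw [if_neg h, if_pos]
    · norm_num
    · rw [Nat.not_even_iff_odd] at h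
      exact h.add_one

theorem fract_div (u M : ℕ) (hM : 0 < M) :
    Int.fract ((u : ℚ) / M) = (u : ℚ) / M - ((u / M : ℕ) : ℚ) := by
  have hM' : (0 : ℚ) < M := by exact_mod_cast hM
  symm
  refine fract_of ?_ ?_ ?_
  · rw [sub_nonneg, le_div_iff₀ hM']
    exact_mod_cast Nat.div_mul_le_self u M
  · have h1 := Nat.lt_div_mul_add hM (a := u)
    have h2 : (u : ℚ) < ((u / M : ℕ) : ℚ) * M + M := by exact_mod_cast h1
    rw [sub_lt_iff_lt_add, div_lt_iff₀ hM']
    linarith
  · have : (u : ℚ) / M - ((u / M : ℕ) : ℚ) - (u : ℚ) / M = -(((u / M : ℕ) : ℤ) : ℚ) := by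
      rw [Int.cast_natCast]
      ring
    rw [this]
    exact ZZ.neg_mem (int_mem_ZZ _)

end Pool.Agent.TH128.KC
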