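import Pool.Agent.TH128.KC.TyD4

set_option autoImplicit false
set_option linter.unusedSectionVars false

/-!
# The types A and outer A
-/

namespace Pool.Agent.TH128.KC

open Finset Pool.Agent.KottwitzG

variable {f f' N N' : ℕ → ℚ}

section inner

variable {n : ℕ}

theorem A_vals (hn : 1 ≤ n) (hf : Adm (.A n) f) :
    ∃ a : ℕ, a ≤ n ∧ ∀ k ∈ Icc 1 n, f k = Int.fract ((k * a : ℚ) / (n + 1)) := by
  set F := hat n f with hF
  have hF0 : F 0 = 0 := hat_zero _ _
  have hFk : ∀ k, 1 ≤ k → k ≤ n → F k = f k := fun k h1 h2 => hat_of _ _ h1 h2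
  have hrow := hf.row
  have hc := chain (F := F) (m := n + 1) hF0 (fun k h1 h2 => by
    have h3 := hrow k (mem_Icc.2 ⟨h1, by simp only [Ty.rank]; omega⟩)
    rw [row_A n k (mem_Icc.2 ⟨h1, by omega⟩), ← hFk k h1 (by omega)] at h3
    exact h3)
  have h1 := hc (n + 1) le_rfl
  have h2 : F (n + 1) = 0 := hat_big _ _ (by omega)
  rw [h2, zero_sub] at h1
  obtain ⟨z, hz⟩ := mem_ZZ.1 h1
  have h10 : 0 ≤ F 1 := by
    rw [hFk 1 le_rfl hn]
    exact hf.nonneg 1 (mem_Icc.2 ⟨le_rfl, hn⟩)
  have h11 : F 1 < 1 := by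
    rw [hFk 1 le_rfl hn]
    exact hf.lt_one 1 (mem_Icc.2 ⟨le_rfl, hn⟩)
  have hn1 : (0 : ℚ) < ((n + 1 : ℕ) : ℚ) := by positivity
  have z1 : (0 : ℚ) ≤ -(z : ℚ) := by
    rw [← hz, neg_neg]
    positivity
  have z2 : -(z : ℚ) < ((n + 1 : ℕ) : ℚ) := by
    rw [← hz, neg_neg]
    nlinarith
  have z3 : 0 ≤ -z := by exact_mod_cast z1
  have z4 : -z < ((n + 1 : ℕ) : ℤ) := by exact_mod_cast z2
  obtain ⟨a, ha⟩ := Int.eq_ofNat_of_zero_le z3
  refine ⟨a, by omega, fun k hk => ?_⟩
  have hk' := mem_Icc.1 hk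
  have hza : (z : ℚ) = -(a : ℚ) := by
    have : z = -(a : ℤ) := by omega
    rw [this]
    push_cast
    ring
  have hF1 : F 1 = (a : ℚ) / (n + 1) := by
    rw [hza] at hz
    rw [eq_div_iff (by positivity)]
    push_cast at hz
    linarith
  refine fract_of (hf.nonneg k hk) (hf.lt_one k hk) ?_
  have h5 := hc k (by omega)
  rw [hFk k hk'.1 hk'.2, hF1] at h5
  have e : (k * a : ℚ) / (n + 1) = (k : ℚ) * ((a : ℚ) / (n + 1)) := by ring
  rw [e]
  exact h5

theorem row_A_of {a : ℕ}
    (hf : ∀ k ∈ Icc 1 n, f k = Int.fract ((k * a : ℚ) / (n + 1))) {k : ℕ} (hk : k ∈ Icc 1 n) :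
    (Ty.A n).row k f = (((k + 1) * a / (n + 1) : ℕ) - 2 * (k * a / (n + 1) : ℕ) +
        ((k - 1) * a / (n + 1) : ℕ) : ℚ) := by
  rw [row_A n k hk]
  have hk' := mem_Icc.1 hk
  have h1 : ∀ l, l ≤ n + 1 → hat n f l = ((l * a : ℕ) : ℚ) / ((n + 1 : ℕ) : ℚ) -
      ((l * a / (n + 1) : ℕ) : ℚ) := by
    intro l hl
    rw [← fract_div (l * a) (n + 1) (by omega)]
    rcases Nat.eq_zero_or_pos l with rfl | hl0
    · rw [hat_zero]
      simp
    · by_cases c : l ≤ n
      · rw [hat_of _ _ hl0 c, hf l (mem_Icc.2 ⟨hl0, c⟩)]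
        push_cast
        rfl
      · obtain rfl : l = n + 1 := by omega
        rw [hat_big _ _ (by omega)]
        have : (((n + 1) * a : ℕ) : ℚ) / ((n + 1 : ℕ) : ℚ) = ((a : ℤ) : ℚ) := by
          have : ((n + 1 : ℕ) : ℚ) ≠ 0 := by positivity
          field_simp
          push_cast
          ring
        rw [this, Int.fract_intCast]
  rw [← hat_of n f hk'.1 hk'.2, h1 k (by omega), h1 (k + 1) (by omega), h1 (k - 1) (by omega)]
  obtain ⟨j, rfl⟩ : ∃ j, k = j + 1 := ⟨k - 1, by omega⟩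
  have e : j + 1 - 1 = j := by omega
  rw [e]
  have e1 : (((j + 1 + 1) * a : ℕ) : ℚ) = 2 * (((j + 1) * a : ℕ) : ℚ) - ((j * a : ℕ) : ℚ) := by
    push_cast
    ring
  rw [e1]
  ring

theorem cond_A (hn : 1 ≤ n) (hf : Adm (.A n) f) (hf' : Adm (.A n) f') :
    Eqs (.A n) f f' N N' ↔ (Ty.A n).Cond f f' N N' := by
  constructor
  · intro hE
    obtain ⟨a, ha, h1⟩ := A_vals hn hf
    obtain ⟨a', ha', h1'⟩ := A_vals hn hf'
    refine ⟨a, a', ha, ha', fun k hk => ⟨h1 k hk, h1' k hk, ?_⟩⟩
    rw [hE k hk, row_A_of h1 hk, row_A_of h1' hk]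
  · rintro ⟨a, a', ha, ha', h⟩ k hk
    rw [(h k hk).2.2, row_A_of (fun k hk => (h k hk).1) hk,
      row_A_of (fun k hk => (h k hk).2.1) hk]

end inner

section outer

theorem size_outerA (n k : ℕ) (hk : k ∈ Icc 1 n) :
    (Ty.outerA n).size k = if 2 * k = n + 1 then 1 else 2 := by
  rw [mem_Icc] at hk
  unfold Ty.size
  split_ifs with h
  · rw [Finset.card_eq_one]
    refine ⟨k, ?_⟩
    ext l
    rw [mem_filter, mem_Icc, mem_singleton]
    simp only [Ty.rank, Ty.Same]
    omega
  · rw [Finset.card_eq_two]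
    refine ⟨k, n + 1 - k, by omega, ?_⟩
    ext l
    rw [mem_filter, mem_Icc, mem_insert, mem_singleton]
    simp only [Ty.rank, Ty.Same]
    omega

theorem row_outerA (n k : ℕ) (hk : k ∈ Icc 1 n) (x : ℕ → ℚ) :
    (Ty.outerA n).row k x = ((Ty.outerA n).size k : ℚ) *
      (2 * (x k / ((Ty.outerA n).size k : ℚ)) -
        hat n (fun l => x l / ((Ty.outerA n).size l : ℚ)) (k + 1) -
        hat n (fun l => x l / ((Ty.outerA n).size l : ℚ)) (k - 1)) := by
  rw [← chain_sum n k hk (fun l => x l / ((Ty.outerA n).size l : ℚ))]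
  unfold Ty.row
  rw [Finset.mul_sum]
  refine Finset.sum_congr rfl fun l hl => ?_
  simp only [Ty.cartan]
  ring

/-- the row at nodes with no middle node nearby -/
theorem row_outerA_two (n k : ℕ) (hk : k ∈ Icc 1 n) (x : ℕ → ℚ) (h1 : 2 * k ≠ n + 1)
    (h2 : 2 * (k + 1) ≠ n + 1) (h3 : 2 * (k - 1) ≠ n + 1) :
    (Ty.outerA n).row k x = 2 * x k - hat n x (k + 1) - hat n x (k - 1) := by
  have hh : ∀ i, 2 * i ≠ n + 1 → hat n (fun l => x l / ((Ty.outerA n).size l : ℚ)) i =
      hat n x i / 2 := by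
    intro i hi
    unfold hat
    split_ifs with h
    · beta_reduce
      rw [size_outerA n i h, if_neg hi]
      push_cast
      rfl
    · ring
  rw [row_outerA n k hk, hh _ h2, hh _ h3, size_outerA n k hk, if_neg h1]
  push_cast
  ring

theorem outerA_even {m : ℕ} (hm : 1 ≤ m) (hf : Adm (.outerA (2 * m)) f) :
    ∀ k ∈ Icc 1 (2 * m), f k = 0 := by
  set F := hat (2 * m) f with hF
  have hF0 : F 0 = 0 := hat_zero _ _
  have hFk : ∀ k, 1 ≤ k → k ≤ 2 * m → F k = f k := fun k h1 h2 => hat_of _ _ h1 h2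
  have hrow := hf.row
  have hc := chain (F := F) (m := 2 * m) hF0 (fun k h1 h2 => by
    have h3 := hrow k (mem_Icc.2 ⟨h1, by simp only [Ty.rank]; omega⟩)
    rw [row_outerA_two (2 * m) k (mem_Icc.2 ⟨h1, by omega⟩) f (by omega) (by omega) (by omega),
      ← hFk k h1 (by omega)] at h3
    exact h3)
  have hs : f m = f (m + 1) := hf.same m (mem_Icc.2 ⟨hm, by simp only [Ty.rank]; omega⟩) (m + 1)
    (mem_Icc.2 ⟨by omega, by simp only [Ty.rank]; omega⟩) (Or.inr (by omega))
  have h1 : F 1 ∈ ZZ := by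
    have e : F 1 = (F m - (m : ℚ) * F 1) - (F (m + 1) - ((m + 1 : ℕ) : ℚ) * F 1) := by
      rw [hFk m hm (by omega), hFk (m + 1) (by omega) (by omega), hs]
      push_cast
      ring
    rw [e]
    exact ZZ.sub_mem (hc m (by omega)) (hc (m + 1) (by omega))
  intro k hk
  have hk' := mem_Icc.1 hk
  refine zero_of_ZZ (hf.nonneg k hk) (hf.lt_one k hk) ?_
  rw [← hFk k hk'.1 hk'.2]
  have e : F k = (F k - (k : ℚ) * F 1) + ((k : ℤ) : ℚ) * F 1 := by
    push_cast
    ring
  rw [e]
  exact ZZ.add_mem (hc k hk'.2) (mul_mem_ZZ (int_mem_ZZ _) h1)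

/-- the row applied to the unit vector of the middle node -/
theorem row_unit {m : ℕ} (hm : 2 ≤ m) (n : ℕ) (hn : n + 1 = 2 * m) (v : ℚ) {k : ℕ}
    (hk : k ∈ Icc 1 n) (hf : ∀ k ∈ Icc 1 n, f k = unit m k * v) :
    (Ty.outerA n).row k f = 2 * v * (unit m k - unit (m - 1) k - unit (m + 1) k) := by
  have hk' := mem_Icc.1 hk
  rw [row_outerA n k hk]
  have h1 : ∀ i, hat n (fun l => f l / ((Ty.outerA n).size l : ℚ)) i = unit m i * v := by
    intro i
    by_cases h : i ∈ Icc 1 n
    · unfold hat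
      rw [if_pos h]
      beta_reduce
      rw [hf i h, size_outerA n i h]
      split_ifs with h2
      · push_cast
        ring
      · have : i ≠ m := by omega
        simp [unit, this]
    · unfold hat
      rw [if_neg h]
      have : i ≠ m := by
        rintro rfl
        exact h (mem_Icc.2 ⟨by omega, by omega⟩)
      simp [unit, this]
  rw [h1, h1, hf k hk, size_outerA n k hk]
  unfold unit
  by_cases c : k = m
  · subst c
    rw [if_pos (by omega), if_pos rfl, if_neg (by omega), if_neg (by omega), if_neg (by omega),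
      if_neg (by omega)]
    push_cast
    ring
  · rw [if_neg (by omega), if_neg c]
    by_cases c1 : k + 1 = m
    · rw [if_pos c1, if_neg (by omega), if_pos (by omega), if_neg (by omega)]
      push_cast
      ring
    · rw [if_neg c1]
      by_cases c2 : k - 1 = m
      · rw [if_pos c2, if_neg (by omega), if_pos (by omega)]
        push_cast
        ring
      · rw [if_neg c2, if_neg (by omega), if_neg (by omega)]
        push_cast
        ring

theorem outerA_odd {p : ℕ} (hf : Adm (.outerA (2 * p + 3)) f) :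
    ∃ v : ℚ, (v = 0 ∨ v = 1 / 2) ∧ ∀ k ∈ Icc 1 (2 * p + 3), f k = unit (p + 2) k * v := by
  set n := 2 * p + 3 with hn
  set F := hat n f with hF
  have hF0 : F 0 = 0 := hat_zero _ _
  have hFk : ∀ k, 1 ≤ k → k ≤ n → F k = f k := fun k h1 h2 => hat_of _ _ h1 h2
  have hrow := hf.row
  have hc := chain (F := F) (m := p + 1) hF0 (fun k h1 h2 => by
    have h3 := hrow k (mem_Icc.2 ⟨h1, by simp only [Ty.rank]; omega⟩)
    rw [row_outerA_two n k (mem_Icc.2 ⟨h1, by omega⟩) f (by omega) (by omega) (by omega),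
      ← hFk k h1 (by omega)] at h3
    exact h3)
  have m1 : p + 1 ∈ Icc 1 n := mem_Icc.2 ⟨by omega, by omega⟩
  have m2 : p + 2 ∈ Icc 1 n := mem_Icc.2 ⟨by omega, by omega⟩
  have m3 : p + 3 ∈ Icc 1 n := mem_Icc.2 ⟨by omega, by omega⟩
  have hs : f (p + 1) = f (p + 3) := hf.same (p + 1) m1 (p + 3) m3 (Or.inr (by omega))
  have r1 := hrow (p + 1) m1
  have r2 := hrow (p + 2) m2
  have hh : ∀ i, 2 * i ≠ n + 1 → hat n (fun l => f l / ((Ty.outerA n).size l : ℚ)) i =
      F i / 2 := by
    intro i hi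
    rw [hF]
    unfold hat
    split_ifs with h
    · beta_reduce
      rw [size_outerA n i h, if_neg hi]
      push_cast
      rfl
    · ring
  have hm : hat n (fun l => f l / ((Ty.outerA n).size l : ℚ)) (p + 2) = f (p + 2) := by
    unfold hat
    rw [if_pos m2]
    beta_reduce
    rw [size_outerA n _ m2, if_pos (by omega)]
    push_cast
    ring
  have e0 : p + 1 - 1 = p := by omega
  have e1 : p + 2 - 1 = p + 1 := by omega
  have e2 : p + 1 + 1 = p + 2 := rfl
  have e3 : p + 2 + 1 = p + 3 := rfl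
  rw [row_outerA n _ m1, e0, e2, hm, hh p (by omega), size_outerA n _ m1, if_neg (by omega)] at r1
  rw [row_outerA n _ m2, e1, e3, hh (p + 1) (by omega), hh (p + 3) (by omega),
    size_outerA n _ m2, if_pos (by omega), hFk (p + 3) (by omega) (by omega), ← hs,
    ← hFk (p + 1) (by omega) (by omega)] at r2
  rw [← hFk (p + 1) (by omega) (by omega)] at r1
  push_cast at r1 r2
  have h3 := hc (p + 1) le_rfl
  have h4 := hc p (by omega)
  have h5 : F 1 ∈ ZZ := by
    have e : F 1 = (2 * (2 * (F (p + 1) / 2) - f (p + 2) - F p / 2)) +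
        (1 * (2 * (f (p + 2) / 1) - F (p + 1) / 2 - F (p + 1) / 2)) -
        (F (p + 1) - ((p + 1 : ℕ) : ℚ) * F 1) + (F p - (p : ℚ) * F 1) := by
      push_cast
      ring
    rw [e]
    exact ZZ.add_mem (ZZ.sub_mem (ZZ.add_mem r1 r2) h3) h4
  have hz : ∀ k, 1 ≤ k → k ≤ p + 1 → f k = 0 := by
    intro k hk1 hk2
    have hk : k ∈ Icc 1 n := mem_Icc.2 ⟨hk1, by omega⟩
    refine zero_of_ZZ (hf.nonneg k hk) (hf.lt_one k hk) ?_
    rw [← hFk k hk1 (by omega)]
    have e : F k = (F k - (k : ℚ) * F 1) + ((k : ℤ) : ℚ) * F 1 := by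
      push_cast
      ring
    rw [e]
    exact ZZ.add_mem (hc k hk2) (mul_mem_ZZ (int_mem_ZZ _) h5)
  have hp1 : F (p + 1) = 0 := by
    rw [hFk (p + 1) (by omega) (by omega)]
    exact hz (p + 1) (by omega) le_rfl
  refine ⟨f (p + 2), ?_, ?_⟩
  · refine half_of (hf.nonneg _ m2) (hf.lt_one _ m2) ?_
    rw [hp1] at r2
    have e : 2 * f (p + 2) = 1 * (2 * (f (p + 2) / 1) - 0 / 2 - 0 / 2) := by ring
    rw [e]
    exact r2
  · intro k hk
    have hk' := mem_Icc.1 hk
    by_cases c : k = p + 2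
    · subst c
      simp [unit]
    · have hu : unit (p + 2) k = 0 := by
        simp [unit, c]
      rw [hu, zero_mul]
      by_cases c2 : k ≤ p + 1
      · exact hz k hk'.1 c2
      · rw [hf.same k hk (n + 1 - k) (mem_Icc.2 ⟨by omega, by simp only [Ty.rank]; omega⟩)
          (Or.inr (by omega))]
        exact hz (n + 1 - k) (by omega) (by omega)

theorem cond_outerA {n : ℕ} (hn : 2 ≤ n) (hf : Adm (.outerA n) f) (hf' : Adm (.outerA n) f') :
    Eqs (.outerA n) f f' N N' ↔ (Ty.outerA n).Cond f f' N N' := by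
  rcases Nat.even_or_odd' n with ⟨m, rfl | rfl⟩
  · have h1 := outerA_even (by omega) hf
    have h1' := outerA_even (by omega) hf'
    constructor
    · intro hE
      left
      exact triv_of_eqs hE fun k hk => by rw [h1 k hk, h1' k hk]
    · rintro (h | ⟨p, hp, -⟩)
      · exact eqs_of_triv h
      · omega
  · obtain ⟨p, rfl⟩ : ∃ p, m = p + 1 := ⟨m - 1, by omega⟩
    have e : 2 * (p + 1) + 1 = 2 * p + 3 := by ring
    rw [e] at hf hf' ⊢
    obtain ⟨v, hv, h1⟩ := outerA_odd hf
    obtain ⟨v', hv', h1'⟩ := outerA_odd hf'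
    have hE' : Eqs (.outerA (2 * p + 3)) f f' N N' ↔ ∀ k ∈ Icc 1 (2 * p + 3), N k - N' k =
        2 * (v - v') * (unit (p + 2) k - unit (p + 1) k - unit (p + 3) k) := by
      refine forall₂_congr fun k hk => ?_
      have hk0 : k ∈ Icc 1 (2 * p + 3) := hk
      rw [row_unit (m := p + 2) (by omega) _ (by omega) v hk0 h1,
        row_unit (m := p + 2) (by omega) _ (by omega) v' hk0 h1']
      have e1 : p + 2 - 1 = p + 1 := by omega
      rw [e1]
      have e2 : 2 * v * (unit (p + 2) k - unit (p + 1) k - unit (p + 2 + 1) k) -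
          2 * v' * (unit (p + 2) k - unit (p + 1) k - unit (p + 2 + 1) k) =
          2 * (v - v') * (unit (p + 2) k - unit (p + 1) k - unit (p + 3) k) := by ring
      rw [e2]
    constructor
    · intro hE
      have hE2 := hE'.1 hE
      rcases hv with rfl | rfl <;> rcases hv' with rfl | rfl
      · left
        exact triv_of_eqs hE fun k hk => by rw [h1 k hk, h1' k hk]
      · right
        refine ⟨p + 2, by omega, Or.inr fun k hk => ⟨by rw [h1 k hk]; ring,
          by rw [h1' k hk]; ring, ?_⟩⟩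
        have e1 : p + 2 - 1 = p + 1 := by omega
        have := hE2 k hk
        rw [e1]
        change N' k - N k = unit (p + 2) k - unit (p + 1) k - unit (p + 3) k
        linarith
      · right
        refine ⟨p + 2, by omega, Or.inl fun k hk => ⟨by rw [h1 k hk]; ring,
          by rw [h1' k hk]; ring, ?_⟩⟩
        have e1 : p + 2 - 1 = p + 1 := by omega
        have := hE2 k hk
        rw [e1]
        change N k - N' k = unit (p + 2) k - unit (p + 1) k - unit (p + 3) k
        linarith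
      · left
        exact triv_of_eqs hE fun k hk => by rw [h1 k hk, h1' k hk]
    · rintro (h | ⟨m, hm, h | h⟩)
      · exact eqs_of_triv h
      · obtain rfl : m = p + 2 := by omega
        have e1 : p + 2 - 1 = p + 1 := by omega
        rw [hE']
        have m2 : p + 2 ∈ Icc 1 (2 * p + 3) := mem_Icc.2 ⟨by omega, by omega⟩
        have u2 : unit (p + 2) (p + 2) = 1 := by simp [unit]
        have a1 := (h (p + 2) m2).1
        have a2 := (h (p + 2) m2).2.1
        rw [h1 _ m2, u2] at a1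
        rw [h1' _ m2, u2] at a2
        intro k hk
        have := (h k hk).2.2
        rw [e1] at this
        rw [this]
        have : v - v' = 1 / 2 := by linarith
        rw [this]
        ring
      · obtain rfl : m = p + 2 := by omega
        have e1 : p + 2 - 1 = p + 1 := by omega
        rw [hE']
        have m2 : p + 2 ∈ Icc 1 (2 * p + 3) := mem_Icc.2 ⟨by omega, by omega⟩
        have u2 : unit (p + 2) (p + 2) = 1 := by simp [unit]
        have a1 := (h (p + 2) m2).1
        have a2 := (h (p + 2) m2).2.1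
        rw [h1 _ m2, u2] at a1
        rw [h1' _ m2, u2] at a2
        intro k hk
        have := (h k hk).2.2
        rw [e1] at this
        have h6 : v - v' = -(1 / 2) := by linarith
        rw [h6]
        change N' k - N k = unit (p + 2) k - unit (p + 1) k - unit (p + 3) k at this
        linarith

end outer

end Pool.Agent.TH128.KC
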