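import Pool.Agent.TH128.KC.Clas

set_option autoImplicit false
set_option linter.unusedSectionVars false

/-!
# The type D
-/

namespace Pool.Agent.TH128.KC

open Finset Pool.Agent.KottwitzG

section D

variable {m : ℕ} {f f' N N' : ℕ → ℚ}

theorem fract_add_four (m : ℕ) : Int.fract (((m + 4 : ℕ) : ℚ) / 2) = Int.fract ((m : ℚ) / 2) := by
  have h1 := fract_half_succ (m + 3)
  have h2 := fract_half_succ (m + 2)
  have h3 := fract_half_succ (m + 1)
  have h4 := fract_half_succ m
  linarith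

theorem fract_add_two (m : ℕ) : Int.fract (((m + 2 : ℕ) : ℚ) / 2) = Int.fract ((m : ℚ) / 2) := by
  have h3 := fract_half_succ (m + 1)
  have h4 := fract_half_succ m
  linarith

theorem half_or (m : ℕ) : Int.fract ((m : ℚ) / 2) = 0 ∨ Int.fract ((m : ℚ) / 2) = 1 / 2 := by
  rw [fract_half]
  split_ifs
  · left
    rfl
  · right
    rfl

theorem D_leaf (hf : Adm (.D (m + 4)) f) :
    (hat (m + 4) f 1 = 0 ∧ ((f (m + 3) = 0 ∧ f (m + 4) = 0) ∨
      (f (m + 3) = 1 / 2 ∧ f (m + 4) = 1 / 2))) ∨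
    (hat (m + 4) f 1 = 1 / 2 ∧ ((f (m + 3) = Int.fract ((m : ℚ) / 2) / 2 ∧
      f (m + 4) = 1 / 2 + Int.fract ((m : ℚ) / 2) / 2) ∨
      (f (m + 3) = 1 / 2 + Int.fract ((m : ℚ) / 2) / 2 ∧
      f (m + 4) = Int.fract ((m : ℚ) / 2) / 2))) := by
  obtain ⟨hv, h1⟩ := D_vals hf
  have hrow := hf.row
  have r2 := hrow (m + 2) (mem_Icc.2 ⟨by omega, by simp only [Ty.rank]; omega⟩)
  rw [row_D m (m + 2) (mem_Icc.2 ⟨by omega, by omega⟩), if_neg (by omega), if_pos rfl] at r2
  have r3 := hrow (m + 3) (mem_Icc.2 ⟨by omega, by simp only [Ty.rank]; omega⟩)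
  rw [row_D m (m + 3) (mem_Icc.2 ⟨by omega, by omega⟩), if_neg (by omega), if_neg (by omega)] at r3
  have r4 := hrow (m + 4) (mem_Icc.2 ⟨by omega, by simp only [Ty.rank]; omega⟩)
  rw [row_D m (m + 4) (mem_Icc.2 ⟨by omega, by omega⟩), if_neg (by omega), if_neg (by omega)] at r4
  have m3 : m + 3 ∈ Icc 1 (m + 4) := mem_Icc.2 ⟨by omega, by omega⟩
  have m4 : m + 4 ∈ Icc 1 (m + 4) := mem_Icc.2 ⟨by omega, by omega⟩
  have n3 := hf.nonneg _ m3
  have l3 := hf.lt_one _ m3
  have n4 := hf.nonneg _ m4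
  have l4 := hf.lt_one _ m4
  have e2 : f (m + 2) = hat (m + 4) f (m + 2) := (hat_of _ _ (by omega) (by omega)).symm
  rw [e2] at r2 r3 r4
  rcases h1 with h1 | h1
  · left
    refine ⟨h1, ?_⟩
    have v2 : hat (m + 4) f (m + 2) = 0 := by
      rw [hv (m + 2) le_rfl, h1]
      simp
    have v1 : hat (m + 4) f (m + 1) = 0 := by
      rw [hv (m + 1) (by omega), h1]
      simp
    rw [v2, v1] at r2
    rw [v2, sub_zero] at r3 r4
    have a3 := half_of n3 l3 r3
    have a4 := half_of n4 l4 r4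
    rcases a3 with a3 | a3 <;> rcases a4 with a4 | a4
    · exact Or.inl ⟨a3, a4⟩
    · exfalso
      rw [a3, a4] at r2
      obtain ⟨z, hz⟩ := mem_ZZ.1 r2
      have : (2 * z : ℚ) = -1 := by linarith
      have : 2 * z = -1 := by exact_mod_cast this
      omega
    · exfalso
      rw [a3, a4] at r2
      obtain ⟨z, hz⟩ := mem_ZZ.1 r2
      have : (2 * z : ℚ) = -1 := by linarith
      have : 2 * z = -1 := by exact_mod_cast this
      omega
    · exact Or.inr ⟨a3, a4⟩
  · right
    refine ⟨h1, ?_⟩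
    have v2 : hat (m + 4) f (m + 2) = Int.fract ((m : ℚ) / 2) := by
      rw [hv (m + 2) le_rfl, h1, ← fract_add_two]
      congr 1
      ring
    have v1 : hat (m + 4) f (m + 1) = 1 / 2 - Int.fract ((m : ℚ) / 2) := by
      rw [hv (m + 1) (by omega), h1, ← fract_half_succ]
      congr 1
      ring
    rw [v2, v1] at r2
    rw [v2] at r3 r4
    set q := Int.fract ((m : ℚ) / 2) with hq
    have hq' := half_or m
    rw [← hq] at hq'
    have hq0 : 0 ≤ q ∧ q ≤ 1 / 2 := by
      rcases hq' with h | h <;> rw [h] <;> norm_num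
    have aux : ∀ p : ℚ, 0 ≤ p → p < 1 → 2 * p - q ∈ ZZ → p = q / 2 ∨ p = 1 / 2 + q / 2 := by
      intro p hp hp1 h
      obtain ⟨z, hz⟩ := mem_ZZ.1 h
      have z1 : (z : ℚ) < 2 := by linarith [hq0.1]
      have z2 : (-1 : ℚ) < z := by linarith [hq0.2]
      have z3 : z < 2 := by exact_mod_cast z1
      have z4 : -1 < z := by exact_mod_cast z2
      have z5 : z = 0 ∨ z = 1 := by omega
      rcases z5 with rfl | rfl
      · left
        push_cast at hz
        linarith
      · right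
        push_cast at hz
        linarith
    have a3 := aux _ n3 l3 r3
    have a4 := aux _ n4 l4 r4
    have hq2 : ∃ w : ℤ, 2 * q = w := by
      rcases hq' with h | h
      · exact ⟨0, by rw [h]; norm_num⟩
      · exact ⟨1, by rw [h]; norm_num⟩
    obtain ⟨w, hw⟩ := hq2
    rcases a3 with a3 | a3 <;> rcases a4 with a4 | a4
    · exfalso
      rw [a3, a4] at r2
      obtain ⟨z, hz⟩ := mem_ZZ.1 r2
      have : (2 * z : ℚ) = 2 * w - 1 := by linarith
      have : 2 * z = 2 * w - 1 := by exact_mod_cast this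
      omega
    · exact Or.inl ⟨a3, a4⟩
    · exact Or.inr ⟨a3, a4⟩
    · exfalso
      rw [a3, a4] at r2
      obtain ⟨z, hz⟩ := mem_ZZ.1 r2
      have : (2 * z : ℚ) = 2 * w - 3 := by linarith
      have : 2 * z = 2 * w - 3 := by exact_mod_cast this
      omega

/-- the equations -/
def Eqs (T : Ty) (f f' N N' : ℕ → ℚ) : Prop :=
  ∀ k ∈ Icc 1 T.rank, N k - N' k = T.row k f - T.row k f'

theorem eqs_of_triv {T : Ty} (h : ∀ k ∈ Icc 1 T.rank, f k = f' k ∧ N k = N' k) :
    Eqs T f f' N N' := by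
  intro k hk
  rw [row_congr T k (fun l hl => (h l hl).1), (h k hk).2, sub_self, sub_self]

theorem triv_of_eqs {T : Ty} (hE : Eqs T f f' N N') (h : ∀ k ∈ Icc 1 T.rank, f k = f' k) :
    ∀ k ∈ Icc 1 T.rank, f k = f' k ∧ N k = N' k := by
  intro k hk
  refine ⟨h k hk, ?_⟩
  have h1 := hE k hk
  rw [row_congr T k h, sub_self] at h1
  linarith

/-- the condition at nodes that carry no minuscule coweight -/
def NSZero (T : Ty) (N N' : ℕ → ℚ) : Prop := ∀ k ∈ Icc 1 T.rank, T.NS k → N k = 0 ∧ N' k = 0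

theorem row_eq_of_NS {T : Ty} (hE : Eqs T f f' N N') (hN : NSZero T N N') {k : ℕ}
    (hk : k ∈ Icc 1 T.rank) (hNS : T.NS k) : T.row k f = T.row k f' := by
  have h1 := hE k hk
  obtain ⟨h2, h3⟩ := hN k hk hNS
  rw [h2, h3] at h1
  linarith

theorem cond_D_five (hf : Adm (.D (m + 5)) f) (hf' : Adm (.D (m + 5)) f')
    (hN : NSZero (.D (m + 5)) N N') :
    Eqs (.D (m + 5)) f f' N N' ↔ (Ty.D (m + 5)).Cond f f' N N' := by
  have hrk : (Ty.D (m + 5)).rank = m + 1 + 4 := rfl
  constructor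
  · intro hE
    obtain ⟨hv, h1⟩ := D_vals (m := m + 1) hf
    obtain ⟨hv', h1'⟩ := D_vals (m := m + 1) hf'
    have k2 : m + 2 ∈ Icc 1 (m + 1 + 4) := mem_Icc.2 ⟨by omega, by omega⟩
    have k3 : m + 3 ∈ Icc 1 (m + 1 + 4) := mem_Icc.2 ⟨by omega, by omega⟩
    have k4 : m + 4 ∈ Icc 1 (m + 1 + 4) := mem_Icc.2 ⟨by omega, by omega⟩
    have k5 : m + 5 ∈ Icc 1 (m + 1 + 4) := mem_Icc.2 ⟨by omega, by omega⟩
    have d1 := row_eq_of_NS hE hN (k := m + 2) k2 (Or.inr ⟨by omega, by omega⟩)
    have d2 := row_eq_of_NS hE hN (k := m + 3) k3 (Or.inl (by omega))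
    have e1 : ∀ g : ℕ → ℚ, (Ty.D (m + 5)).row (m + 2) g =
        2 * hat (m + 1 + 4) g (m + 1 + 1) - hat (m + 1 + 4) g (m + 1 + 2) -
          hat (m + 1 + 4) g (m + 1) := by
      intro g
      rw [row_D (m + 1) (m + 2) k2, if_pos (by omega),
        hat_of (m + 1 + 4) g (l := m + 1 + 1) (by omega) (by omega),
        hat_of (m + 1 + 4) g (l := m + 1 + 2) (by omega) (by omega)]
      rfl
    have e2 : ∀ g : ℕ → ℚ, (Ty.D (m + 5)).row (m + 3) g =
        2 * hat (m + 1 + 4) g (m + 3) - hat (m + 1 + 4) g (m + 1 + 1) - g (m + 4) - g (m + 5) := by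
      intro g
      rw [row_D (m + 1) (m + 3) k3, if_neg (by omega), if_pos (by omega),
        hat_of (m + 1 + 4) g (l := m + 3) (by omega) (by omega)]
    rw [e1, e1] at d1
    rw [e2, e2] at d2
    have key := eq_half hv hv' h1 h1' (m + 1) le_rfl d1
    rw [key (m + 3) (by omega), key (m + 1 + 1) (by omega)] at d2
    have key' : ∀ k, 1 ≤ k → k ≤ m + 3 → f k = f' k := by
      intro k hk1 hk2
      have := key k (by omega)
      rwa [hat_of (m + 1 + 4) f hk1 (by omega), hat_of (m + 1 + 4) f' hk1 (by omega)] at this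
    have b1 := D_leaf (m := m + 1) hf
    have b1' := D_leaf (m := m + 1) hf'
    have q2 : m + 1 + 3 = m + 4 := rfl
    have q3 : m + 1 + 4 = m + 5 := rfl
    rw [q2, q3] at b1 b1'
    rw [q3] at key
    have hq : ((m + 1 : ℕ) : ℚ) / 2 = ((m + 1 : ℕ) : ℚ) / 2 := rfl
    have fin : f (m + 4) = f' (m + 4) → f (m + 5) = f' (m + 5) →
        (Ty.D (m + 5)).Cond f f' N N' := by
      intro g4 g5
      left
      refine triv_of_eqs hE fun k hk => ?_
      simp only [Ty.rank, mem_Icc] at hk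
      by_cases hk3 : k ≤ m + 3
      · exact key' k hk.1 hk3
      · by_cases hk4 : k = m + 4
        · rw [hk4, g4]
        · obtain rfl : k = m + 5 := by omega
          exact g5
    have fin2 : hat (m + 5) f 1 = 1 / 2 → ∀ j l, ((j = m + 5 ∧ l = m + 4) ∨
        (j = m + 4 ∧ l = m + 5)) → f l = 1 / 2 + Int.fract (((m + 1 : ℕ) : ℚ) / 2) / 2 →
        f j = Int.fract (((m + 1 : ℕ) : ℚ) / 2) / 2 →
        f' j = 1 / 2 + Int.fract (((m + 1 : ℕ) : ℚ) / 2) / 2 →
        f' l = Int.fract (((m + 1 : ℕ) : ℚ) / 2) / 2 → (Ty.D (m + 5)).Cond f f' N N' := by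
      intro hh j l hjl g1 g2 g3 g4
      right
      right
      have hfr : Int.fract (((m + 5 : ℕ) : ℚ) / 2) = Int.fract (((m + 1 : ℕ) : ℚ) / 2) :=
        fract_add_four (m + 1)
      have rD : ∀ k, k = m + 4 ∨ k = m + 5 → ∀ g : ℕ → ℚ, (Ty.D (m + 5)).row k g =
          2 * g k - g (m + 3) := by
        intro k hk g
        rw [row_D (m + 1) k (by
          rcases hk with rfl | rfl
          · exact k4
          · exact k5), if_neg (by omega), if_neg (by omega)]
      refine ⟨by omega, j, l, ?_, ?_, ?_, ?_, ?_, ?_, ?_, ?_⟩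
      · rcases hjl with ⟨a, b⟩ | ⟨a, b⟩
        · exact Or.inl ⟨a, by omega⟩
        · exact Or.inr ⟨by omega, b⟩
      · intro k hk
        have e : m + 5 - 2 = m + 3 := by omega
        rw [e, mem_Icc] at hk
        have f1 : f k = Int.fract ((k : ℚ) / 2) := by
          rw [← hat_of (m + 5) f hk.1 (by omega)]
          have := hv k (by omega)
          rw [q3] at this
          rw [this, hh]
          congr 1
          ring
        refine ⟨f1, by rw [← key' k hk.1 hk.2, f1], ?_⟩
        have hk' : k ∈ Icc 1 (m + 1 + 4) := mem_Icc.2 ⟨hk.1, by omega⟩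
        have h5 := hE k hk'
        have hhat : hat (m + 1 + 4) f (k - 1) = hat (m + 1 + 4) f' (k - 1) := by
          rw [q3]
          exact key (k - 1) (by omega)
        by_cases c1 : k < m + 3
        · rw [row_D (m + 1) k hk', row_D (m + 1) k hk', if_pos (by omega), if_pos (by omega),
            hhat, key' k hk.1 hk.2, key' (k + 1) (by omega) (by omega), sub_self] at h5
          linarith
        · obtain rfl : k = m + 3 := by omega
          rw [e2, e2] at h5
          linarith [key (m + 3) (by omega), key (m + 1 + 1) (by omega)]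
      · rw [hfr, g1]
      · rw [hfr, g2]
      · rw [hfr, g3]
      · rw [hfr, g4]
      · have hl : l = m + 4 ∨ l = m + 5 := by omega
        have h5 := hE l (by
          rcases hl with rfl | rfl
          · exact k4
          · exact k5)
        rw [rD l hl, rD l hl, key' (m + 3) (by omega) le_rfl, g1, g4] at h5
        linarith
      · have hj : j = m + 4 ∨ j = m + 5 := by omega
        have h5 := hE j (by
          rcases hj with rfl | rfl
          · exact k4
          · exact k5)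
        rw [rD j hj, rD j hj, key' (m + 3) (by omega) le_rfl, g2, g3] at h5
        linarith
    have k1 : hat (m + 5) f 1 = hat (m + 5) f' 1 := key 1 (by omega)
    rcases b1 with ⟨c0, c1⟩ | ⟨c0, c1⟩ <;> rcases b1' with ⟨c0', c1'⟩ | ⟨c0', c1'⟩
    · have s1 : f (m + 4) + f (m + 5) = f' (m + 4) + f' (m + 5) := by linarith
      rcases c1 with ⟨x1, x2⟩ | ⟨x1, x2⟩ <;> rcases c1' with ⟨y1, y2⟩ | ⟨y1, y2⟩
      · exact fin (by rw [x1, y1]) (by rw [x2, y2])
      · exfalso
        rw [x1, x2, y1, y2] at s1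
        norm_num at s1
      · exfalso
        rw [x1, x2, y1, y2] at s1
        norm_num at s1
      · exact fin (by rw [x1, y1]) (by rw [x2, y2])
    · exfalso
      rw [c0, c0'] at k1
      norm_num at k1
    · exfalso
      rw [c0, c0'] at k1
      norm_num at k1
    · rcases c1 with ⟨x1, x2⟩ | ⟨x1, x2⟩ <;> rcases c1' with ⟨y1, y2⟩ | ⟨y1, y2⟩
      · exact fin (by rw [x1, y1]) (by rw [x2, y2])
      · exact fin2 c0 (m + 4) (m + 5) (Or.inr ⟨rfl, rfl⟩) x2 x1 y1 y2
      · exact fin2 c0 (m + 5) (m + 4) (Or.inl ⟨rfl, rfl⟩) x1 x2 y2 y1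
      · exact fin (by rw [x1, y1]) (by rw [x2, y2])
  · rintro (h | ⟨h, -⟩ | ⟨-, j, l, hjl, hk, g1, g2, g3, g4, g5, g6⟩)
    · exact eqs_of_triv h
    · omega
    · intro k hk'
      have e : m + 5 - 2 = m + 3 := by omega
      rw [e] at hk
      have hjl' : (j = m + 5 ∧ l = m + 4) ∨ (j = m + 4 ∧ l = m + 5) := by omega
      have hk'' : k ∈ Icc 1 (m + 1 + 4) := hk'
      rw [row_D (m + 1) k hk'', row_D (m + 1) k hk'']
      rw [mem_Icc] at hk''
      have hff : ∀ i, 1 ≤ i → i ≤ m + 3 → f i = f' i ∧ N i = N' i := by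
        intro i hi1 hi2
        obtain ⟨a, b, c⟩ := hk i (mem_Icc.2 ⟨hi1, hi2⟩)
        exact ⟨by rw [a, b], c⟩
      have hhat : ∀ i, i ≤ m + 3 → hat (m + 1 + 4) f i = hat (m + 1 + 4) f' i := by
        intro i hi
        rcases Nat.eq_zero_or_pos i with rfl | hi0
        · rw [hat_zero, hat_zero]
        · rw [hat_of _ _ hi0 (by omega), hat_of _ _ hi0 (by omega), (hff i hi0 hi).1]
      by_cases c1 : k < m + 1 + 2
      · rw [if_pos c1, if_pos c1, hhat (k - 1) (by omega), (hff k hk''.1 (by omega)).1,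
          (hff (k + 1) (by omega) (by omega)).1, (hff k hk''.1 (by omega)).2]
        ring
      · rw [if_neg c1, if_neg c1]
        by_cases c2 : k = m + 1 + 2
        · rw [if_pos c2, if_pos c2, hhat (m + 1 + 1) (by omega),
            (hff (m + 1 + 2) (by omega) (by omega)).1, c2, (hff (m + 1 + 2) (by omega)
            (by omega)).2]
          have q2 : m + 1 + 3 = m + 4 := rfl
          have q3 : m + 1 + 4 = m + 5 := rfl
          rw [q2, q3]
          rcases hjl' with ⟨rfl, rfl⟩ | ⟨rfl, rfl⟩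
          · rw [g1, g2, g3, g4]
            ring
          · rw [g1, g2, g3, g4]
            ring
        · rw [if_neg c2, if_neg c2, (hff (m + 1 + 2) (by omega) (by omega)).1]
          have c3 : k = j ∨ k = l := by omega
          rcases c3 with rfl | rfl
          · rw [g6, g2, g3]
            ring
          · rw [g5, g1, g4]
            ring

end D

end Pool.Agent.TH128.KC
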