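import Pool.Agent.TH128.KC.TyD

set_option autoImplicit false
set_option linter.unusedSectionVars false

/-!
# The types D4, triality, outer D
-/

namespace Pool.Agent.TH128.KC

open Finset Pool.Agent.KottwitzG

variable {f f' N N' : ℕ → ℚ}

theorem D4_vals (hf : Adm (.D 4) f) : f 2 = 0 ∧
    ((f 1 = 0 ∧ f 3 = 0 ∧ f 4 = 0) ∨ (f 1 = 0 ∧ f 3 = 1 / 2 ∧ f 4 = 1 / 2) ∨
    (f 1 = 1 / 2 ∧ f 3 = 0 ∧ f 4 = 1 / 2) ∨ (f 1 = 1 / 2 ∧ f 3 = 1 / 2 ∧ f 4 = 0)) := by
  obtain ⟨hv, h1⟩ := D_vals (m := 0) hf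
  have b1 := D_leaf (m := 0) hf
  have e1 : hat (0 + 4) f 1 = f 1 := hat_of _ _ (by omega) (by omega)
  have e2 : hat (0 + 4) f 2 = f 2 := hat_of _ _ (by omega) (by omega)
  have h2 := hv 2 (by omega)
  rw [e1] at h1 h2 b1
  rw [e2] at h2
  have hz : Int.fract (((0 : ℕ) : ℚ) / 2) = 0 := by norm_num
  rw [hz] at b1
  simp only [zero_add] at b1
  have h20 : f 2 = 0 := by
    rw [h2]
    rcases h1 with h1 | h1
    · rw [h1]
      norm_num
    · rw [h1]
      norm_num
  refine ⟨h20, ?_⟩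
  norm_num at b1
  tauto

theorem row_D4 (k : ℕ) (hk : k ∈ Icc 1 4) (g : ℕ → ℚ) : (Ty.D 4).row k g =
    if k = 2 then 2 * g 2 - g 1 - g 3 - g 4 else 2 * g k - g 2 := by
  have h1 := row_D 0 k hk g
  simp only [zero_add] at h1
  rw [h1]
  rw [mem_Icc] at hk
  by_cases c1 : k = 2
  · subst c1
    rw [if_neg (by omega), if_pos rfl, if_pos rfl, hat_of 4 g (l := 1) (by omega) (by omega)]
  · simp only [if_neg c1]
    by_cases c2 : k < 2
    · obtain rfl : k = 1 := by omega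
      rw [if_pos c2, hat_zero]
      ring
    · rw [if_neg c2]

theorem cond_D_four (hf : Adm (.D 4) f) (hf' : Adm (.D 4) f')
    (hN : NSZero (.D 4) N N') :
    Eqs (.D 4) f f' N N' ↔ (Ty.D 4).Cond f f' N N' := by
  constructor
  · intro hE
    obtain ⟨h2, ha⟩ := D4_vals hf
    obtain ⟨h2', ha'⟩ := D4_vals hf'
    have k2 : 2 ∈ Icc 1 4 := mem_Icc.2 ⟨by omega, by omega⟩
    have d2 := row_eq_of_NS hE hN (k := 2) k2 (Or.inl (by omega))
    rw [row_D4 2 k2, row_D4 2 k2, if_pos rfl, if_pos rfl, h2, h2'] at d2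
    have fin : f 1 = f' 1 → f 3 = f' 3 → f 4 = f' 4 → (Ty.D 4).Cond f f' N N' := by
      intro g1 g3 g4
      left
      refine triv_of_eqs hE fun k hk => ?_
      simp only [Ty.rank, mem_Icc] at hk
      have : k = 1 ∨ k = 2 ∨ k = 3 ∨ k = 4 := by omega
      rcases this with rfl | rfl | rfl | rfl
      · exact g1
      · rw [h2, h2']
      · exact g3
      · exact g4
    have fin2 : ∀ j l, j ∈ [1, 3, 4] → l ∈ [1, 3, 4] → j ≠ l →
        (∀ k ∈ [1, 3, 4], f k = (1 - unit j k) / 2 ∧ f' k = (1 - unit l k) / 2) →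
        (Ty.D 4).Cond f f' N N' := by
      intro j l hj hl hjl hh
      right
      left
      refine ⟨rfl, j, l, hj, hl, hjl, fun k hk => ?_⟩
      have hE' := hE k hk
      rw [row_D4 k hk, row_D4 k hk] at hE'
      have hj2 : ¬ 2 = j := by
        rintro rfl
        simp at hj
      have hl2 : ¬ 2 = l := by
        rintro rfl
        simp at hl
      by_cases c : k = 2
      · subst c
        rw [if_pos rfl, if_pos rfl, h2, h2'] at hE'
        refine ⟨?_, ?_, ?_⟩
        · rw [h2]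
          simp [unit, hj2]
        · rw [h2']
          simp [unit, hl2]
        · rw [hE']
          have : unit l 2 - unit j 2 = 0 := by simp [unit, hj2, hl2]
          rw [this]
          linarith
      · have hk3 : k ∈ [1, 3, 4] := by
          rw [mem_Icc] at hk
          have : k = 1 ∨ k = 3 ∨ k = 4 := by omega
          rcases this with rfl | rfl | rfl <;> simp
        obtain ⟨x1, x2⟩ := hh k hk3
        have hu : unit 2 k = 0 := by
          simp [unit, c]
        rw [if_neg c, if_neg c, h2, h2', x1, x2] at hE'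
        refine ⟨by rw [x1, hu, sub_zero], by rw [x2, hu, sub_zero], ?_⟩
        rw [hE']
        ring
    have mk : ∀ j l, j ∈ [1, 3, 4] → l ∈ [1, 3, 4] → j ≠ l →
        (f 1 = (1 - unit j 1) / 2 ∧ f 3 = (1 - unit j 3) / 2 ∧ f 4 = (1 - unit j 4) / 2) →
        (f' 1 = (1 - unit l 1) / 2 ∧ f' 3 = (1 - unit l 3) / 2 ∧ f' 4 = (1 - unit l 4) / 2) →
        (Ty.D 4).Cond f f' N N' := by
      intro j l hj hl hjl h1 h3
      refine fin2 j l hj hl hjl fun k hk => ?_
      simp only [List.mem_cons, List.not_mem_nil, or_false] at hk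
      rcases hk with rfl | rfl | rfl
      · exact ⟨h1.1, h3.1⟩
      · exact ⟨h1.2.1, h3.2.1⟩
      · exact ⟨h1.2.2, h3.2.2⟩
    have u0 : ∀ j k, j ≠ k → (1 - unit j k) / 2 = 1 / 2 := by
      intro j k h
      simp [unit, h.symm]
    have u1 : ∀ j, (1 - unit j j) / 2 = 0 := by
      intro j
      simp [unit]
    have hv : ∀ g : ℕ → ℚ, ((g 1 = 0 ∧ g 3 = 0 ∧ g 4 = 0) ∨ (g 1 = 0 ∧ g 3 = 1 / 2 ∧ g 4 = 1 / 2) ∨
        (g 1 = 1 / 2 ∧ g 3 = 0 ∧ g 4 = 1 / 2) ∨ (g 1 = 1 / 2 ∧ g 3 = 1 / 2 ∧ g 4 = 0)) →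
        (g 1 = 0 ∧ g 3 = 0 ∧ g 4 = 0) ∨ ∃ j ∈ [1, 3, 4], (g 1 = (1 - unit j 1) / 2 ∧
          g 3 = (1 - unit j 3) / 2 ∧ g 4 = (1 - unit j 4) / 2) := by
      intro g hg
      rcases hg with h | ⟨a, b, c⟩ | ⟨a, b, c⟩ | ⟨a, b, c⟩
      · exact Or.inl h
      · exact Or.inr ⟨1, by simp, by rw [a, u1], by rw [b, u0 1 3 (by omega)],
          by rw [c, u0 1 4 (by omega)]⟩
      · exact Or.inr ⟨3, by simp, by rw [a, u0 3 1 (by omega)], by rw [b, u1],
          by rw [c, u0 3 4 (by omega)]⟩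
      · exact Or.inr ⟨4, by simp, by rw [a, u0 4 1 (by omega)], by rw [b, u0 4 3 (by omega)],
          by rw [c, u1]⟩
    have hs : ∀ g : ℕ → ℚ, ∀ j ∈ [1, 3, 4], (g 1 = (1 - unit j 1) / 2 ∧
          g 3 = (1 - unit j 3) / 2 ∧ g 4 = (1 - unit j 4) / 2) → g 1 + g 3 + g 4 = 1 := by
      intro g j hj hg
      simp only [List.mem_cons, List.not_mem_nil, or_false] at hj
      rcases hj with rfl | rfl | rfl <;> obtain ⟨a, b, c⟩ := hg <;> rw [a, b, c] <;>
        norm_num [unit]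
    rcases hv f ha with ⟨a1, a3, a4⟩ | ⟨j, hj, hg⟩ <;>
      rcases hv f' ha' with ⟨b1, b3, b4⟩ | ⟨l, hl, hg'⟩
    · exact fin (by rw [a1, b1]) (by rw [a3, b3]) (by rw [a4, b4])
    · exfalso
      have := hs f' l hl hg'
      linarith
    · exfalso
      have := hs f j hj hg
      linarith
    · by_cases hjl : j = l
      · subst hjl
        exact fin (by rw [hg.1, hg'.1]) (by rw [hg.2.1, hg'.2.1]) (by rw [hg.2.2, hg'.2.2])
      · exact mk j l hj hl hjl hg hg'
  · rintro (h | ⟨-, j, l, hj, hl, hjl, hh⟩ | ⟨h, -⟩)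
    · exact eqs_of_triv h
    · intro k hk
      have hk' : k ∈ Icc 1 4 := hk
      rw [row_D4 k hk', row_D4 k hk']
      obtain ⟨x1, x2, x3⟩ := hh k hk'
      obtain ⟨y1, y2, -⟩ := hh 1 (by simp)
      obtain ⟨z1, z2, -⟩ := hh 2 (by simp)
      obtain ⟨v1, v2, -⟩ := hh 3 (by simp)
      obtain ⟨w1, w2, -⟩ := hh 4 (by simp)
      rw [x3]
      have hj2 : unit j 2 = 0 := by
        unfold unit
        rw [if_neg]
        rintro rfl
        simp at hj
      have hl2 : unit l 2 = 0 := by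
        unfold unit
        rw [if_neg]
        rintro rfl
        simp at hl
      have h22 : unit 2 2 = 1 := by simp [unit]
      by_cases c : k = 2
      · subst c
        rw [if_pos rfl, if_pos rfl, y1, y2, z1, z2, v1, v2, w1, w2]
        have s : ∀ i ∈ [1, 3, 4], unit i 1 + unit i 3 + unit i 4 = 1 := by
          intro i hi
          simp only [List.mem_cons, List.not_mem_nil, or_false] at hi
          rcases hi with rfl | rfl | rfl <;> norm_num [unit]
        have s1 := s j hj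
        have s2 := s l hl
        rw [hj2, hl2, h22]
        linarith
      · rw [if_neg c, if_neg c, x1, x2, z1, z2, hj2, hl2, h22]
        ring
    · omega

theorem cond_D {n : ℕ} (hn : 4 ≤ n) (hf : Adm (.D n) f) (hf' : Adm (.D n) f')
    (hN : NSZero (.D n) N N') :
    Eqs (.D n) f f' N N' ↔ (Ty.D n).Cond f f' N N' := by
  rcases Nat.lt_or_ge n 5 with h | h
  · obtain rfl : n = 4 := by omega
    exact cond_D_four hf hf' hN
  · obtain ⟨m, rfl⟩ : ∃ m, n = m + 5 := ⟨n - 5, by omega⟩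
    exact cond_D_five hf hf' hN

section outer

variable {m : ℕ}

theorem size_outerD (m k : ℕ) (hk : k ∈ Icc 1 (m + 4)) :
    (Ty.outerD (m + 4)).size k = if k < m + 3 then 1 else 2 := by
  rw [mem_Icc] at hk
  unfold Ty.size
  split_ifs with h
  · rw [Finset.card_eq_one]
    refine ⟨k, ?_⟩
    ext l
    rw [mem_filter, mem_Icc, mem_singleton]
    simp only [Ty.rank, Ty.Same]
    omega
  · rw [Finset.card_eq_two]
    refine ⟨m + 3, m + 4, by omega, ?_⟩
    ext l
    rw [mem_filter, mem_Icc, mem_insert, mem_singleton]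
    simp only [Ty.rank, Ty.Same]
    omega

theorem row_outerD (m k : ℕ) (hk : k ∈ Icc 1 (m + 4)) (x : ℕ → ℚ) (hx : x (m + 3) = x (m + 4)) :
    (Ty.outerD (m + 4)).row k x =
      if k < m + 2 then 2 * x k - x (k + 1) - hat (m + 4) x (k - 1)
      else if k = m + 2 then 2 * x (m + 2) - hat (m + 4) x (m + 1) - x (m + 3)
      else 2 * x k - 2 * x (m + 2) := by
  have hs := fun l hl => size_outerD m l hl
  have h1 : (Ty.outerD (m + 4)).row k x = ((Ty.outerD (m + 4)).size k : ℚ) *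
      ∑ l ∈ Icc 1 (m + 4), (typeD (m + 4) k l : ℚ) *
        (x l / ((Ty.outerD (m + 4)).size l : ℚ)) := by
    unfold Ty.row
    rw [Finset.mul_sum]
    refine Finset.sum_congr rfl fun l hl => ?_
    simp only [Ty.cartan]
    ring
  rw [h1, sum_D m k hk]
  have hk' := hk
  rw [mem_Icc] at hk'
  rw [hs k hk]
  have m2 : m + 2 ∈ Icc 1 (m + 4) := mem_Icc.2 ⟨by omega, by omega⟩
  have m3 : m + 3 ∈ Icc 1 (m + 4) := mem_Icc.2 ⟨by omega, by omega⟩
  have m4 : m + 4 ∈ Icc 1 (m + 4) := mem_Icc.2 ⟨by omega, by omega⟩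
  have hhat : ∀ i, i < m + 3 → hat (m + 4) (fun l => x l / ((Ty.outerD (m + 4)).size l : ℚ)) i =
      hat (m + 4) x i := by
    intro i hi
    rcases Nat.eq_zero_or_pos i with rfl | hi0
    · rw [hat_zero, hat_zero]
    · rw [hat_of _ _ hi0 (by omega), hat_of _ _ hi0 (by omega),
        hs i (mem_Icc.2 ⟨hi0, by omega⟩), if_pos hi]
      norm_num
  by_cases c1 : k < m + 2
  · rw [if_pos c1, if_pos c1, hhat (k - 1) (by omega), if_pos (by omega),
      hs (k + 1) (mem_Icc.2 ⟨by omega, by omega⟩), if_pos (by omega)]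
    push_cast
    ring
  · rw [if_neg c1, if_neg c1]
    by_cases c2 : k = m + 2
    · rw [if_pos c2, if_pos c2, if_pos (by omega), hs _ m2, hs _ m3, hs _ m4, if_pos (by omega),
        if_neg (by omega), if_neg (by omega), hhat (m + 1) (by omega), hx]
      push_cast
      ring
    · rw [if_neg c2, if_neg c2, if_neg (by omega), hs _ m2, if_pos (by omega)]
      push_cast
      ring

theorem outerD_vals (hf : Adm (.outerD (m + 4)) f) : (∀ k, k ≤ m + 3 → hat (m + 4) f k =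
    Int.fract ((k : ℚ) * hat (m + 4) f 1)) ∧ (hat (m + 4) f 1 = 0 ∨ hat (m + 4) f 1 = 1 / 2) := by
  have hx : f (m + 3) = f (m + 4) := hf.same (m + 3) (mem_Icc.2 ⟨by omega, by
    simp only [Ty.rank]; omega⟩) (m + 4) (mem_Icc.2 ⟨by omega, by
    simp only [Ty.rank]; omega⟩) (Or.inr ⟨by omega, by omega⟩)
  set F := hat (m + 4) f with hF
  have hF0 : F 0 = 0 := hat_zero _ _
  have hFk : ∀ k, 1 ≤ k → k ≤ m + 4 → F k = f k := fun k h1 h2 => hat_of _ _ h1 h2
  have hrow := hf.row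
  have hc := chain (F := F) (m := m + 3) hF0 (fun k h1 h2 => by
    have h3 := hrow k (mem_Icc.2 ⟨h1, by simp only [Ty.rank]; omega⟩)
    rw [row_outerD m k (mem_Icc.2 ⟨h1, by omega⟩) f hx] at h3
    by_cases c : k < m + 2
    · rw [if_pos c, ← hFk k h1 (by omega), ← hFk (k + 1) (by omega) (by omega)] at h3
      exact h3
    · obtain rfl : k = m + 2 := by omega
      rw [if_neg c, if_pos rfl, ← hFk (m + 2) h1 (by omega),
        ← hFk (m + 3) (by omega) (by omega), ← hF] at h3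
      have e : m + 2 - 1 = m + 1 := by omega
      have e' : m + 2 + 1 = m + 3 := rfl
      rw [e, e']
      have e2 : 2 * F (m + 2) - F (m + 3) - F (m + 1) = 2 * F (m + 2) - F (m + 1) - F (m + 3) := by
        ring
      rw [e2]
      exact h3)
  have r4 := hrow (m + 3) (mem_Icc.2 ⟨by omega, by simp only [Ty.rank]; omega⟩)
  rw [row_outerD m (m + 3) (mem_Icc.2 ⟨by omega, by omega⟩) f hx, if_neg (by omega),
    if_neg (by omega), ← hFk (m + 3) (by omega) (by omega),
    ← hFk (m + 2) (by omega) (by omega)] at r4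
  have h3 := hc (m + 3) le_rfl
  have h4 := hc (m + 2) (by omega)
  have hnn : ∀ k, k ≤ m + 3 → 0 ≤ F k ∧ F k < 1 := by
    intro k hk
    rcases Nat.eq_zero_or_pos k with rfl | hk0
    · rw [hF0]
      norm_num
    · rw [hFk k hk0 (by omega)]
      have hk' : k ∈ Icc 1 (m + 4) := mem_Icc.2 ⟨hk0, by omega⟩
      exact ⟨hf.nonneg k hk', hf.lt_one k hk'⟩
  refine ⟨fun k hk => fract_of (hnn k hk).1 (hnn k hk).2 (hc k hk), ?_⟩
  refine half_of (hnn 1 (by omega)).1 (hnn 1 (by omega)).2 ?_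
  have e : 2 * F 1 = (2 * F (m + 3) - 2 * F (m + 2)) -
      (F (m + 3) - ((m + 3 : ℕ) : ℚ) * F 1) - (F (m + 3) - ((m + 3 : ℕ) : ℚ) * F 1) +
      (F (m + 2) - ((m + 2 : ℕ) : ℚ) * F 1) + (F (m + 2) - ((m + 2 : ℕ) : ℚ) * F 1) := by
    push_cast
    ring
  rw [e]
  exact ZZ.add_mem (ZZ.add_mem (ZZ.sub_mem (ZZ.sub_mem r4 h3) h3) h4) h4

theorem eq_outerD (hf : Adm (.outerD (m + 4)) f) (hf' : Adm (.outerD (m + 4)) f')
    (hδ : (Ty.outerD (m + 4)).row (m + 2) f = (Ty.outerD (m + 4)).row (m + 2) f') :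
    ∀ k ∈ Icc 1 (m + 4), f k = f' k := by
  have hx : ∀ g : ℕ → ℚ, Adm (.outerD (m + 4)) g → g (m + 3) = g (m + 4) := fun g hg =>
    hg.same (m + 3) (mem_Icc.2 ⟨by omega, by
    simp only [Ty.rank]; omega⟩) (m + 4) (mem_Icc.2 ⟨by omega, by
    simp only [Ty.rank]; omega⟩) (Or.inr ⟨by omega, by omega⟩)
  obtain ⟨h1, h2⟩ := outerD_vals hf
  obtain ⟨h1', h2'⟩ := outerD_vals hf'
  have key := eq_half h1 h1' h2 h2' (m + 1) (by omega) (by
    have k2 : m + 2 ∈ Icc 1 (m + 4) := mem_Icc.2 ⟨by omega, by omega⟩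
    rw [row_outerD m (m + 2) k2 f (hx f hf), row_outerD m (m + 2) k2 f' (hx f' hf'),
      if_neg (by omega), if_pos rfl, if_neg (by omega), if_pos rfl,
      ← hat_of (m + 4) f (l := m + 2) (by omega) (by omega),
      ← hat_of (m + 4) f' (l := m + 2) (by omega) (by omega),
      ← hat_of (m + 4) f (l := m + 3) (by omega) (by omega),
      ← hat_of (m + 4) f' (l := m + 3) (by omega) (by omega)] at hδ
    have e : m + 1 + 1 = m + 2 := rfl
    have e' : m + 1 + 2 = m + 3 := rfl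
    rw [e, e']
    linarith)
  have key' : ∀ k, 1 ≤ k → k ≤ m + 3 → f k = f' k := by
    intro k hk1 hk2
    rw [← hat_of (m + 4) f hk1 (by omega), ← hat_of (m + 4) f' hk1 (by omega)]
    exact key k hk2
  intro k hk
  rw [mem_Icc] at hk
  by_cases c : k ≤ m + 3
  · exact key' k hk.1 c
  · obtain rfl : k = m + 4 := by omega
    rw [← hx f hf, ← hx f' hf']
    exact key' (m + 3) (by omega) le_rfl

end outer

end Pool.Agent.TH128.KC
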