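import Pool.Agent.TH128.KC.TyA

set_option autoImplicit false
set_option linter.unusedSectionVars false
set_option linter.style.multiGoal false
set_option linter.unusedSimpArgs false

/-!
# The exceptional types
-/

namespace Pool.Agent.TH128.KC

open Finset Pool.Agent.KottwitzG

theorem vals_aux {T : Ty} {f : ℕ → ℚ} (hf : Adm T f) {d : ℕ} (hd : 0 < d)
    (key : ∀ k ∈ Icc 1 T.rank, ∃ F : ℤ, (d : ℚ) * f k = F) :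
    ∃ F z : ℕ → ℤ, (∀ k ∈ Icc 1 T.rank, (d : ℚ) * f k = F k ∧ 0 ≤ F k ∧ F k < (d : ℤ) ∧
      T.row k f = z k) := by
  classical
  have h1 : ∀ k, ∃ F z : ℤ, k ∈ Icc 1 T.rank → (d : ℚ) * f k = F ∧ 0 ≤ F ∧ F < (d : ℤ) ∧
      T.row k f = z := by
    intro k
    by_cases hk : k ∈ Icc 1 T.rank
    · obtain ⟨F, hF⟩ := key k hk
      obtain ⟨z, hz⟩ := mem_ZZ.1 (hf.row k hk)
      refine ⟨F, z, fun _ => ⟨hF, ?_, ?_, hz⟩⟩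
      · have h1 : (0 : ℚ) ≤ F := by
          rw [← hF]
          exact mul_nonneg (Nat.cast_nonneg _) (hf.nonneg k hk)
        exact_mod_cast h1
      · have h1 : (F : ℚ) < (d : ℤ) := by
          rw [← hF, Int.cast_natCast]
          have : (0 : ℚ) < d := by exact_mod_cast hd
          nlinarith [hf.lt_one k hk]
        exact_mod_cast h1
    · exact ⟨0, 0, fun h => absurd h hk⟩
  choose F z h using h1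
  exact ⟨F, z, fun k hk => h k hk⟩

theorem row_E6 (x : ℕ → ℚ) :
    (Ty.E6).row 1 x = 2 * x 1 - x 3 ∧
    (Ty.E6).row 2 x = 2 * x 2 - x 4 ∧
    (Ty.E6).row 3 x = -x 1 + 2 * x 3 - x 4 ∧
    (Ty.E6).row 4 x = -x 2 - x 3 + 2 * x 4 - x 5 ∧
    (Ty.E6).row 5 x = -x 4 + 2 * x 5 - x 6 ∧
    (Ty.E6).row 6 x = -x 5 + 2 * x 6 := by
  refine ⟨?_, ?_, ?_, ?_, ?_, ?_⟩
  all_goals
    rw [row_inner .E6 (fun _ _ => Iff.rfl) (mem_Icc.2 ⟨by norm_num, by norm_num [Ty.rank]⟩)]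
    simp only [Ty.rank, Ty.cartan, typeE, chainC]
    simp [Finset.sum_Icc_succ_top]
    try ring

theorem vals_E6 {f : ℕ → ℚ} (hf : Adm .E6 f) :
    ∃ F z : ℕ → ℤ, (∀ k ∈ Icc 1 (Ty.E6).rank, 3 * f k = F k ∧ 0 ≤ F k ∧ F k < 3 ∧
      (Ty.E6).row k f = z k) := by
  have hrow := hf.row
  obtain ⟨e1, e2, e3, e4, e5, e6⟩ := row_E6 f
  have m1 : 1 ∈ Icc 1 (Ty.E6).rank := mem_Icc.2 ⟨by norm_num, by norm_num [Ty.rank]⟩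
  have h1 := hrow 1 m1
  have m2 : 2 ∈ Icc 1 (Ty.E6).rank := mem_Icc.2 ⟨by norm_num, by norm_num [Ty.rank]⟩
  have h2 := hrow 2 m2
  have m3 : 3 ∈ Icc 1 (Ty.E6).rank := mem_Icc.2 ⟨by norm_num, by norm_num [Ty.rank]⟩
  have h3 := hrow 3 m3
  have m4 : 4 ∈ Icc 1 (Ty.E6).rank := mem_Icc.2 ⟨by norm_num, by norm_num [Ty.rank]⟩
  have h4 := hrow 4 m4
  have m5 : 5 ∈ Icc 1 (Ty.E6).rank := mem_Icc.2 ⟨by norm_num, by norm_num [Ty.rank]⟩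
  have h5 := hrow 5 m5
  have m6 : 6 ∈ Icc 1 (Ty.E6).rank := mem_Icc.2 ⟨by norm_num, by norm_num [Ty.rank]⟩
  have h6 := hrow 6 m6
  obtain ⟨z1, hz1⟩ := mem_ZZ.1 h1
  have g1 := hz1
  rw [e1] at g1
  obtain ⟨z2, hz2⟩ := mem_ZZ.1 h2
  have g2 := hz2
  rw [e2] at g2
  obtain ⟨z3, hz3⟩ := mem_ZZ.1 h3
  have g3 := hz3
  rw [e3] at g3
  obtain ⟨z4, hz4⟩ := mem_ZZ.1 h4
  have g4 := hz4
  rw [e4] at g4
  obtain ⟨z5, hz5⟩ := mem_ZZ.1 h5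
  have g5 := hz5
  rw [e5] at g5
  obtain ⟨z6, hz6⟩ := mem_ZZ.1 h6
  have g6 := hz6
  rw [e6] at g6
  have v1 : 3 * f 1 = ((4 * z1 + 3 * z2 + 5 * z3 + 6 * z4 + 4 * z5 + 2 * z6 : ℤ) : ℚ) := by push_cast; linarith
  have v2 : 3 * f 2 = ((3 * z1 + 6 * z2 + 6 * z3 + 9 * z4 + 6 * z5 + 3 * z6 : ℤ) : ℚ) := by push_cast; linarith
  have v3 : 3 * f 3 = ((5 * z1 + 6 * z2 + 10 * z3 + 12 * z4 + 8 * z5 + 4 * z6 : ℤ) : ℚ) := by push_cast; linarith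
  have v4 : 3 * f 4 = ((6 * z1 + 9 * z2 + 12 * z3 + 18 * z4 + 12 * z5 + 6 * z6 : ℤ) : ℚ) := by push_cast; linarith
  have v5 : 3 * f 5 = ((4 * z1 + 6 * z2 + 8 * z3 + 12 * z4 + 10 * z5 + 5 * z6 : ℤ) : ℚ) := by push_cast; linarith
  have v6 : 3 * f 6 = ((2 * z1 + 3 * z2 + 4 * z3 + 6 * z4 + 5 * z5 + 4 * z6 : ℤ) : ℚ) := by push_cast; linarith
  have key : ∀ k ∈ Icc 1 (Ty.E6).rank, ∃ F : ℤ, 3 * f k = F := by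
    intro k hk
    have hk' := mem_Icc.1 hk
    simp only [Ty.rank] at hk'
    have : k = 1 ∨ k = 2 ∨ k = 3 ∨ k = 4 ∨ k = 5 ∨ k = 6 := by omega
    rcases this with rfl | rfl | rfl | rfl | rfl | rfl
    · exact ⟨_, v1⟩
    · exact ⟨_, v2⟩
    · exact ⟨_, v3⟩
    · exact ⟨_, v4⟩
    · exact ⟨_, v5⟩
    · exact ⟨_, v6⟩
  exact mod_cast vals_aux hf (d := 3) (by norm_num) (by exact_mod_cast key)

theorem row_E7 (x : ℕ → ℚ) :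
    (Ty.E7).row 1 x = 2 * x 1 - x 3 ∧
    (Ty.E7).row 2 x = 2 * x 2 - x 4 ∧
    (Ty.E7).row 3 x = -x 1 + 2 * x 3 - x 4 ∧
    (Ty.E7).row 4 x = -x 2 - x 3 + 2 * x 4 - x 5 ∧
    (Ty.E7).row 5 x = -x 4 + 2 * x 5 - x 6 ∧
    (Ty.E7).row 6 x = -x 5 + 2 * x 6 - x 7 ∧
    (Ty.E7).row 7 x = -x 6 + 2 * x 7 := by
  refine ⟨?_, ?_, ?_, ?_, ?_, ?_, ?_⟩
  all_goals
    rw [row_inner .E7 (fun _ _ => Iff.rfl) (mem_Icc.2 ⟨by norm_num, by norm_num [Ty.rank]⟩)]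
    simp only [Ty.rank, Ty.cartan, typeE, chainC]
    simp [Finset.sum_Icc_succ_top]
    try ring

theorem vals_E7 {f : ℕ → ℚ} (hf : Adm .E7 f) :
    ∃ F z : ℕ → ℤ, (∀ k ∈ Icc 1 (Ty.E7).rank, 2 * f k = F k ∧ 0 ≤ F k ∧ F k < 2 ∧
      (Ty.E7).row k f = z k) := by
  have hrow := hf.row
  obtain ⟨e1, e2, e3, e4, e5, e6, e7⟩ := row_E7 f
  have m1 : 1 ∈ Icc 1 (Ty.E7).rank := mem_Icc.2 ⟨by norm_num, by norm_num [Ty.rank]⟩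
  have h1 := hrow 1 m1
  have m2 : 2 ∈ Icc 1 (Ty.E7).rank := mem_Icc.2 ⟨by norm_num, by norm_num [Ty.rank]⟩
  have h2 := hrow 2 m2
  have m3 : 3 ∈ Icc 1 (Ty.E7).rank := mem_Icc.2 ⟨by norm_num, by norm_num [Ty.rank]⟩
  have h3 := hrow 3 m3
  have m4 : 4 ∈ Icc 1 (Ty.E7).rank := mem_Icc.2 ⟨by norm_num, by norm_num [Ty.rank]⟩
  have h4 := hrow 4 m4
  have m5 : 5 ∈ Icc 1 (Ty.E7).rank := mem_Icc.2 ⟨by norm_num, by norm_num [Ty.rank]⟩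
  have h5 := hrow 5 m5
  have m6 : 6 ∈ Icc 1 (Ty.E7).rank := mem_Icc.2 ⟨by norm_num, by norm_num [Ty.rank]⟩
  have h6 := hrow 6 m6
  have m7 : 7 ∈ Icc 1 (Ty.E7).rank := mem_Icc.2 ⟨by norm_num, by norm_num [Ty.rank]⟩
  have h7 := hrow 7 m7
  obtain ⟨z1, hz1⟩ := mem_ZZ.1 h1
  have g1 := hz1
  rw [e1] at g1
  obtain ⟨z2, hz2⟩ := mem_ZZ.1 h2
  have g2 := hz2
  rw [e2] at g2
  obtain ⟨z3, hz3⟩ := mem_ZZ.1 h3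
  have g3 := hz3
  rw [e3] at g3
  obtain ⟨z4, hz4⟩ := mem_ZZ.1 h4
  have g4 := hz4
  rw [e4] at g4
  obtain ⟨z5, hz5⟩ := mem_ZZ.1 h5
  have g5 := hz5
  rw [e5] at g5
  obtain ⟨z6, hz6⟩ := mem_ZZ.1 h6
  have g6 := hz6
  rw [e6] at g6
  obtain ⟨z7, hz7⟩ := mem_ZZ.1 h7
  have g7 := hz7
  rw [e7] at g7
  have v1 : 2 * f 1 = ((4 * z1 + 4 * z2 + 6 * z3 + 8 * z4 + 6 * z5 + 4 * z6 + 2 * z7 : ℤ) : ℚ) := by push_cast; linarith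
  have v2 : 2 * f 2 = ((4 * z1 + 7 * z2 + 8 * z3 + 12 * z4 + 9 * z5 + 6 * z6 + 3 * z7 : ℤ) : ℚ) := by push_cast; linarith
  have v3 : 2 * f 3 = ((6 * z1 + 8 * z2 + 12 * z3 + 16 * z4 + 12 * z5 + 8 * z6 + 4 * z7 : ℤ) : ℚ) := by push_cast; linarith
  have v4 : 2 * f 4 = ((8 * z1 + 12 * z2 + 16 * z3 + 24 * z4 + 18 * z5 + 12 * z6 + 6 * z7 : ℤ) : ℚ) := by push_cast; linarith
  have v5 : 2 * f 5 = ((6 * z1 + 9 * z2 + 12 * z3 + 18 * z4 + 15 * z5 + 10 * z6 + 5 * z7 : ℤ) : ℚ) := by push_cast; linarith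
  have v6 : 2 * f 6 = ((4 * z1 + 6 * z2 + 8 * z3 + 12 * z4 + 10 * z5 + 8 * z6 + 4 * z7 : ℤ) : ℚ) := by push_cast; linarith
  have v7 : 2 * f 7 = ((2 * z1 + 3 * z2 + 4 * z3 + 6 * z4 + 5 * z5 + 4 * z6 + 3 * z7 : ℤ) : ℚ) := by push_cast; linarith
  have key : ∀ k ∈ Icc 1 (Ty.E7).rank, ∃ F : ℤ, 2 * f k = F := by
    intro k hk
    have hk' := mem_Icc.1 hk
    simp only [Ty.rank] at hk'
    have : k = 1 ∨ k = 2 ∨ k = 3 ∨ k = 4 ∨ k = 5 ∨ k = 6 ∨ k = 7 := by omega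
    rcases this with rfl | rfl | rfl | rfl | rfl | rfl | rfl
    · exact ⟨_, v1⟩
    · exact ⟨_, v2⟩
    · exact ⟨_, v3⟩
    · exact ⟨_, v4⟩
    · exact ⟨_, v5⟩
    · exact ⟨_, v6⟩
    · exact ⟨_, v7⟩
  exact mod_cast vals_aux hf (d := 2) (by norm_num) (by exact_mod_cast key)

theorem row_E8 (x : ℕ → ℚ) :
    (Ty.E8).row 1 x = 2 * x 1 - x 3 ∧
    (Ty.E8).row 2 x = 2 * x 2 - x 4 ∧
    (Ty.E8).row 3 x = -x 1 + 2 * x 3 - x 4 ∧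
    (Ty.E8).row 4 x = -x 2 - x 3 + 2 * x 4 - x 5 ∧
    (Ty.E8).row 5 x = -x 4 + 2 * x 5 - x 6 ∧
    (Ty.E8).row 6 x = -x 5 + 2 * x 6 - x 7 ∧
    (Ty.E8).row 7 x = -x 6 + 2 * x 7 - x 8 ∧
    (Ty.E8).row 8 x = -x 7 + 2 * x 8 := by
  refine ⟨?_, ?_, ?_, ?_, ?_, ?_, ?_, ?_⟩
  all_goals
    rw [row_inner .E8 (fun _ _ => Iff.rfl) (mem_Icc.2 ⟨by norm_num, by norm_num [Ty.rank]⟩)]
    simp only [Ty.rank, Ty.cartan, typeE, chainC]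
    simp [Finset.sum_Icc_succ_top]
    try ring

theorem vals_E8 {f : ℕ → ℚ} (hf : Adm .E8 f) :
    ∀ k ∈ Icc 1 (Ty.E8).rank, f k = 0 := by
  have hrow := hf.row
  obtain ⟨e1, e2, e3, e4, e5, e6, e7, e8⟩ := row_E8 f
  have m1 : 1 ∈ Icc 1 (Ty.E8).rank := mem_Icc.2 ⟨by norm_num, by norm_num [Ty.rank]⟩
  have h1 := hrow 1 m1
  have m2 : 2 ∈ Icc 1 (Ty.E8).rank := mem_Icc.2 ⟨by norm_num, by norm_num [Ty.rank]⟩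
  have h2 := hrow 2 m2
  have m3 : 3 ∈ Icc 1 (Ty.E8).rank := mem_Icc.2 ⟨by norm_num, by norm_num [Ty.rank]⟩
  have h3 := hrow 3 m3
  have m4 : 4 ∈ Icc 1 (Ty.E8).rank := mem_Icc.2 ⟨by norm_num, by norm_num [Ty.rank]⟩
  have h4 := hrow 4 m4
  have m5 : 5 ∈ Icc 1 (Ty.E8).rank := mem_Icc.2 ⟨by norm_num, by norm_num [Ty.rank]⟩
  have h5 := hrow 5 m5
  have m6 : 6 ∈ Icc 1 (Ty.E8).rank := mem_Icc.2 ⟨by norm_num, by norm_num [Ty.rank]⟩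
  have h6 := hrow 6 m6
  have m7 : 7 ∈ Icc 1 (Ty.E8).rank := mem_Icc.2 ⟨by norm_num, by norm_num [Ty.rank]⟩
  have h7 := hrow 7 m7
  have m8 : 8 ∈ Icc 1 (Ty.E8).rank := mem_Icc.2 ⟨by norm_num, by norm_num [Ty.rank]⟩
  have h8 := hrow 8 m8
  obtain ⟨z1, g1⟩ := mem_ZZ.1 h1
  rw [e1] at g1
  obtain ⟨z2, g2⟩ := mem_ZZ.1 h2
  rw [e2] at g2
  obtain ⟨z3, g3⟩ := mem_ZZ.1 h3
  rw [e3] at g3
  obtain ⟨z4, g4⟩ := mem_ZZ.1 h4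
  rw [e4] at g4
  obtain ⟨z5, g5⟩ := mem_ZZ.1 h5
  rw [e5] at g5
  obtain ⟨z6, g6⟩ := mem_ZZ.1 h6
  rw [e6] at g6
  obtain ⟨z7, g7⟩ := mem_ZZ.1 h7
  rw [e7] at g7
  obtain ⟨z8, g8⟩ := mem_ZZ.1 h8
  rw [e8] at g8
  have v1 : f 1 = ((4 * z1 + 5 * z2 + 7 * z3 + 10 * z4 + 8 * z5 + 6 * z6 + 4 * z7 + 2 * z8 : ℤ) : ℚ) := by push_cast; linarith
  have v2 : f 2 = ((5 * z1 + 8 * z2 + 10 * z3 + 15 * z4 + 12 * z5 + 9 * z6 + 6 * z7 + 3 * z8 : ℤ) : ℚ) := by push_cast; linarith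
  have v3 : f 3 = ((7 * z1 + 10 * z2 + 14 * z3 + 20 * z4 + 16 * z5 + 12 * z6 + 8 * z7 + 4 * z8 : ℤ) : ℚ) := by push_cast; linarith
  have v4 : f 4 = ((10 * z1 + 15 * z2 + 20 * z3 + 30 * z4 + 24 * z5 + 18 * z6 + 12 * z7 + 6 * z8 : ℤ) : ℚ) := by push_cast; linarith
  have v5 : f 5 = ((8 * z1 + 12 * z2 + 16 * z3 + 24 * z4 + 20 * z5 + 15 * z6 + 10 * z7 + 5 * z8 : ℤ) : ℚ) := by push_cast; linarith
  have v6 : f 6 = ((6 * z1 + 9 * z2 + 12 * z3 + 18 * z4 + 15 * z5 + 12 * z6 + 8 * z7 + 4 * z8 : ℤ) : ℚ) := by push_cast; linarith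
  have v7 : f 7 = ((4 * z1 + 6 * z2 + 8 * z3 + 12 * z4 + 10 * z5 + 8 * z6 + 6 * z7 + 3 * z8 : ℤ) : ℚ) := by push_cast; linarith
  have v8 : f 8 = ((2 * z1 + 3 * z2 + 4 * z3 + 6 * z4 + 5 * z5 + 4 * z6 + 3 * z7 + 2 * z8 : ℤ) : ℚ) := by push_cast; linarith
  intro k hk
  have hk' := mem_Icc.1 hk
  refine zero_of_ZZ (hf.nonneg k hk) (hf.lt_one k hk) ?_
  simp only [Ty.rank] at hk'
  have : k = 1 ∨ k = 2 ∨ k = 3 ∨ k = 4 ∨ k = 5 ∨ k = 6 ∨ k = 7 ∨ k = 8 := by omega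
  rcases this with rfl | rfl | rfl | rfl | rfl | rfl | rfl | rfl
  · rw [v1]
    exact int_mem_ZZ _
  · rw [v2]
    exact int_mem_ZZ _
  · rw [v3]
    exact int_mem_ZZ _
  · rw [v4]
    exact int_mem_ZZ _
  · rw [v5]
    exact int_mem_ZZ _
  · rw [v6]
    exact int_mem_ZZ _
  · rw [v7]
    exact int_mem_ZZ _
  · rw [v8]
    exact int_mem_ZZ _

theorem row_F4 (x : ℕ → ℚ) :
    (Ty.F4).row 1 x = 2 * x 1 - x 2 ∧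
    (Ty.F4).row 2 x = -x 1 + 2 * x 2 - 2 * x 3 ∧
    (Ty.F4).row 3 x = -x 2 + 2 * x 3 - x 4 ∧
    (Ty.F4).row 4 x = -x 3 + 2 * x 4 := by
  refine ⟨?_, ?_, ?_, ?_⟩
  all_goals
    rw [row_inner .F4 (fun _ _ => Iff.rfl) (mem_Icc.2 ⟨by norm_num, by norm_num [Ty.rank]⟩)]
    simp only [Ty.rank, Ty.cartan, typeE, chainC]
    simp [Finset.sum_Icc_succ_top]
    try ring

theorem vals_F4 {f : ℕ → ℚ} (hf : Adm .F4 f) :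
    ∀ k ∈ Icc 1 (Ty.F4).rank, f k = 0 := by
  have hrow := hf.row
  obtain ⟨e1, e2, e3, e4⟩ := row_F4 f
  have m1 : 1 ∈ Icc 1 (Ty.F4).rank := mem_Icc.2 ⟨by norm_num, by norm_num [Ty.rank]⟩
  have h1 := hrow 1 m1
  have m2 : 2 ∈ Icc 1 (Ty.F4).rank := mem_Icc.2 ⟨by norm_num, by norm_num [Ty.rank]⟩
  have h2 := hrow 2 m2
  have m3 : 3 ∈ Icc 1 (Ty.F4).rank := mem_Icc.2 ⟨by norm_num, by norm_num [Ty.rank]⟩
  have h3 := hrow 3 m3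
  have m4 : 4 ∈ Icc 1 (Ty.F4).rank := mem_Icc.2 ⟨by norm_num, by norm_num [Ty.rank]⟩
  have h4 := hrow 4 m4
  obtain ⟨z1, g1⟩ := mem_ZZ.1 h1
  rw [e1] at g1
  obtain ⟨z2, g2⟩ := mem_ZZ.1 h2
  rw [e2] at g2
  obtain ⟨z3, g3⟩ := mem_ZZ.1 h3
  rw [e3] at g3
  obtain ⟨z4, g4⟩ := mem_ZZ.1 h4
  rw [e4] at g4
  have v1 : f 1 = ((2 * z1 + 3 * z2 + 4 * z3 + 2 * z4 : ℤ) : ℚ) := by push_cast; linarith
  have v2 : f 2 = ((3 * z1 + 6 * z2 + 8 * z3 + 4 * z4 : ℤ) : ℚ) := by push_cast; linarith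
  have v3 : f 3 = ((2 * z1 + 4 * z2 + 6 * z3 + 3 * z4 : ℤ) : ℚ) := by push_cast; linarith
  have v4 : f 4 = ((1 * z1 + 2 * z2 + 3 * z3 + 2 * z4 : ℤ) : ℚ) := by push_cast; linarith
  intro k hk
  have hk' := mem_Icc.1 hk
  refine zero_of_ZZ (hf.nonneg k hk) (hf.lt_one k hk) ?_
  simp only [Ty.rank] at hk'
  have : k = 1 ∨ k = 2 ∨ k = 3 ∨ k = 4 := by omega
  rcases this with rfl | rfl | rfl | rfl
  · rw [v1]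
    exact int_mem_ZZ _
  · rw [v2]
    exact int_mem_ZZ _
  · rw [v3]
    exact int_mem_ZZ _
  · rw [v4]
    exact int_mem_ZZ _

theorem row_G2 (x : ℕ → ℚ) :
    (Ty.G2).row 1 x = 2 * x 1 - x 2 ∧
    (Ty.G2).row 2 x = -3 * x 1 + 2 * x 2 := by
  refine ⟨?_, ?_⟩
  all_goals
    rw [row_inner .G2 (fun _ _ => Iff.rfl) (mem_Icc.2 ⟨by norm_num, by norm_num [Ty.rank]⟩)]
    simp only [Ty.rank, Ty.cartan, typeE, chainC]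
    simp [Finset.sum_Icc_succ_top]
    try ring

theorem vals_G2 {f : ℕ → ℚ} (hf : Adm .G2 f) :
    ∀ k ∈ Icc 1 (Ty.G2).rank, f k = 0 := by
  have hrow := hf.row
  obtain ⟨e1, e2⟩ := row_G2 f
  have m1 : 1 ∈ Icc 1 (Ty.G2).rank := mem_Icc.2 ⟨by norm_num, by norm_num [Ty.rank]⟩
  have h1 := hrow 1 m1
  have m2 : 2 ∈ Icc 1 (Ty.G2).rank := mem_Icc.2 ⟨by norm_num, by norm_num [Ty.rank]⟩
  have h2 := hrow 2 m2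
  obtain ⟨z1, g1⟩ := mem_ZZ.1 h1
  rw [e1] at g1
  obtain ⟨z2, g2⟩ := mem_ZZ.1 h2
  rw [e2] at g2
  have v1 : f 1 = ((2 * z1 + 1 * z2 : ℤ) : ℚ) := by push_cast; linarith
  have v2 : f 2 = ((3 * z1 + 2 * z2 : ℤ) : ℚ) := by push_cast; linarith
  intro k hk
  have hk' := mem_Icc.1 hk
  refine zero_of_ZZ (hf.nonneg k hk) (hf.lt_one k hk) ?_
  simp only [Ty.rank] at hk'
  have : k = 1 ∨ k = 2 := by omega
  rcases this with rfl | rfl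
  · rw [v1]
    exact int_mem_ZZ _
  · rw [v2]
    exact int_mem_ZZ _

end Pool.Agent.TH128.KC
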