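import Pool.Agent.TH128.KC.TyE

set_option autoImplicit false
set_option linter.unusedSectionVars false
set_option linter.unusedSimpArgs false

/-!
# The exceptional types, continued, and the classification on one factor
-/

namespace Pool.Agent.TH128.KC

open Finset Pool.Agent.KottwitzG

variable {f f' N N' : ℕ → ℚ}

theorem eq_E6 (hf : Adm .E6 f) (hf' : Adm .E6 f')
    (h3 : Ty.E6.row 3 f = Ty.E6.row 3 f') (h4 : Ty.E6.row 4 f = Ty.E6.row 4 f') :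
    ∀ k ∈ Icc 1 6, f k = f' k := by
  obtain ⟨F, z, h⟩ := vals_E6 hf
  obtain ⟨F', z', h'⟩ := vals_E6 hf'
  have m : ∀ k, 1 ≤ k → k ≤ 6 → k ∈ Icc 1 Ty.E6.rank := fun k h1 h2 => mem_Icc.2 ⟨h1, h2⟩
  have key : ∀ (f : ℕ → ℚ) (F z : ℕ → ℤ), (∀ k ∈ Icc 1 Ty.E6.rank, 3 * f k = F k ∧ 0 ≤ F k ∧
      F k < 3 ∧ Ty.E6.row k f = z k) → (2 * F 1 - F 3 = 3 * z 1 ∧ 2 * F 2 - F 4 = 3 * z 2 ∧
      -F 1 + 2 * F 3 - F 4 = 3 * z 3 ∧ -F 2 - F 3 + 2 * F 4 - F 5 = 3 * z 4 ∧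
      -F 4 + 2 * F 5 - F 6 = 3 * z 5 ∧ -F 5 + 2 * F 6 = 3 * z 6) := by
    intro f F z h
    obtain ⟨e1, e2, e3, e4, e5, e6⟩ := row_E6 f
    obtain ⟨a1, -, -, b1⟩ := h 1 (m 1 (by norm_num) (by norm_num))
    obtain ⟨a2, -, -, b2⟩ := h 2 (m 2 (by norm_num) (by norm_num))
    obtain ⟨a3, -, -, b3⟩ := h 3 (m 3 (by norm_num) (by norm_num))
    obtain ⟨a4, -, -, b4⟩ := h 4 (m 4 (by norm_num) (by norm_num))
    obtain ⟨a5, -, -, b5⟩ := h 5 (m 5 (by norm_num) (by norm_num))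
    obtain ⟨a6, -, -, b6⟩ := h 6 (m 6 (by norm_num) (by norm_num))
    rw [e1] at b1
    rw [e2] at b2
    rw [e3] at b3
    rw [e4] at b4
    rw [e5] at b5
    rw [e6] at b6
    refine ⟨?_, ?_, ?_, ?_, ?_, ?_⟩
    · have : (2 * F 1 - F 3 : ℚ) = 3 * z 1 := by linarith
      exact_mod_cast this
    · have : (2 * F 2 - F 4 : ℚ) = 3 * z 2 := by linarith
      exact_mod_cast this
    · have : (-F 1 + 2 * F 3 - F 4 : ℚ) = 3 * z 3 := by linarith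
      exact_mod_cast this
    · have : (-F 2 - F 3 + 2 * F 4 - F 5 : ℚ) = 3 * z 4 := by linarith
      exact_mod_cast this
    · have : (-F 4 + 2 * F 5 - F 6 : ℚ) = 3 * z 5 := by linarith
      exact_mod_cast this
    · have : (-F 5 + 2 * F 6 : ℚ) = 3 * z 6 := by linarith
      exact_mod_cast this
  have k1 := key f F z h
  have k2 := key f' F' z' h'
  have z3 : z 3 = z' 3 := by
    have h1 := (h 3 (m 3 (by norm_num) (by norm_num))).2.2.2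
    have h2 := (h' 3 (m 3 (by norm_num) (by norm_num))).2.2.2
    rw [h1, h2] at h3
    exact_mod_cast h3
  have z4 : z 4 = z' 4 := by
    have h1 := (h 4 (m 4 (by norm_num) (by norm_num))).2.2.2
    have h2 := (h' 4 (m 4 (by norm_num) (by norm_num))).2.2.2
    rw [h1, h2] at h4
    exact_mod_cast h4
  have b : ∀ k, 1 ≤ k → k ≤ 6 → (0 ≤ F k ∧ F k < 3) ∧ (0 ≤ F' k ∧ F' k < 3) := fun k h1 h2 =>
    ⟨⟨(h k (m k h1 h2)).2.1, (h k (m k h1 h2)).2.2.1⟩,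
      ⟨(h' k (m k h1 h2)).2.1, (h' k (m k h1 h2)).2.2.1⟩⟩
  have b1 := b 1 (by norm_num) (by norm_num)
  have b2 := b 2 (by norm_num) (by norm_num)
  have b3 := b 3 (by norm_num) (by norm_num)
  have b4 := b 4 (by norm_num) (by norm_num)
  have b5 := b 5 (by norm_num) (by norm_num)
  have b6 := b 6 (by norm_num) (by norm_num)
  have cases : ∀ F1 F2 F3 F4 F5 F6 z1 z2 z3 z4 z5 z6 : ℤ, (0 ≤ F1 ∧ F1 < 3) → (0 ≤ F2 ∧ F2 < 3) →
      (0 ≤ F3 ∧ F3 < 3) → (0 ≤ F4 ∧ F4 < 3) → (0 ≤ F5 ∧ F5 < 3) → (0 ≤ F6 ∧ F6 < 3) →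
      (2 * F1 - F3 = 3 * z1 ∧ 2 * F2 - F4 = 3 * z2 ∧
      -F1 + 2 * F3 - F4 = 3 * z3 ∧ -F2 - F3 + 2 * F4 - F5 = 3 * z4 ∧
      -F4 + 2 * F5 - F6 = 3 * z5 ∧ -F5 + 2 * F6 = 3 * z6) →
      (F1 = 0 ∧ F2 = 0 ∧ F3 = 0 ∧ F4 = 0 ∧ F5 = 0 ∧ F6 = 0 ∧ z3 = 0 ∧ z4 = 0) ∨
      (F1 = 1 ∧ F2 = 0 ∧ F3 = 2 ∧ F4 = 0 ∧ F5 = 1 ∧ F6 = 2 ∧ z3 = 1 ∧ z4 = -1) ∨
      (F1 = 2 ∧ F2 = 0 ∧ F3 = 1 ∧ F4 = 0 ∧ F5 = 2 ∧ F6 = 1 ∧ z3 = 0 ∧ z4 = -1) := by
    intro F1 F2 F3 F4 F5 F6 z1 z2 z3 z4 z5 z6 g1 g2 g3 g4 g5 g6 g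
    obtain ⟨q1, q2, q3, q4, q5, q6⟩ := g
    have t4 : F4 = 0 := by omega
    subst t4
    have t2 : F2 = 0 := by omega
    subst t2
    have t1 : F1 = 0 ∨ F1 = 1 ∨ F1 = 2 := by omega
    rcases t1 with rfl | rfl | rfl
    · have t3 : F3 = 0 := by omega
      subst t3
      have t5 : F5 = 0 := by omega
      subst t5
      have t6 : F6 = 0 := by omega
      subst t6
      omega
    · have t3 : F3 = 2 := by omega
      subst t3
      have t5 : F5 = 1 := by omega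
      subst t5
      have t6 : F6 = 2 := by omega
      subst t6
      omega
    · have t3 : F3 = 1 := by omega
      subst t3
      have t5 : F5 = 2 := by omega
      subst t5
      have t6 : F6 = 1 := by omega
      subst t6
      omega
  have hFF : F 1 = F' 1 ∧ F 2 = F' 2 ∧ F 3 = F' 3 ∧ F 4 = F' 4 ∧ F 5 = F' 5 ∧ F 6 = F' 6 := by
    have g := cases _ _ _ _ _ _ _ _ _ _ _ _ b1.1 b2.1 b3.1 b4.1 b5.1 b6.1 k1
    have g' := cases _ _ _ _ _ _ _ _ _ _ _ _ b1.2 b2.2 b3.2 b4.2 b5.2 b6.2 k2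
    clear b1 b2 b3 b4 b5 b6 k1 k2 b cases
    rcases g with g | g | g <;> rcases g' with g' | g' | g' <;>
      obtain ⟨x1, x2, x3, x4, x5, x6, x7, x8⟩ := g <;>
      obtain ⟨y1, y2, y3, y4, y5, y6, y7, y8⟩ := g' <;>
      refine ⟨?_, ?_, ?_, ?_, ?_, ?_⟩ <;> omega
  intro k hk
  have hk' := mem_Icc.1 hk
  have e := (h k hk).1
  have e' := (h' k hk).1
  have hc : k = 1 ∨ k = 2 ∨ k = 3 ∨ k = 4 ∨ k = 5 ∨ k = 6 := by omega
  have : F k = F' k := by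
    obtain ⟨g1, g2, g3, g4, g5, g6⟩ := hFF
    rcases hc with rfl | rfl | rfl | rfl | rfl | rfl <;> assumption
  rw [this] at e
  linarith

theorem eq_E7 (hf : Adm .E7 f) (hf' : Adm .E7 f')
    (h4 : Ty.E7.row 4 f = Ty.E7.row 4 f') :
    ∀ k ∈ Icc 1 7, f k = f' k := by
  obtain ⟨F, z, h⟩ := vals_E7 hf
  obtain ⟨F', z', h'⟩ := vals_E7 hf'
  have m : ∀ k, 1 ≤ k → k ≤ 7 → k ∈ Icc 1 Ty.E7.rank := fun k h1 h2 => mem_Icc.2 ⟨h1, h2⟩
  have key : ∀ (f : ℕ → ℚ) (F z : ℕ → ℤ), (∀ k ∈ Icc 1 Ty.E7.rank, 2 * f k = F k ∧ 0 ≤ F k ∧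
      F k < 2 ∧ Ty.E7.row k f = z k) → (2 * F 1 - F 3 = 2 * z 1 ∧ 2 * F 2 - F 4 = 2 * z 2 ∧
      -F 1 + 2 * F 3 - F 4 = 2 * z 3 ∧ -F 2 - F 3 + 2 * F 4 - F 5 = 2 * z 4 ∧
      -F 4 + 2 * F 5 - F 6 = 2 * z 5 ∧ -F 5 + 2 * F 6 - F 7 = 2 * z 6 ∧
      -F 6 + 2 * F 7 = 2 * z 7) := by
    intro f F z h
    obtain ⟨e1, e2, e3, e4, e5, e6, e7⟩ := row_E7 f
    obtain ⟨a1, -, -, b1⟩ := h 1 (m 1 (by norm_num) (by norm_num))
    obtain ⟨a2, -, -, b2⟩ := h 2 (m 2 (by norm_num) (by norm_num))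
    obtain ⟨a3, -, -, b3⟩ := h 3 (m 3 (by norm_num) (by norm_num))
    obtain ⟨a4, -, -, b4⟩ := h 4 (m 4 (by norm_num) (by norm_num))
    obtain ⟨a5, -, -, b5⟩ := h 5 (m 5 (by norm_num) (by norm_num))
    obtain ⟨a6, -, -, b6⟩ := h 6 (m 6 (by norm_num) (by norm_num))
    obtain ⟨a7, -, -, b7⟩ := h 7 (m 7 (by norm_num) (by norm_num))
    rw [e1] at b1
    rw [e2] at b2
    rw [e3] at b3
    rw [e4] at b4
    rw [e5] at b5
    rw [e6] at b6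
    rw [e7] at b7
    refine ⟨?_, ?_, ?_, ?_, ?_, ?_, ?_⟩
    · have : (2 * F 1 - F 3 : ℚ) = 2 * z 1 := by linarith
      exact_mod_cast this
    · have : (2 * F 2 - F 4 : ℚ) = 2 * z 2 := by linarith
      exact_mod_cast this
    · have : (-F 1 + 2 * F 3 - F 4 : ℚ) = 2 * z 3 := by linarith
      exact_mod_cast this
    · have : (-F 2 - F 3 + 2 * F 4 - F 5 : ℚ) = 2 * z 4 := by linarith
      exact_mod_cast this
    · have : (-F 4 + 2 * F 5 - F 6 : ℚ) = 2 * z 5 := by linarith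
      exact_mod_cast this
    · have : (-F 5 + 2 * F 6 - F 7 : ℚ) = 2 * z 6 := by linarith
      exact_mod_cast this
    · have : (-F 6 + 2 * F 7 : ℚ) = 2 * z 7 := by linarith
      exact_mod_cast this
  have k1 := key f F z h
  have k2 := key f' F' z' h'
  have z4 : z 4 = z' 4 := by
    have h1 := (h 4 (m 4 (by norm_num) (by norm_num))).2.2.2
    have h2 := (h' 4 (m 4 (by norm_num) (by norm_num))).2.2.2
    rw [h1, h2] at h4
    exact_mod_cast h4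
  have b : ∀ k, 1 ≤ k → k ≤ 7 → (0 ≤ F k ∧ F k < 2) ∧ (0 ≤ F' k ∧ F' k < 2) := fun k h1 h2 =>
    ⟨⟨(h k (m k h1 h2)).2.1, (h k (m k h1 h2)).2.2.1⟩,
      ⟨(h' k (m k h1 h2)).2.1, (h' k (m k h1 h2)).2.2.1⟩⟩
  have b1 := b 1 (by norm_num) (by norm_num)
  have b2 := b 2 (by norm_num) (by norm_num)
  have b3 := b 3 (by norm_num) (by norm_num)
  have b4 := b 4 (by norm_num) (by norm_num)
  have b5 := b 5 (by norm_num) (by norm_num)
  have b6 := b 6 (by norm_num) (by norm_num)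
  have b7 := b 7 (by norm_num) (by norm_num)
  have hFF : F 1 = F' 1 ∧ F 2 = F' 2 ∧ F 3 = F' 3 ∧ F 4 = F' 4 ∧ F 5 = F' 5 ∧ F 6 = F' 6 ∧
      F 7 = F' 7 := by
    omega
  intro k hk
  have hk' := mem_Icc.1 hk
  have e := (h k hk).1
  have e' := (h' k hk).1
  have hc : k = 1 ∨ k = 2 ∨ k = 3 ∨ k = 4 ∨ k = 5 ∨ k = 6 ∨ k = 7 := by omega
  have : F k = F' k := by
    obtain ⟨g1, g2, g3, g4, g5, g6, g7⟩ := hFF
    rcases hc with rfl | rfl | rfl | rfl | rfl | rfl | rfl <;> assumption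
  rw [this] at e
  linarith

theorem vals_triality (hf : Adm .triality f) : ∀ k ∈ Icc 1 4, f k = 0 := by
  have m : ∀ k, 1 ≤ k → k ≤ 4 → k ∈ Icc 1 Ty.triality.rank := fun k h1 h2 => mem_Icc.2 ⟨h1, h2⟩
  have s1 : Ty.triality.size 1 = 3 := by decide
  have s2 : Ty.triality.size 2 = 1 := by decide
  have s3 : Ty.triality.size 3 = 3 := by decide
  have s4 : Ty.triality.size 4 = 3 := by decide
  have i1 := m 1 (by norm_num) (by norm_num)
  have i2 := m 2 (by norm_num) (by norm_num)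
  have i3 := m 3 (by norm_num) (by norm_num)
  have i4 := m 4 (by norm_num) (by norm_num)
  have e3 : f 1 = f 3 := hf.same 1 i1 3 i3 (Or.inr ⟨by norm_num, by norm_num⟩)
  have e4 : f 1 = f 4 := hf.same 1 i1 4 i4 (Or.inr ⟨by norm_num, by norm_num⟩)
  have r1 : Ty.triality.row 1 f = 2 * f 1 - 3 * f 2 := by
    unfold Ty.row
    simp only [Ty.rank, Ty.cartan, typeD, chainC]
    simp [Finset.sum_Icc_succ_top, s1, s2, s3, s4]
    try ring
  have r2 : Ty.triality.row 2 f = 2 * f 2 - f 1 := by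
    unfold Ty.row
    simp only [Ty.rank, Ty.cartan, typeD, chainC]
    simp [Finset.sum_Icc_succ_top, s1, s2, s3, s4, ← e3, ← e4]
    try ring
  have h1 := hf.row 1 i1
  have h2 := hf.row 2 i2
  rw [r1] at h1
  rw [r2] at h2
  have v2 : f 2 = 0 := by
    refine zero_of_ZZ (hf.nonneg 2 i2) (hf.lt_one 2 i2) ?_
    have e : f 2 = (2 * f 2 - f 1) + (2 * f 2 - f 1) + (2 * f 1 - 3 * f 2) := by ring
    rw [e]
    exact ZZ.add_mem (ZZ.add_mem h2 h2) h1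
  have v1 : f 1 = 0 := by
    refine zero_of_ZZ (hf.nonneg 1 i1) (hf.lt_one 1 i1) ?_
    have e : f 1 = -(2 * f 2 - f 1) := by
      rw [v2]
      ring
    rw [e]
    exact ZZ.neg_mem h2
  intro k hk
  rw [mem_Icc] at hk
  have hc : k = 1 ∨ k = 2 ∨ k = 3 ∨ k = 4 := by omega
  rcases hc with rfl | rfl | rfl | rfl
  · exact v1
  · exact v2
  · rw [← e3, v1]
  · rw [← e4, v1]

theorem vals_outerE6 (hf : Adm .outerE6 f) : ∀ k ∈ Icc 1 6, f k = 0 := by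
  have m : ∀ k, 1 ≤ k → k ≤ 6 → k ∈ Icc 1 Ty.outerE6.rank := fun k h1 h2 => mem_Icc.2 ⟨h1, h2⟩
  have s1 : Ty.outerE6.size 1 = 2 := by decide
  have s2 : Ty.outerE6.size 2 = 1 := by decide
  have s3 : Ty.outerE6.size 3 = 2 := by decide
  have s4 : Ty.outerE6.size 4 = 1 := by decide
  have s5 : Ty.outerE6.size 5 = 2 := by decide
  have s6 : Ty.outerE6.size 6 = 2 := by decide
  have i1 := m 1 (by norm_num) (by norm_num)
  have i2 := m 2 (by norm_num) (by norm_num)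
  have i3 := m 3 (by norm_num) (by norm_num)
  have i4 := m 4 (by norm_num) (by norm_num)
  have i5 := m 5 (by norm_num) (by norm_num)
  have i6 := m 6 (by norm_num) (by norm_num)
  have e6 : f 1 = f 6 := hf.same 1 i1 6 i6 (Or.inr (by simp))
  have e5 : f 3 = f 5 := hf.same 3 i3 5 i5 (Or.inr (by simp))
  have r1 : Ty.outerE6.row 1 f = 2 * f 1 - f 3 := by
    unfold Ty.row
    simp only [Ty.rank, Ty.cartan, typeE]
    simp [Finset.sum_Icc_succ_top, s1, s2, s3, s4, s5, s6]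
    try ring
  have r2 : Ty.outerE6.row 2 f = 2 * f 2 - f 4 := by
    unfold Ty.row
    simp only [Ty.rank, Ty.cartan, typeE]
    simp [Finset.sum_Icc_succ_top, s1, s2, s3, s4, s5, s6]
    try ring
  have r3 : Ty.outerE6.row 3 f = 2 * f 3 - f 1 - 2 * f 4 := by
    unfold Ty.row
    simp only [Ty.rank, Ty.cartan, typeE]
    simp [Finset.sum_Icc_succ_top, s1, s2, s3, s4, s5, s6]
    try ring
  have r4 : Ty.outerE6.row 4 f = 2 * f 4 - f 2 - f 3 := by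
    unfold Ty.row
    simp only [Ty.rank, Ty.cartan, typeE]
    simp [Finset.sum_Icc_succ_top, s1, s2, s3, s4, s5, s6, ← e5]
    try ring
  have h1 := hf.row 1 i1
  have h2 := hf.row 2 i2
  have h3 := hf.row 3 i3
  have h4 := hf.row 4 i4
  rw [r1] at h1
  rw [r2] at h2
  rw [r3] at h3
  rw [r4] at h4
  obtain ⟨z1, g1⟩ := mem_ZZ.1 h1
  obtain ⟨z2, g2⟩ := mem_ZZ.1 h2
  obtain ⟨z3, g3⟩ := mem_ZZ.1 h3
  obtain ⟨z4, g4⟩ := mem_ZZ.1 h4
  have w2 : f 2 = ((z1 + 2 * z2 + 2 * z3 + 3 * z4 : ℤ) : ℚ) := by push_cast; linarith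
  have v2 : f 2 = 0 := zero_of_ZZ (hf.nonneg 2 i2) (hf.lt_one 2 i2) (by
    rw [w2]
    exact int_mem_ZZ _)
  have v4 : f 4 = 0 := zero_of_ZZ (hf.nonneg 4 i4) (hf.lt_one 4 i4) (by
    have e : f 4 = ((-z2 : ℤ) : ℚ) := by
      push_cast
      linarith
    rw [e]
    exact int_mem_ZZ _)
  have v3 : f 3 = 0 := zero_of_ZZ (hf.nonneg 3 i3) (hf.lt_one 3 i3) (by
    have e : f 3 = ((-z4 : ℤ) : ℚ) := by
      push_cast
      linarith
    rw [e]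
    exact int_mem_ZZ _)
  have v1 : f 1 = 0 := zero_of_ZZ (hf.nonneg 1 i1) (hf.lt_one 1 i1) (by
    have e : f 1 = ((-z3 : ℤ) : ℚ) := by
      push_cast
      linarith
    rw [e]
    exact int_mem_ZZ _)
  intro k hk
  rw [mem_Icc] at hk
  have hc : k = 1 ∨ k = 2 ∨ k = 3 ∨ k = 4 ∨ k = 5 ∨ k = 6 := by omega
  rcases hc with rfl | rfl | rfl | rfl | rfl | rfl
  · exact v1
  · exact v2
  · exact v3
  · exact v4
  · rw [← e5, v3]
  · rw [← e6, v1]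

/-- The classification on one factor. -/
theorem cond_iff {T : Ty} (hT : T.IsValid) (hf : Adm T f) (hf' : Adm T f')
    (hN : NSZero T N N') : Eqs T f f' N N' ↔ T.Cond f f' N N' := by
  cases T with
  | A n => exact cond_A hT hf hf'
  | outerA n => exact cond_outerA hT hf hf'
  | D n => exact cond_D hT hf hf' hN
  | B n =>
    refine ⟨fun hE => triv_of_eqs hE ?_, fun h => eqs_of_triv h⟩
    obtain ⟨m, rfl⟩ : ∃ m, n = m + 2 := ⟨n - 2, by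
      simp only [Ty.IsValid] at hT
      omega⟩
    exact eq_B hf hf' (row_eq_of_NS hE hN (k := m + 2) (mem_Icc.2 ⟨by omega, by
      simp only [Ty.rank]; omega⟩) rfl)
  | C n =>
    refine ⟨fun hE => triv_of_eqs hE ?_, fun h => eqs_of_triv h⟩
    obtain ⟨m, rfl⟩ : ∃ m, n = m + 2 := ⟨n - 2, by
      simp only [Ty.IsValid] at hT
      omega⟩
    exact eq_C hf hf' (row_eq_of_NS hE hN (k := m + 1) (mem_Icc.2 ⟨by omega, by
      simp only [Ty.rank]; omega⟩) rfl)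
  | outerD n =>
    refine ⟨fun hE => triv_of_eqs hE ?_, fun h => eqs_of_triv h⟩
    obtain ⟨m, rfl⟩ : ∃ m, n = m + 4 := ⟨n - 4, by
      simp only [Ty.IsValid] at hT
      omega⟩
    exact eq_outerD hf hf' (row_eq_of_NS hE hN (k := m + 2) (mem_Icc.2 ⟨by omega, by
      simp only [Ty.rank]; omega⟩) rfl)
  | triality =>
    refine ⟨fun hE => triv_of_eqs hE ?_, fun h => eqs_of_triv h⟩
    intro k hk
    rw [vals_triality hf k hk, vals_triality hf' k hk]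
  | E6 =>
    refine ⟨fun hE => triv_of_eqs hE ?_, fun h => eqs_of_triv h⟩
    exact eq_E6 hf hf' (row_eq_of_NS hE hN (k := 3) (mem_Icc.2 ⟨by omega, by
      simp only [Ty.rank]; omega⟩) (Or.inl rfl)) (row_eq_of_NS hE hN (k := 4) (mem_Icc.2
      ⟨by omega, by simp only [Ty.rank]; omega⟩) (Or.inr rfl))
  | outerE6 =>
    refine ⟨fun hE => triv_of_eqs hE ?_, fun h => eqs_of_triv h⟩
    intro k hk
    rw [vals_outerE6 hf k hk, vals_outerE6 hf' k hk]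
  | E7 =>
    refine ⟨fun hE => triv_of_eqs hE ?_, fun h => eqs_of_triv h⟩
    exact eq_E7 hf hf' (row_eq_of_NS hE hN (k := 4) (mem_Icc.2 ⟨by omega, by
      simp only [Ty.rank]; omega⟩) rfl)
  | E8 =>
    refine ⟨fun hE => triv_of_eqs hE ?_, fun h => eqs_of_triv h⟩
    intro k hk
    rw [vals_E8 hf k hk, vals_E8 hf' k hk]
  | F4 =>
    refine ⟨fun hE => triv_of_eqs hE ?_, fun h => eqs_of_triv h⟩
    intro k hk
    rw [vals_F4 hf k hk, vals_F4 hf' k hk]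
  | G2 =>
    refine ⟨fun hE => triv_of_eqs hE ?_, fun h => eqs_of_triv h⟩
    intro k hk
    rw [vals_G2 hf k hk, vals_G2 hf' k hk]

end Pool.Agent.TH128.KC
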